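import Mathlib
import Pool.Agent.W793.YM.Rebase

/-!
# The non-abelian Stokes formula for arbitrary lattice paths in the comb gauge
-/

open Pool.Agent.H906R3.YM Pool.Agent.W793.YM

namespace Pool.Agent.TH369.WL

set_option linter.unusedSectionVars false
set_option linter.unusedVariables false

noncomputable section

section strip

variable {D : ℕ} {G : Type*} [Group G]

/-- the plaquettes between the comb paths of `w` and `w + e_k`, with fuel -/
def strip : ℕ → Pt D → Fin D → List (Pt D × Fin D)
  | 0, _, _ => []
  | f + 1, w, k => if h : ∃ i, 0 < w i then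
      (if mi w h < k then (w - es (mi w h), mi w h) :: strip f (w - es (mi w h)) k else []) else []

/-- the plaquettes between the comb paths of `w` and `w + e_k` -/
def str (w : Pt D) (k : Fin D) : List (Pt D × Fin D) := strip (sz w) w k

/-- a plaquette transported to the origin -/
def Zp (u : Pt D → Fin D → G) (f : Pt D × Fin D × Fin D) : G :=
  fr u f.1 * plq u f.1 f.2.1 f.2.2 * (fr u f.1)⁻¹

lemma strip_succ (f : ℕ) (w : Pt D) (k : Fin D) : strip (f + 1) w k = if h : ∃ i, 0 < w i then
      (if mi w h < k then (w - es (mi w h), mi w h) :: strip f (w - es (mi w h)) k else [])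
        else [] := rfl

lemma fr_tree' (u : Pt D → Fin D → G) (w : Pt D) (k : Fin D) (h : ∀ i < k, w i = 0) :
    fr u (w + es k) = fr u w * u w k := by
  have h2 : ∃ i, 0 < (w + es k) i := ⟨k, by simp [es]⟩
  have h3 : mi (w + es k) h2 = k := by
    refine mi_eq _ _ (by simp [es]) fun i hi => ?_
    simp [es, h i hi, hi.ne]
  rw [fr_succ u h2, h3, add_tsub_cancel_right]

lemma tl_tree' (u : Pt D → Fin D → G) (w : Pt D) (k : Fin D) (h : ∀ i < k, w i = 0) :
    tl u w k = 1 := by
  unfold tl
  rw [fr_tree' u w k h, mul_inv_cancel]

lemma tl_step' (u : Pt D → Fin D → G) (v : Pt D) (j k : Fin D) (hjk : j < k)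
    (hv : ∀ i < j, v i = 0) :
    tl u (v + es j) k = (fr u v * plq u v j k * (fr u v)⁻¹) * tl u v k := by
  have h1 : fr u (v + es j) = fr u v * u v j := fr_tree' u v j hv
  have h2 : fr u (v + es j + es k) = fr u (v + es k) * u (v + es k) j := by
    rw [add_right_comm]
    refine fr_tree' u _ j fun i hi => ?_
    simp only [Pi.add_apply, hv i hi, zero_add]
    exact es_ne (hi.trans hjk).ne
  unfold tl plq
  rw [h1, h2]
  group

lemma strip_len (f : ℕ) (w : Pt D) (k : Fin D) : (strip f w k).length ≤ f := by
  induction f generalizing w with
  | zero => simp [strip]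
  | succ f ih =>
    rw [strip_succ]
    split_ifs with h h2
    · rw [List.length_cons]; have := ih (w - es (mi w h)); omega
    · simp
    · simp

lemma strip_mem (f : ℕ) (w : Pt D) (k : Fin D) : ∀ q ∈ strip f w k, q.1 ≤ w ∧ q.2 < k := by
  induction f generalizing w with
  | zero => simp [strip]
  | succ f ih =>
    intro q hq
    rw [strip_succ] at hq
    split_ifs at hq with h h2
    · rw [List.mem_cons] at hq
      rcases hq with rfl | hq
      · exact ⟨fun i => Nat.sub_le _ _, h2⟩
      · have := ih _ q hq
        exact ⟨this.1.trans fun i => Nat.sub_le _ _, this.2⟩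
    · simp at hq
    · simp at hq

/-- the Stokes formula for one link -/
lemma tl_str (u : Pt D → Fin D → G) (w : Pt D) (k : Fin D) :
    tl u w k = ((str w k).map fun q => Zp u (q.1, q.2, k)).prod := by
  unfold str
  induction hn : sz w generalizing w with
  | zero =>
    have hw : ∀ i, w i = 0 := fun i => by
      by_contra hc
      have := sz_sub (Nat.pos_of_ne_zero hc)
      omega
    rw [tl_tree' u w k fun i _ => hw i]
    simp [strip]
  | succ q ih =>
    by_cases hwp : ∃ i, 0 < w i
    · by_cases hjk : mi w hwp < k
      · obtain ⟨j, hj⟩ : ∃ j, j = mi w hwp := ⟨_, rfl⟩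
        have hjp : 0 < w j := by rw [hj]; exact mi_pos w hwp
        have hs := sz_sub hjp
        have hv0 : ∀ i < j, (w - es j) i = 0 := fun i' hi' => by
          have h1 : w i' = 0 := by
            by_contra hc
            have h2 := mi_le w hwp (Nat.pos_of_ne_zero hc)
            rw [← hj] at h2
            exact absurd hi' (not_lt.2 h2)
          have h3 : (w - es j) i' ≤ w i' := Nat.sub_le _ _
          omega
        have hstep := tl_step' u (w - es j) j k (by rw [hj]; exact hjk) hv0
        rw [sub_add_es hjp] at hstep
        rw [hstep, ih (w - es j) (by omega)]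
        rw [strip_succ, dif_pos hwp, if_pos hjk, List.map_cons, List.prod_cons, ← hj]
        rfl
      · have h0 : ∀ i < k, w i = 0 := by
          intro i hi
          by_contra hc
          have h2 := mi_le w hwp (Nat.pos_of_ne_zero hc)
          exact hjk (lt_of_le_of_lt h2 hi)
        rw [tl_tree' u w k h0]
        rw [strip_succ, dif_pos hwp, if_neg hjk]
        simp
    · exfalso
      have : sz w = 0 := by
        unfold sz
        refine Finset.sum_eq_zero fun i _ => ?_
        by_contra hi
        exact hwp ⟨i, Nat.pos_of_ne_zero hi⟩
      omega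

end strip

section faces

variable {d : ℕ} {G : Type*} [Group G]

/-- natural coordinates as integers -/
def nz (v : Pt d) : Fin d → ℤ := fun i => (v i : ℤ)

/-- coordinates relative to `o` -/
def wz (o z : Fin d → ℤ) : Pt d := fun i => (z i - o i).toNat

lemma nz_wz {o z : Fin d → ℤ} (h : ∀ i, o i ≤ z i) : o + nz (wz o z) = z := by
  funext i
  have := h i
  simp only [Pi.add_apply, nz, wz]
  omega

lemma nz_add (v : Pt d) (k : Fin d) : nz (v + es k) = nz v + Pi.single k 1 := by
  funext i
  unfold nz
  by_cases h : i = k
  · subst h; simp [es]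
  · simp [es, h]

lemma wz_add {o z : Fin d → ℤ} (h : ∀ i, o i ≤ z i) (k : Fin d) :
    wz o (z + Pi.single k 1) = wz o z + es k := by
  funext i
  have := h i
  simp only [wz, Pi.add_apply]
  by_cases hi : i = k
  · subst hi; simp only [Pi.single_eq_same, es_same]; omega
  · simp only [Pi.single_eq_of_ne hi, es_ne hi, add_zero]

/-- the configuration in coordinates relative to `o` -/
def uo (V : Ez d → G) (o : Fin d → ℤ) : Pt d → Fin d → G := fun v k => V (o + nz v, k)

/-- the signed value of a face -/
def vl (u : Pt d → Fin d → G) (f : (Pt d × Fin d × Fin d) × Bool) : G :=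
  if f.2 then Zp u f.1 else (Zp u f.1)⁻¹

/-- the signed faces of a path -/
def fcs (o : Fin d → ℤ) : (Fin d → ℤ) → List (Fin d × Bool) →
    List ((Pt d × Fin d × Fin d) × Bool)
  | _, [] => []
  | z, (i, true) :: p => (str (wz o z) i).map (fun q => ((q.1, q.2, i), true)) ++
      fcs o (z + Pi.single i 1) p
  | z, (i, false) :: p => (str (wz o (z - Pi.single i 1)) i).reverse.map
      (fun q => ((q.1, q.2, i), false)) ++ fcs o (z - Pi.single i 1) p

/-- the signed links of a path -/
def lks : (Fin d → ℤ) → List (Fin d × Bool) → List (((Fin d → ℤ) × Fin d) × Bool)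
  | _, [] => []
  | z, (i, true) :: p => ((z, i), true) :: lks (z + Pi.single i 1) p
  | z, (i, false) :: p => ((z - Pi.single i 1, i), false) :: lks (z - Pi.single i 1) p

/-- sign -/
def sg (s : Bool) : ℝ := if s then 1 else -1

lemma single_bd (i j : Fin d) : (0 : ℤ) ≤ (Pi.single i 1 : Fin d → ℤ) j ∧
    (Pi.single i 1 : Fin d → ℤ) j ≤ 1 := by
  by_cases h : j = i
  · subst h; simp
  · simp [h]

/-- The non-abelian Stokes formula for a path. -/
lemma hol_fcs (V : Ez d → G) (o : Fin d → ℤ) (p : List (Fin d × Bool)) (z : Fin d → ℤ)
    (h : ∀ i, o i + p.length ≤ z i) :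
    fr (uo V o) (wz o z) * hol V z p * (fr (uo V o) (wz o (dest z p)))⁻¹ =
      ((fcs o z p).map (vl (uo V o))).prod := by
  induction p generalizing z with
  | nil => simp [hol, dest, fcs]
  | cons s p ih =>
    obtain ⟨i, s⟩ := s
    have hl : (((i, s) :: p).length : ℤ) = p.length + 1 := by simp
    have key : ∀ w : Fin d → ℤ, (∀ i, o i ≤ w i) →
        fr (uo V o) (wz o w) * V (w, i) * (fr (uo V o) (wz o (w + Pi.single i 1)))⁻¹ =
          ((str (wz o w) i).map fun q => Zp (uo V o) (q.1, q.2, i)).prod := by
      intro w hw
      rw [← tl_str, wz_add hw]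
      unfold tl
      congr 2
      unfold uo
      rw [nz_wz hw]
    cases s with
    | true =>
      have h2 := ih (z + Pi.single i 1) (fun j => by
        have e1 := h j
        have e2 := single_bd i j
        rw [Pi.add_apply]
        omega)
      have h3 := key z (fun j => by have e1 := h j; omega)
      simp only [hol, dest, fcs, List.map_append, List.prod_append, List.map_map]
      rw [← h2]
      have h4 : (fun q => Zp (uo V o) (q.1, q.2, i)) =
          (vl (uo V o) ∘ fun q : Pt d × Fin d => ((q.1, q.2, i), true)) := by
        funext q; simp [vl]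
      rw [← h4, ← h3]
      group
    | false =>
      have h2 := ih (z - Pi.single i 1) (fun j => by
        have e1 := h j
        have e2 := single_bd i j
        rw [Pi.sub_apply]
        omega)
      have h3 := key (z - Pi.single i 1) (fun j => by
        have e1 := h j
        have e2 := single_bd i j
        rw [Pi.sub_apply]
        omega)
      rw [sub_add_cancel] at h3
      simp only [hol, dest, fcs, List.map_append, List.prod_append, List.map_map]
      rw [← h2]
      have h4 : ((str (wz o (z - Pi.single i 1)) i).reverse.map
          (vl (uo V o) ∘ fun q : Pt d × Fin d => ((q.1, q.2, i), false))).prod =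
          (((str (wz o (z - Pi.single i 1)) i).map fun q => Zp (uo V o) (q.1, q.2, i)).prod)⁻¹ := by
        rw [List.prod_inv_reverse, List.map_map, ← List.map_reverse]
        congr 1
      rw [h4, ← h3]
      group

lemma fcs_len (o : Fin d → ℤ) (R : ℕ) (p : List (Fin d × Bool)) (z : Fin d → ℤ)
    (h1 : ∀ i, z i + p.length ≤ o i + R) (h2 : ∀ i, o i + p.length ≤ z i) :
    (fcs o z p).length ≤ p.length * (d * R) := by
  induction p generalizing z with
  | nil => simp [fcs]
  | cons s p ih =>
    obtain ⟨i, s⟩ := s
    have hl : (((i, s) :: p).length : ℤ) = p.length + 1 := by simp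
    have key : ∀ w : Fin d → ℤ, (∀ i, w i ≤ o i + R) → (str (wz o w) i).length ≤ d * R := by
      intro w hw
      refine (strip_len _ _ _).trans (sz_le fun j => ?_)
      have := hw j
      unfold wz
      omega
    cases s with
    | true =>
      simp only [fcs, List.length_append, List.length_map, List.length_cons]
      have e1 := ih (z + Pi.single i 1) (fun j => by
        have e1 := h1 j
        have e2 := single_bd i j
        rw [Pi.add_apply]
        omega) (fun j => by
        have e1 := h2 j
        have e2 := single_bd i j
        rw [Pi.add_apply]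
        omega)
      have e2 := key z (fun j => by have := h1 j; omega)
      rw [add_mul, one_mul]; omega
    | false =>
      simp only [fcs, List.length_append, List.length_map, List.length_cons, List.length_reverse]
      have e1 := ih (z - Pi.single i 1) (fun j => by
        have e1 := h1 j
        have e2 := single_bd i j
        rw [Pi.sub_apply]
        omega) (fun j => by
        have e1 := h2 j
        have e2 := single_bd i j
        rw [Pi.sub_apply]
        omega)
      have e2 := key (z - Pi.single i 1) (fun j => by
        have := h1 j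
        have e2 := single_bd i j
        rw [Pi.sub_apply]; omega)
      rw [add_mul, one_mul]; omega

lemma fcs_mem (o : Fin d → ℤ) (R : ℕ) (p : List (Fin d × Bool)) (z : Fin d → ℤ)
    (h1 : ∀ i, z i + p.length ≤ o i + R) :
    ∀ f ∈ fcs o z p, (∀ i, f.1.1 i ≤ R) ∧ f.1.2.1 < f.1.2.2 := by
  induction p generalizing z with
  | nil => simp [fcs]
  | cons s p ih =>
    obtain ⟨i, s⟩ := s
    have hl : (((i, s) :: p).length : ℤ) = p.length + 1 := by simp
    have key : ∀ w : Fin d → ℤ, (∀ i, w i ≤ o i + R) → ∀ q ∈ str (wz o w) i,
        (∀ j, q.1 j ≤ R) ∧ q.2 < i := by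
      intro w hw q hq
      have e1 := strip_mem _ _ _ q hq
      refine ⟨fun j => (e1.1 j).trans ?_, e1.2⟩
      have := hw j
      show (w j - o j).toNat ≤ R
      omega
    cases s with
    | true =>
      intro f hf
      simp only [fcs, List.mem_append, List.mem_map] at hf
      rcases hf with ⟨q, hq, rfl⟩ | hf
      · exact key z (fun j => by have := h1 j; omega) q hq
      · exact ih (z + Pi.single i 1) (fun j => by
          have e1 := h1 j
          have e2 := single_bd i j
          rw [Pi.add_apply]
          omega) f hf
    | false =>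
      intro f hf
      simp only [fcs, List.mem_append, List.mem_map, List.mem_reverse] at hf
      rcases hf with ⟨q, hq, rfl⟩ | hf
      · exact key (z - Pi.single i 1) (fun j => by
          have := h1 j
          have e2 := single_bd i j
          rw [Pi.sub_apply]; omega) q hq
      · exact ih (z - Pi.single i 1) (fun j => by
          have e1 := h1 j
          have e2 := single_bd i j
          rw [Pi.sub_apply]
          omega) f hf

lemma lks_len (z : Fin d → ℤ) (p : List (Fin d × Bool)) : (lks z p).length = p.length := by
  induction p generalizing z with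
  | nil => rfl
  | cons s p ih =>
    obtain ⟨i, s⟩ := s
    cases s <;> simp [lks, ih]

lemma lks_mem (z : Fin d → ℤ) (p : List (Fin d × Bool)) : ∀ e ∈ lks z p, ∀ i,
    z i - p.length ≤ e.1.1 i ∧ e.1.1 i ≤ z i + p.length := by
  induction p generalizing z with
  | nil => simp [lks]
  | cons s p ih =>
    obtain ⟨j, s⟩ := s
    intro e he i
    have hb := single_bd j i
    have hl : (((j, s) :: p).length : ℤ) = p.length + 1 := by simp
    rw [hl]
    cases s with
    | true =>
      simp only [lks, List.mem_cons] at he
      rcases he with rfl | he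
      · simp only; omega
      · have := ih _ e he i
        rw [Pi.add_apply] at this
        omega
    | false =>
      simp only [lks, List.mem_cons] at he
      rcases he with rfl | he
      · simp only [Pi.sub_apply]; omega
      · have := ih _ e he i
        rw [Pi.sub_apply] at this
        omega

/-- the discrete differential of a function of the links -/
def da (o : Fin d → ℤ) (a : Ez d → ℝ) (f : Pt d × Fin d × Fin d) : ℝ :=
  a (o + nz f.1, f.2.1) + a (o + nz (f.1 + es f.2.1), f.2.2) -
    a (o + nz (f.1 + es f.2.2), f.2.1) - a (o + nz f.1, f.2.2)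

lemma hol_add (a : Ez d → ℝ) (z : Fin d → ℤ) (p : List (Fin d × Bool)) :
    Multiplicative.toAdd (hol (fun e => Multiplicative.ofAdd (a e)) z p) =
      ((lks z p).map fun e => sg e.2 * a e.1).sum := by
  induction p generalizing z with
  | nil => rfl
  | cons s p ih =>
    obtain ⟨i, s⟩ := s
    cases s with
    | true => simp [hol, lks, ih, sg]
    | false => simp [hol, lks, ih, sg]

/-- The Stokes formula for a function of the links. -/
lemma stokes_add (a : Ez d → ℝ) (o z : Fin d → ℤ) (p : List (Fin d × Bool))
    (h : ∀ i, o i + p.length ≤ z i) (hc : dest z p = z) :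
    ((fcs o z p).map fun f => sg f.2 * da o a f.1).sum =
      ((lks z p).map fun e => sg e.2 * a e.1).sum := by
  have h1 := hol_fcs (fun e => Multiplicative.ofAdd (a e)) o p z h
  rw [hc, mul_comm, ← mul_assoc, inv_mul_cancel, one_mul] at h1
  have h2 := congrArg Multiplicative.toAdd h1
  rw [hol_add, toAdd_list_sum, List.map_map] at h2
  rw [h2]
  congr 1
  refine List.map_congr_left fun f _ => ?_
  obtain ⟨f, s⟩ := f
  have h3 : Zp (uo (fun e => Multiplicative.ofAdd (a e)) o) f =
      plq (uo (fun e => Multiplicative.ofAdd (a e)) o) f.1 f.2.1 f.2.2 := by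
    unfold Zp
    rw [mul_comm, ← mul_assoc, inv_mul_cancel, one_mul]
  cases s with
  | true =>
    simp only [Function.comp, vl, sg, if_true, one_mul]
    rw [h3]
    unfold plq uo da
    simp only [toAdd_mul, toAdd_inv, toAdd_ofAdd]
    ring
  | false =>
    simp only [Function.comp, vl, sg, Bool.false_eq_true, if_false, toAdd_inv]
    rw [h3]
    unfold plq uo da
    simp only [toAdd_mul, toAdd_inv, toAdd_ofAdd]
    ring

end faces

end

end Pool.Agent.TH369.WL
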