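import Mathlib
import Pool.Agent.TH369.WL.Stokes
import Pool.Agent.W793.SCH.Lift
import Pool.Agent.W314.SCH.B2

/-!
# The form of a lattice path, its boundary and its covariance
-/

open Pool.Agent.H906R3.YM Pool.Agent.W793.YM
open Pool.Agent.W793.SCH (pk gK el)

namespace Pool.Agent.TH369.WL

set_option linter.unusedSectionVars false
set_option linter.unusedVariables false

noncomputable section

variable {d l : ℕ} [NeZero l]

/-- the form of a path: the sum of its faces -/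
def fF (l : ℕ) (o z : Fin d → ℤ) (p : List (Fin d × Bool)) : Fm d l :=
  ((fcs o z p).map fun f => sg f.2 • (el f.1.2.1 f.1.2.2 (zt l (o + nz f.1.1)) : Fm d l)).sum

lemma ipF_zero_left (g : Fm d l) : ipF 0 g = 0 := by
  unfold ipF ip2
  simp

lemma ipF_list {ι : Type*} (L : List ι) (F : ι → Fm d l) (g : Fm d l) :
    ipF ((L.map F).sum) g = (L.map fun x => ipF (F x) g).sum := by
  induction L with
  | nil => simp [ipF_zero_left]
  | cons a L ih => simp only [List.map_cons, List.sum_cons, ipF_add_left, ih]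

lemma ipF_fF {g : Fm d l} (hg : Asy g) (o z : Fin d → ℤ) (p : List (Fin d × Bool)) :
    ipF (fF l o z p) g =
      ((fcs o z p).map fun f => sg f.2 * g f.1.2.1 f.1.2.2 (zt l (o + nz f.1.1))).sum := by
  unfold fF
  rw [ipF_list]
  congr 1
  refine List.map_congr_left fun f _ => ?_
  rw [ipF_smul_left, Pool.Agent.W793.SCHL.ipF_el hg]

lemma asy_zero : Asy (0 : Fm d l) := fun j k => by simp

lemma asy_add {f g : Fm d l} (hf : Asy f) (hg : Asy g) : Asy (f + g) := fun j k => by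
  simp only [Pi.add_apply]
  rw [hf j k, hg j k]; abel

lemma asy_smul {f : Fm d l} (c : ℝ) (hf : Asy f) : Asy (c • f) := fun j k => by
  simp only [Pi.smul_apply]
  rw [hf j k, smul_neg]

lemma asy_list {ι : Type*} (L : List ι) (F : ι → Fm d l) (h : ∀ x, Asy (F x)) :
    Asy (L.map F).sum := by
  induction L with
  | nil => exact asy_zero
  | cons a L ih => simp only [List.map_cons, List.sum_cons]; exact asy_add (h a) ih

lemma fF_asy (o z : Fin d → ℤ) (p : List (Fin d × Bool)) : Asy (fF l o z p) :=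
  asy_list _ _ fun f => asy_smul _ (Pool.Agent.W793.SCHL.el_asy _ _ _)

/-- the boundary of the form of a closed path -/
lemma ipF_fF_d1 (a : Fin d → St d l → ℝ) (o z : Fin d → ℤ) (p : List (Fin d × Bool))
    (h : ∀ i, o i + p.length ≤ z i) (hc : dest z p = z) :
    ipF (fF l o z p) (d1 a) = ((lks z p).map fun e => sg e.2 * a e.1.2 (zt l e.1.1)).sum := by
  rw [ipF_fF (d1_asy a), ← stokes_add (fun e => a e.2 (zt l e.1)) o z p h hc]
  congr 1
  refine List.map_congr_left fun f _ => ?_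
  congr 1
  unfold d1 da Dp
  simp only [Pi.sub_apply, nz_add, ← add_assoc, zt_add]
  ring

/-- the operator which sums the walk, symmetrically truncated -/
def PhK (K : ℕ) (f : St d l → ℝ) : St d l → ℝ := uK K f - Plk K (uK K f)

lemma Plk_uK (K m : ℕ) (f : St d l → ℝ) : Plk m (uK K f) = uK K (Plk m f) := by
  have h1 : Plk m (uK K f) = (1 / (4 * d) : ℝ) • ∑ k ∈ Finset.range K, Plk m (Plk k f) := by
    unfold uK
    rw [Plk_smul]
    congr 1
    exact Pool.Agent.W314.SCH.Plk_sum m _ _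
  rw [h1]
  unfold uK
  congr 1
  refine Finset.sum_congr rfl fun k _ => ?_
  have e1 : Plk m (Plk k f) = Plk (m + k) f := Pool.Agent.W314.SCH.Plk_Plk m k f
  have e2 : Plk k (Plk m f) = Plk (k + m) f := Pool.Agent.W314.SCH.Plk_Plk k m f
  rw [e1, e2, add_comm]

lemma ip2_smul_right' (c : ℝ) (f h : St d l → ℝ) : ip2 f (c • h) = c * ip2 f h := by
  rw [ip2_comm, ip2_smul_left, ip2_comm]

lemma ip2_Plk' (k : ℕ) (f g : St d l → ℝ) : ip2 (Plk k f) g = ip2 f (Plk k g) :=
  Pool.Agent.W314.SCH.ip2_Plk k f g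

lemma ip2_uK (K : ℕ) (f g : St d l → ℝ) : ip2 (uK K f) g = ip2 f (uK K g) := by
  unfold uK
  rw [ip2_smul_left, ip2_smul_right', ip2_sum_left, ip2_sum_right]
  congr 1
  refine Finset.sum_congr rfl fun k _ => ip2_Plk' k f g

lemma ip2_PhK (K : ℕ) (f g : St d l → ℝ) : ip2 (PhK K f) g = ip2 f (PhK K g) := by
  unfold PhK
  rw [ip2_sub_left, ip2_sub_right, ip2_uK, ip2_Plk', ip2_uK, Plk_uK]

lemma uK_sum {ι : Type*} (K : ℕ) (s : Finset ι) (f : ι → St d l → ℝ) :
    uK K (∑ i ∈ s, f i) = ∑ i ∈ s, uK K (f i) := by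
  classical
  induction s using Finset.induction_on with
  | empty =>
    rw [Finset.sum_empty, Finset.sum_empty]
    have := uK_smul K (0:ℝ) (0 : St d l → ℝ)
    rwa [zero_smul, zero_smul] at this
  | insert a s ha ih => rw [Finset.sum_insert ha, Finset.sum_insert ha, uK_add, ih]

lemma uK_Dm (K : ℕ) (i : Fin d) (f : St d l → ℝ) : uK K (Dm i f) = Dm i (uK K f) := by
  unfold uK
  rw [Dm_smul, Dm_sum]
  congr 1
  exact Finset.sum_congr rfl fun k _ => Pool.Agent.W314.SCH.Plk_Dm k i f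

lemma ds2_uK (K : ℕ) (f : Fm d l) (k : Fin d) :
    ds2 (fun j k => uK K (f j k)) k = uK K (ds2 f k) := by
  unfold ds2
  rw [uK_sum]
  exact Finset.sum_congr rfl fun j _ => (uK_Dm K j _).symm

lemma Plk_sub' (k : ℕ) (f g : St d l → ℝ) : Plk k (f - g) = Plk k f - Plk k g :=
  Pool.Agent.W314.SCH.Plk_sub k f g

lemma Plk_Dp' (k : ℕ) (i : Fin d) (f : St d l → ℝ) : Plk k (Dp i f) = Dp i (Plk k f) :=
  Pool.Agent.W314.SCH.Plk_Dp k i f

lemma ipF_TL_TL (K : ℕ) {f g : Fm d l} (hg : Asy g) :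
    ipF (TL K f) (TL K g) = ipF g (d1 fun k => PhK K (ds2 f k)) := by
  have h1 : ipF (TL K f) (TL K g) = ipF (TL K f) g - ipF (fun p q => Plk K (TL K f p q)) g :=
    Pool.Agent.W314.SCH.ipF_TK_TK K hg
  have h2 : TL K f = d1 fun k => uK K (ds2 f k) := by
    show d1 (ds2 fun j k => uK K (f j k)) = _
    congr 1
    funext k
    exact ds2_uK K f k
  rw [h1, ← ipF_sub_left, ipF_comm]
  congr 1
  rw [h2]
  funext j k
  simp only [Pi.sub_apply]
  unfold d1 PhK
  rw [Plk_sub', Plk_Dp', Plk_Dp', Dp_sub, Dp_sub]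
  abel

/-- the unit mass at a point -/
def dl (y : St d l) : St d l → ℝ := fun x => if x = y then 1 else 0

lemma ip2_dl (y : St d l) (f : St d l → ℝ) : ip2 (dl y) f = f y := by
  unfold ip2 dl
  simp

lemma phi_at (hB : Pool.Agent.W793.SCH.S_B1) (hd : 1 ≤ d) (K : ℕ) (w y : Fin d → ℤ)
    (h : ∀ i, |w i - y i| + 2 * K < l) :
    PhK K (dl (zt l y)) (zt l w) = gK d K (w - y) :=
  Pool.Agent.W314.SCH.phi_apply hB hd K w y h

/-- the interaction of two paths, truncated -/
def QK (g : (Fin d → ℤ) → ℝ) (L L' : List (((Fin d → ℤ) × Fin d) × Bool)) : ℝ :=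
  (L.map fun e => (L'.map fun e' => if e.1.2 = e'.1.2 then
    sg e.2 * sg e'.2 * g (e.1.1 - e'.1.1) else 0).sum).sum

/-- the covariance of two closed paths -/
theorem cov_fF (hB : Pool.Agent.W793.SCH.S_B1) (hd : 1 ≤ d) (K : ℕ) (o z z' : Fin d → ℤ)
    (p p' : List (Fin d × Bool)) (h : ∀ i, o i + p.length ≤ z i) (hc : dest z p = z)
    (h' : ∀ i, o i + p'.length ≤ z' i) (hc' : dest z' p' = z')
    (hl : ∀ e ∈ lks z p, ∀ e' ∈ lks z' p', ∀ i, |e.1.1 i - e'.1.1 i| + 2 * K < l) :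
    ipF (TL K (fF l o z p)) (TL K (fF l o z' p')) = QK (gK d K) (lks z p) (lks z' p') := by
  rw [ipF_comm, ipF_TL_TL K (fF_asy o z p), ipF_fF_d1 _ o z p h hc]
  unfold QK
  congr 1
  refine List.map_congr_left fun e he => ?_
  have h1 : PhK K (ds2 (fF l o z' p') e.1.2) (zt l e.1.1) =
      ipF (fF l o z' p') (d1 fun k => if k = e.1.2 then PhK K (dl (zt l e.1.1)) else 0) := by
    rw [ipF_ds (fF_asy o z' p'),
      (ip2_dl (zt l e.1.1) (PhK K (ds2 (fF l o z' p') e.1.2))).symm, ← ip2_PhK, ip2_comm]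
    rw [Finset.sum_eq_single e.1.2]
    · rw [if_pos rfl]
    · intro k _ hk
      rw [if_neg hk]
      unfold ip2; simp
    · intro h; exact absurd (Finset.mem_univ _) h
  rw [h1, ipF_fF_d1 _ o z' p' h' hc', ← List.sum_map_mul_left]
  congr 1
  refine List.map_congr_left fun e' he' => ?_
  by_cases hk : e.1.2 = e'.1.2
  · rw [if_pos hk, if_pos hk.symm]
    have h2 := phi_at (l := l) hB hd K e'.1.1 e.1.1 (fun i => by
      rw [abs_sub_comm]; exact hl e he e' he' i)
    rw [h2]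
    have h3 : gK d K (e.1.1 - e'.1.1) = gK d K (e'.1.1 - e.1.1) := by
      rw [← Pool.Agent.W314.SCH.gK_even, neg_sub]
    rw [h3]; ring
  · rw [if_neg hk, if_neg (fun h => hk h.symm)]
    simp

end

end Pool.Agent.TH369.WL
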