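import Mathlib
import Pool.Agent.TH369.WL.Form

/-!
# Linear functions of the curvature attached to forms, with transports from an inner site
-/

open MeasureTheory Matrix
open Pool.Agent.H906R3.YM Pool.Agent.W793.YM
open Pool.Agent.W793.SCH (pk gK el)

namespace Pool.Agent.TH369.WL

set_option linter.unusedSectionVars false
set_option linter.unusedVariables false

noncomputable section

section comb

variable {d : ℕ} {G : Type*} [Group G]

lemma hol_append (V : Ez d → G) (p q : List (Fin d × Bool)) (x : Fin d → ℤ) :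
    hol V x (p ++ q) = hol V x p * hol V (dest x p) q := by
  induction p generalizing x with
  | nil => simp [hol, dest]
  | cons s p ih =>
    obtain ⟨i, s⟩ := s
    cases s with
    | true => simp only [List.cons_append, hol, dest, ih, mul_assoc]
    | false => simp only [List.cons_append, hol, dest, ih, mul_assoc]

lemma dest_append (p q : List (Fin d × Bool)) (x : Fin d → ℤ) :
    dest x (p ++ q) = dest (dest x p) q := by
  induction p generalizing x with
  | nil => rfl
  | cons s p ih =>
    obtain ⟨i, s⟩ := s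
    cases s with
    | true => simp only [List.cons_append, dest, ih]
    | false => simp only [List.cons_append, dest, ih]

/-- the comb path, with fuel -/
def cmb : ℕ → Pt d → List (Fin d × Bool)
  | 0, _ => []
  | f + 1, w => if h : ∃ i, 0 < w i then cmb f (w - es (mi w h)) ++ [(mi w h, true)] else []

lemma cmb_succ (f : ℕ) (w : Pt d) : cmb (f + 1) w =
    if h : ∃ i, 0 < w i then cmb f (w - es (mi w h)) ++ [(mi w h, true)] else [] := rfl

lemma cmb_len (f : ℕ) (w : Pt d) : (cmb f w).length ≤ f := by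
  induction f generalizing w with
  | zero => simp [cmb]
  | succ f ih =>
    rw [cmb_succ]
    split_ifs with h
    · rw [List.length_append]
      have := ih (w - es (mi w h))
      simp only [List.length_cons, List.length_nil]
      omega
    · simp

lemma cmb_dest (o : Fin d → ℤ) (f : ℕ) (w : Pt d) (hf : sz w = f) :
    dest o (cmb f w) = o + nz w := by
  induction f generalizing w with
  | zero =>
    have hw : ∀ i, w i = 0 := fun i => by
      by_contra hc
      have := sz_sub (Nat.pos_of_ne_zero hc)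
      omega
    simp only [cmb, dest]
    funext i
    simp [nz, hw i]
  | succ f ih =>
    have h : ∃ i, 0 < w i := by
      by_contra hc
      push Not at hc
      have : sz w = 0 := by
        unfold sz
        exact Finset.sum_eq_zero fun i _ => Nat.le_zero.1 (hc i)
      omega
    have hp := mi_pos w h
    have hs := sz_sub hp
    rw [cmb_succ, dif_pos h, dest_append, ih _ (by omega)]
    simp only [dest]
    rw [add_assoc, ← nz_add, sub_add_es hp]

lemma cmb_hol (V : Ez d → G) (o : Fin d → ℤ) (f : ℕ) (w : Pt d) (hf : sz w = f) :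
    hol V o (cmb f w) = gam (uo V o) f w := by
  induction f generalizing w with
  | zero => rfl
  | succ f ih =>
    have h : ∃ i, 0 < w i := by
      by_contra hc
      push Not at hc
      have : sz w = 0 := by
        unfold sz
        exact Finset.sum_eq_zero fun i _ => Nat.le_zero.1 (hc i)
      omega
    have hp := mi_pos w h
    have hs := sz_sub hp
    rw [cmb_succ, dif_pos h, hol_append, ih _ (by omega), cmb_dest o f _ (by omega)]
    simp only [hol, gam, dif_pos h, mul_one]
    rfl

lemma cmb_fr (V : Ez d → G) (o : Fin d → ℤ) (w : Pt d) :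
    hol V o (cmb (sz w) w) = fr (uo V o) w := cmb_hol V o _ w rfl

end comb

section torus

variable {d l : ℕ} [NeZero l]

/-- natural coordinates relative to `o` on the torus -/
def wr (o : Fin d → ℤ) (y : St d l) : Pt d := fun i => wv y i - (o i).toNat

/-- the path from `o` to a site of the torus -/
def Pth (o : Fin d → ℤ) (y : St d l) : List (Fin d × Bool) := cmb (sz (wr o y)) (wr o y)

lemma wr_zt {o : Fin d → ℤ} {v : Pt d} (h0 : ∀ i, 0 ≤ o i) (h1 : ∀ i, o i + v i < l) :
    wr o (zt l (o + nz v)) = v := by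
  funext i
  have h2 := wv_zt (l := l) (z := o + nz v) (fun i => by
    have := h0 i; have := h1 i
    simp only [Pi.add_apply, nz]
    constructor <;> omega) i
  unfold wr
  simp only [Pi.add_apply, nz] at h2
  have := h0 i
  have h3 : (wv (zt l (o + nz v)) i : ℤ) = o i + v i := by
    rw [← h2]
  omega

variable {G : Type*} [Group G]

lemma uo_plq (U : Ed d l → G) (o : Fin d → ℤ) (v : Pt d) (j k : Fin d) :
    plq (uo (lf U) o) v j k = plqT U (zt l (o + nz v)) j k := by
  unfold plq plqT uo
  rw [nz_add, nz_add, ← add_assoc, ← add_assoc, ← zt_add, ← zt_add]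
  rfl

lemma ct_zt (o : Fin d → ℤ) (v : Pt d) : ct l v + zt l o = zt l (o + nz v) := by
  funext i
  simp [ct, zt, nz, add_comm]

end torus

variable {G : Type*} [Group G] [TopologicalSpace G] [IsTopologicalGroup G] [CompactSpace G]
  [SecondCountableTopology G] [MeasurableSpace G] [BorelSpace G] (μ : Measure G)
  [IsProbabilityMeasure μ] [μ.IsMulLeftInvariant] [μ.IsMulRightInvariant] [μ.IsInvInvariant]
  {N n : ℕ} {L : LD G N n} {d l : ℕ} [NeZero l]

variable (L) in
/-- the curvature transported to `o` -/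
def Fo (o : Fin d → ℤ) (U : Ed d l → G) (a : Fin n) : Fm d l := fun j k y =>
  fi L a (hol (lf U) o (Pth o y) * plqT U y j k * (hol (lf U) o (Pth o y))⁻¹)

lemma Fo_asy (o : Fin d → ℤ) (U : Ed d l → G) (a : Fin n) : Asy (Fo L o U a) := by
  intro j k
  funext x
  rw [Pi.neg_apply]
  unfold Fo
  rw [← fi_inv, plqT_swap U x j k]
  congr 1
  group

lemma lf_cont : Continuous (lf : (Ed d l → G) → Ez d → G) :=
  continuous_pi fun e => continuous_apply _

lemma Fo_cont (o : Fin d → ℤ) (a : Fin n) (j k : Fin d) (y : St d l) :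
    Continuous fun U : Ed d l → G => Fo L o U a j k y := by
  unfold Fo
  have h1 : Continuous fun U : Ed d l → G => hol (lf U) o (Pth o y) :=
    (hol_cont o (Pth o y)).comp lf_cont
  exact (fi_cont a).comp ((h1.mul (plqT_cont y j k)).mul h1.inv)

/-- the leg of a form and a colour -/
def Xo (L : LD G N n) (b : ℝ) (o : Fin d → ℤ) (φ : Fm d l) (a : Fin n) (U : Ed d l → G) : ℝ :=
  b ^ 2 * ipF φ (Fo L o U a)

lemma Xo_cont (b : ℝ) (o : Fin d → ℤ) (φ : Fm d l) (a : Fin n) :
    Continuous (Xo L b o φ a : (Ed d l → G) → ℝ) := by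
  unfold Xo ipF ip2
  refine continuous_const.mul (continuous_const.mul ?_)
  refine continuous_finsetSum _ fun j _ => continuous_finsetSum _ fun k _ =>
    continuous_finsetSum _ fun y _ => continuous_const.mul (Fo_cont o a j k y)

section legs

variable {ι : Type*} [Fintype ι]

/-- the test form of a combination of legs -/
def tg (φ : ι → Fm d l) (c : ι → Fin n) (s : ι → ℝ) : Fin n → Fm d l := fun α =>
  ∑ u, (if c u = α then s u else 0) • φ u

lemma tg_asy {φ : ι → Fm d l} (hφ : ∀ u, Asy (φ u)) (c : ι → Fin n) (s : ι → ℝ) (α : Fin n) :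
    Asy (tg φ c s α) := Pool.Agent.W793.SCHL.asy_sum _ _ _ fun u _ => hφ u

lemma Fh_tg (φ : ι → Fm d l) (c : ι → Fin n) (s : ι → ℝ) (o : Fin d → ℤ) (U : Ed d l → G) :
    Fh L (tg φ c s) (fun y => hol (lf U) o (Pth o y)) U = ∑ u, s u * ipF (φ u) (Fo L o U (c u)) := by
  classical
  unfold Fh tg
  simp only [ipF_sum_left, ipF_smul_left]
  rw [Finset.sum_comm]
  refine Finset.sum_congr rfl fun u _ => ?_
  rw [Finset.sum_eq_single (c u)]
  · rw [if_pos rfl]; rfl
  · intro α _ hα
    rw [if_neg (fun h => hα h.symm), zero_mul]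
  · intro h; exact absurd (Finset.mem_univ _) h

lemma Xo_sum (b : ℝ) (φ : ι → Fm d l) (c : ι → Fin n) (s : ι → ℝ) (o : Fin d → ℤ)
    (U : Ed d l → G) : ∑ u, s u * Xo L b o (φ u) (c u) U =
      b ^ 2 * Fh L (tg φ c s) (fun y => hol (lf U) o (Pth o y)) U := by
  rw [Fh_tg, Finset.mul_sum]
  refine Finset.sum_congr rfl fun u _ => ?_
  unfold Xo; ring

/-- the covariance of the legs -/
def cw (K : ℕ) (φ : ι → Fm d l) (c : ι → Fin n) (u v : ι) : ℝ :=
  if c u = c v then ipF (TL K (φ u)) (TL K (φ v)) else 0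

lemma vK_tg (K : ℕ) (φ : ι → Fm d l) (c : ι → Fin n) (s : ι → ℝ) :
    vK K (tg φ c s) = ∑ u, ∑ v, s u * s v * cw K φ c u v := by
  classical
  rw [vK_eq]
  unfold tg
  simp only [map_sum, map_smul, ipF_sum_left, ipF_sum_right, ipF_smul_left, ipF_smul_right]
  rw [Finset.sum_comm]
  refine Finset.sum_congr rfl fun u _ => ?_
  simp only [Finset.mul_sum]
  rw [Finset.sum_comm]
  refine Finset.sum_congr rfl fun v _ => ?_
  unfold cw
  rw [Finset.sum_eq_single (c u)]
  · rw [if_pos rfl, ipF_comm]
    by_cases h : c u = c v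
    · rw [if_pos h, if_pos h.symm]; ring
    · rw [if_neg h, if_neg (fun hc => h hc.symm)]; ring
  · intro α _ hα
    rw [if_neg (fun h => hα h.symm)]; ring
  · intro h; exact absurd (Finset.mem_univ _) h

lemma cw_symm (K : ℕ) (φ : ι → Fm d l) (c : ι → Fin n) (u v : ι) :
    cw K φ c u v = cw K φ c v u := by
  unfold cw
  rw [ipF_comm]
  simp only [eq_comm]

lemma cw_psd (K : ℕ) (φ : ι → Fm d l) (c : ι → Fin n) (s : ι → ℝ) :
    0 ≤ ∑ u, ∑ v, s u * s v * cw K φ c u v := by
  rw [← vK_tg, vK_eq]
  exact Finset.sum_nonneg fun α _ => ipF_self_nonneg _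

/-- the absolute sum of a form -/
def N0 (φ : Fm d l) : ℝ := ∑ j, ∑ k, ∑ x, |φ j k x|

lemma N0_nonneg (φ : Fm d l) : 0 ≤ N0 φ :=
  Finset.sum_nonneg fun _ _ => Finset.sum_nonneg fun _ _ => Finset.sum_nonneg fun _ _ =>
    abs_nonneg _

lemma N0_add (φ ψ : Fm d l) : N0 (φ + ψ) ≤ N0 φ + N0 ψ := by
  unfold N0
  simp only [← Finset.sum_add_distrib, Pi.add_apply]
  exact Finset.sum_le_sum fun _ _ => Finset.sum_le_sum fun _ _ => Finset.sum_le_sum fun _ _ =>
    abs_add_le _ _

lemma N0_smul (c : ℝ) (φ : Fm d l) : N0 (c • φ) = |c| * N0 φ := by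
  unfold N0
  simp only [Finset.mul_sum, Pi.smul_apply, smul_eq_mul, abs_mul]

lemma N0_zero : N0 (0 : Fm d l) = 0 := by
  unfold N0; simp

lemma N0_list {κ : Type*} (Lst : List κ) (F : κ → Fm d l) {B : ℝ} (h : ∀ x ∈ Lst, N0 (F x) ≤ B) :
    N0 (Lst.map F).sum ≤ Lst.length * B := by
  induction Lst with
  | nil => simp [N0_zero]
  | cons a Lst ih =>
    simp only [List.map_cons, List.sum_cons, List.length_cons]
    push_cast
    have h1 := N0_add (F a) (Lst.map F).sum
    have h2 := h a (by simp)
    have h3 := ih fun x hx => h x (by simp [hx])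
    linarith

lemma N0_sum (φ : ι → Fm d l) (s : ι → ℝ) : N0 (∑ u, s u • φ u) ≤ ∑ u, |s u| * N0 (φ u) := by
  classical
  have : ∀ S : Finset ι, N0 (∑ u ∈ S, s u • φ u) ≤ ∑ u ∈ S, |s u| * N0 (φ u) := by
    intro S
    induction S using Finset.induction_on with
    | empty => simp [N0_zero]
    | insert a S ha ih =>
      rw [Finset.sum_insert ha, Finset.sum_insert ha]
      have h1 := N0_add (s a • φ a) (∑ u ∈ S, s u • φ u)
      rw [N0_smul] at h1
      linarith
  exact this _

lemma N1_tg (φ : ι → Fm d l) (c : ι → Fin n) (s : ι → ℝ) (hs : ∀ u, |s u| ≤ 1) {B : ℝ}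
    (hB : ∀ u, N0 (φ u) ≤ B) : N1 (tg φ c s) ≤ Fintype.card ι * B := by
  classical
  have h1 : N1 (tg φ c s) = ∑ α, N0 (tg φ c s α) := rfl
  rw [h1]
  calc ∑ α, N0 (tg φ c s α) ≤ ∑ α, ∑ u, |if c u = α then s u else 0| * N0 (φ u) :=
        Finset.sum_le_sum fun α _ => N0_sum _ _
    _ = ∑ u, ∑ α, |if c u = α then s u else 0| * N0 (φ u) := Finset.sum_comm
    _ = ∑ u, |s u| * N0 (φ u) := by
        refine Finset.sum_congr rfl fun u _ => ?_
        rw [Finset.sum_eq_single (c u)]
        · rw [if_pos rfl]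
        · intro α _ hα
          rw [if_neg (fun h => hα h.symm), abs_zero, zero_mul]
        · intro h; exact absurd (Finset.mem_univ _) h
    _ ≤ ∑ _u : ι, B := Finset.sum_le_sum fun u _ => by
        have := mul_le_mul (hs u) (hB u) (N0_nonneg _) zero_le_one
        linarith
    _ = _ := by rw [Finset.sum_const, Finset.card_univ, nsmul_eq_mul]

end legs

section paths

lemma N0_el (j k : Fin d) (y : St d l) : N0 (el j k y) ≤ 2 := by
  have h1 : ∀ p q x, |el j k y p q x| ≤ (if p = j ∧ q = k ∧ x = y then 1 else 0) +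
      (if p = k ∧ q = j ∧ x = y then (1:ℝ) else 0) := by
    intro p q x
    unfold el
    refine (abs_sub _ _).trans (le_of_eq ?_)
    congr 1 <;> (split_ifs <;> simp)
  have h2 : ∀ (j k' : Fin d), ∑ p : Fin d, ∑ q : Fin d, ∑ x : St d l,
      (if p = j ∧ q = k' ∧ x = y then (1:ℝ) else 0) = 1 := by
    intro j k'
    rw [Finset.sum_eq_single j]
    · rw [Finset.sum_eq_single k']
      · rw [Finset.sum_eq_single y]
        · simp
        · intro x _ hx; rw [if_neg (fun hc => hx hc.2.2)]
        · intro h; exact absurd (Finset.mem_univ _) h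
      · intro q _ hq
        exact Finset.sum_eq_zero fun x _ => if_neg (fun hc => hq hc.2.1)
      · intro h; exact absurd (Finset.mem_univ _) h
    · intro p _ hp
      exact Finset.sum_eq_zero fun q _ => Finset.sum_eq_zero fun x _ => if_neg (fun hc => hp hc.1)
    · intro h; exact absurd (Finset.mem_univ _) h
  unfold N0
  calc ∑ p : Fin d, ∑ q : Fin d, ∑ x, |el j k y p q x| ≤ ∑ p : Fin d, ∑ q : Fin d, ∑ x,
        ((if p = j ∧ q = k ∧ x = y then (1:ℝ) else 0) + (if p = k ∧ q = j ∧ x = y then (1:ℝ) else 0)) :=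
        Finset.sum_le_sum fun p _ => Finset.sum_le_sum fun q _ => Finset.sum_le_sum fun x _ => h1 p q x
    _ = 2 := by
        simp only [Finset.sum_add_distrib]
        rw [h2 j k, h2 k j]; norm_num

lemma abs_sg (s : Bool) : |sg s| = 1 := by cases s <;> simp [sg]

lemma N0_fF (o z : Fin d → ℤ) (p : List (Fin d × Bool)) :
    N0 (fF l o z p) ≤ 2 * (fcs o z p).length := by
  unfold fF
  refine (N0_list _ _ (B := 2) fun f _ => ?_).trans (le_of_eq (mul_comm _ _))
  rw [N0_smul, abs_sg, one_mul]
  exact N0_el _ _ _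

lemma sum_apply3 {κ : Type*} (Lst : List κ) (F : κ → Fm d l) (j k : Fin d) (y : St d l) :
    (Lst.map F).sum j k y = (Lst.map fun x => F x j k y).sum := by
  induction Lst with
  | nil => rfl
  | cons a Lst ih => simp only [List.map_cons, List.sum_cons, Pi.add_apply, ih]

lemma fF_supp {o z : Fin d → ℤ} {p : List (Fin d × Bool)} {j k : Fin d} {y : St d l}
    (h : fF l o z p j k y ≠ 0) : ∃ f ∈ fcs o z p, y = zt l (o + nz f.1.1) := by
  by_contra hc
  push Not at hc
  apply h
  unfold fF
  rw [sum_apply3]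
  refine List.sum_eq_zero fun r hr => ?_
  rw [List.mem_map] at hr
  obtain ⟨f, hf, rfl⟩ := hr
  have h1 := hc f hf
  simp only [Pi.smul_apply, smul_eq_mul]
  unfold el
  rw [if_neg (fun h => h1 h.2.2), if_neg (fun h => h1 h.2.2)]
  simp

end paths

end

end Pool.Agent.TH369.WL
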