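import Mathlib
import Pool.Agent.TH369.WL.Legs
import Pool.Agent.W793.SCH.Mom2

/-!
# Linearisation of the holonomy of a closed lattice path
-/

open MeasureTheory Matrix
open Pool.Agent.H906R3.YM Pool.Agent.W793.YM
open Pool.Agent.W793.SCH (pk gK el plaq_moment2)

namespace Pool.Agent.TH369.WL

set_option linter.unusedSectionVars false
set_option linter.unusedVariables false

noncomputable section

variable {G : Type*} [Group G] [TopologicalSpace G] [IsTopologicalGroup G] [CompactSpace G]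
  [SecondCountableTopology G] [MeasurableSpace G] [BorelSpace G] (μ : Measure G)
  [IsProbabilityMeasure μ] [μ.IsMulLeftInvariant] [μ.IsMulRightInvariant] [μ.IsInvInvariant]
  {N n : ℕ} {L : LD G N n} {d l : ℕ} [NeZero l]

lemma list_dv (gs : List G) : dv L gs.prod ≤ (gs.map (dv L)).sum := by
  induction gs with
  | nil => simp [dv_one]
  | cons g gs ih =>
    rw [List.prod_cons, List.map_cons, List.sum_cons]
    have := dv_mul (L := L) g gs.prod
    linarith

lemma list_dv_nonneg (gs : List G) : 0 ≤ (gs.map (dv L)).sum := by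
  refine List.sum_nonneg fun x hx => ?_
  rw [List.mem_map] at hx
  obtain ⟨g, _, rfl⟩ := hx
  exact dv_nonneg _

lemma list_fi (a : Fin n) (gs : List G) :
    |fi L a gs.prod - (gs.map (fi L a)).sum| ≤ (gs.map (dv L)).sum ^ 2 := by
  induction gs with
  | nil => simp [fi_one]
  | cons g gs ih =>
    rw [List.prod_cons, List.map_cons, List.sum_cons, List.map_cons, List.sum_cons]
    have h1 := fi_mul (L := L) a g gs.prod
    have h2 := list_dv (L := L) gs
    have h3 := list_dv_nonneg (L := L) gs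
    have h4 := dv_nonneg (L := L) g
    obtain ⟨S, hS⟩ : ∃ S, S = (gs.map (dv L)).sum := ⟨_, rfl⟩
    rw [← hS] at ih h2 h3 ⊢
    have h5 : |fi L a (g * gs.prod) - (fi L a g + (gs.map (fi L a)).sum)| ≤
        |fi L a (g * gs.prod) - fi L a g - fi L a gs.prod| +
          |fi L a gs.prod - (gs.map (fi L a)).sum| := by
      refine le_trans (le_of_eq ?_) (abs_add_le _ _)
      congr 1; ring
    have h6 : dv L g * dv L gs.prod ≤ dv L g * S := mul_le_mul_of_nonneg_left h2 h4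
    nlinarith

lemma dv_vl (u : Pt d → Fin d → G) (f : (Pt d × Fin d × Fin d) × Bool) :
    dv L (vl u f) = dv L (plq u f.1.1 f.1.2.1 f.1.2.2) := by
  unfold vl Zp
  split_ifs
  · rw [dv_conj]
  · rw [dv_inv, dv_conj]

lemma fi_vl (a : Fin n) (u : Pt d → Fin d → G) (f : (Pt d × Fin d × Fin d) × Bool) :
    fi L a (vl u f) = sg f.2 * fi L a (Zp u f.1) := by
  unfold vl sg
  split_ifs
  · rw [one_mul]
  · rw [fi_inv]; ring

/-- the holonomy transported to `o` -/
def gl (o z : Fin d → ℤ) (p : List (Fin d × Bool)) (V : Ez d → G) : G :=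
  fr (uo V o) (wz o z) * hol V z p * (fr (uo V o) (wz o z))⁻¹

lemma gl_eq (o z : Fin d → ℤ) (p : List (Fin d × Bool)) (V : Ez d → G)
    (h : ∀ i, o i + p.length ≤ z i) (hc : dest z p = z) :
    gl o z p V = ((fcs o z p).map (vl (uo V o))).prod := by
  have := hol_fcs V o p z h
  rw [hc] at this
  exact this

/-- the deviations near `o` -/
def sL (L : LD G N n) (o : Fin d → ℤ) (R : ℕ) (U : Ed d l → G) : ℝ :=
  sB L (R + 1) (tr (zt l o) U)

lemma sL_nonneg (o : Fin d → ℤ) (R : ℕ) (U : Ed d l → G) : 0 ≤ sL L o R U := sB_nonneg _ _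

lemma sL_cont (o : Fin d → ℤ) (R : ℕ) : Continuous (sL L o R : (Ed d l → G) → ℝ) :=
  (sB_cont _).comp (tr_cont _)

section path

variable {o z : Fin d → ℤ} {p : List (Fin d × Bool)} {R : ℕ}

lemma dv_face (U : Ed d l → G) (h1 : ∀ i, z i + p.length ≤ o i + R) {f}
    (hf : f ∈ fcs o z p) : dv L (vl (uo (lf U) o) f) ≤ sL L o R U := by
  obtain ⟨h2, h3⟩ := fcs_mem o R p z h1 f hf
  rw [dv_vl, uo_plq]
  have h4 := le_sB (L := L) (M := R + 1) (tr (zt l o) U) (v := f.1.1)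
    (fun i => Nat.lt_succ_of_le (h2 i)) h3
  rw [plqT_tr, ct_zt] at h4
  exact h4

lemma sum_face (U : Ed d l → G) (h1 : ∀ i, z i + p.length ≤ o i + R)
    (h2 : ∀ i, o i + p.length ≤ z i) :
    (((fcs o z p).map (vl (uo (lf U) o))).map (dv L)).sum ≤
      (p.length * (d * R) : ℕ) * sL L o R U := by
  rw [List.map_map]
  have h3 : (List.map (dv L ∘ vl (uo (lf U) o)) (fcs o z p)).sum ≤
      (fcs o z p).length * sL L o R U := by
    have := List.sum_le_card_nsmul (List.map (dv L ∘ vl (uo (lf U) o)) (fcs o z p)) (sL L o R U)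
      (fun x hx => by
        rw [List.mem_map] at hx
        obtain ⟨f, hf, rfl⟩ := hx
        exact dv_face U h1 hf)
    rw [List.length_map, nsmul_eq_mul] at this
    exact this
  refine h3.trans (mul_le_mul_of_nonneg_right ?_ (sL_nonneg _ _ _))
  exact_mod_cast fcs_len o R p z h1 h2

lemma dv_gl (U : Ed d l → G) (h1 : ∀ i, z i + p.length ≤ o i + R)
    (h2 : ∀ i, o i + p.length ≤ z i) (hc : dest z p = z) :
    dv L (gl o z p (lf U)) ≤ (p.length * (d * R) : ℕ) * sL L o R U := by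
  rw [gl_eq o z p _ h2 hc]
  exact (list_dv _).trans (sum_face U h1 h2)

lemma Fo_face (U : Ed d l → G) (a : Fin n) (ho : ∀ i, 0 ≤ o i) (hl : ∀ i, o i + R < l)
    (v : Pt d) (hv : ∀ i, v i ≤ R) (j k : Fin d) :
    Fo L o U a j k (zt l (o + nz v)) = fi L a (Zp (uo (lf U) o) (v, j, k)) := by
  unfold Fo Pth Zp
  rw [wr_zt ho (fun i => by
    have := hl i
    have h2 : (v i : ℤ) ≤ R := by exact_mod_cast hv i
    linarith), cmb_fr, uo_plq]

lemma lin_gl (U : Ed d l → G) (a : Fin n) (ho : ∀ i, 0 ≤ o i) (hl : ∀ i, o i + R < l)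
    (h1 : ∀ i, z i + p.length ≤ o i + R) (h2 : ∀ i, o i + p.length ≤ z i) (hc : dest z p = z) :
    |fi L a (gl o z p (lf U)) - ipF (fF l o z p) (Fo L o U a)| ≤
      ((p.length * (d * R) : ℕ) * sL L o R U) ^ 2 := by
  have h3 : ipF (fF l o z p) (Fo L o U a) =
      (((fcs o z p).map (vl (uo (lf U) o))).map (fi L a)).sum := by
    rw [ipF_fF (Fo_asy o U a), List.map_map]
    congr 1
    refine List.map_congr_left fun f hf => ?_
    obtain ⟨h4, h5⟩ := fcs_mem o R p z h1 f hf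
    rw [Function.comp, fi_vl, Fo_face U a ho hl f.1.1 h4]
  rw [h3, gl_eq o z p _ h2 hc]
  refine (list_fi a _).trans ?_
  exact pow_le_pow_left₀ (list_dv_nonneg _) (sum_face U h1 h2) 2

lemma lin_le (U : Ed d l → G) (a : Fin n) (ho : ∀ i, 0 ≤ o i) (hl : ∀ i, o i + R < l)
    (h1 : ∀ i, z i + p.length ≤ o i + R) (h2 : ∀ i, o i + p.length ≤ z i) :
    |ipF (fF l o z p) (Fo L o U a)| ≤ (p.length * (d * R) : ℕ) * sL L o R U := by
  have h3 : ipF (fF l o z p) (Fo L o U a) =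
      (((fcs o z p).map (vl (uo (lf U) o))).map (fi L a)).sum := by
    rw [ipF_fF (Fo_asy o U a), List.map_map]
    congr 1
    refine List.map_congr_left fun f hf => ?_
    obtain ⟨h4, h5⟩ := fcs_mem o R p z h1 f hf
    rw [Function.comp, fi_vl, Fo_face U a ho hl f.1.1 h4]
  rw [h3]
  refine le_trans ?_ (sum_face (L := L) U h1 h2)
  have : ∀ gs : List G, |(gs.map (fi L a)).sum| ≤ (gs.map (dv L)).sum := by
    intro gs
    induction gs with
    | nil => simp
    | cons g gs ih =>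
      simp only [List.map_cons, List.sum_cons]
      exact (abs_add_le _ _).trans (add_le_add (fi_le _ _) ih)
  exact this _

end path

section moments

/-- moments of the deviations in a box -/
theorem sB_mom (r e : ℕ) : ∃ C : ℝ, 0 < C ∧ ∀ b : ℝ, 1 ≤ b → ∀ a : ℝ, 1 ≤ a →
    b ≤ (2 * a) ^ e → ∀ (d m : ℕ) [NeZero m], 2 ≤ m → ∀ M : ℕ,
      EX μ L (b ^ 4) (fun U : Ed d (2 * m) → G => (b ^ 2 * sB L M U) ^ (2 * r + 2)) ≤
        C * a * ((M : ℝ) ^ d * d ^ 2) ^ (2 * r + 2) := by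
  obtain ⟨C, hC, h⟩ := plaq_moment2 μ (L := L) (r + 1) e
  refine ⟨2 ^ (r + 1) * C, by positivity, fun b hb a ha hba d m _ hm M => ?_⟩
  obtain ⟨I, hI⟩ : ∃ I : Finset (Pt d × Fin d × Fin d), I = box d M ×ˢ Finset.univ := ⟨_, rfl⟩
  obtain ⟨f, hf⟩ : ∃ f : Pt d × Fin d × Fin d → (Ed d (2 * m) → G) → ℝ,
    f = fun q U => b ^ 2 * if q.2.1 < q.2.2 then dv L (plqT U (ct (2 * m) q.1) q.2.1 q.2.2) else 0 :=
    ⟨_, rfl⟩
  have hsum : ∀ U : Ed d (2 * m) → G, b ^ 2 * sB L M U = ∑ q ∈ I, f q U := by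
    intro U
    rw [hI, Finset.sum_product, hf]
    unfold sB
    rw [Finset.mul_sum]
    refine Finset.sum_congr rfl fun v _ => ?_
    rw [Fintype.sum_prod_type, Finset.mul_sum]
    exact Finset.sum_congr rfl fun j _ => by rw [Finset.mul_sum]
  have hf0 : ∀ q U, 0 ≤ f q U := fun q U => by
    rw [hf]
    simp only
    split_ifs
    · exact mul_nonneg (by positivity) (dv_nonneg _)
    · simp
  have hcard : (I.card : ℝ) = (M : ℝ) ^ d * d ^ 2 := by
    rw [hI, Finset.card_product, card_box]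
    simp only [Finset.card_univ, Fintype.card_prod, Fintype.card_fin]
    push_cast; ring
  have hfc : ∀ q, Continuous (f q) := fun q => by
    rw [hf]
    by_cases hq : q.2.1 < q.2.2
    · simp only [hq, if_true]
      exact continuous_const.mul (dv_cont.comp (plqT_cont _ _ _))
    · simp only [hq, if_false]
      exact continuous_const
  have hq : ∀ q ∈ I, EX μ L (b ^ 4) (fun U => f q U ^ (2 * r + 2)) ≤ 2 ^ (r + 1) * (C * a) := by
    intro q _
    by_cases hlt : q.2.1 < q.2.2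
    · have h1 := h b hb a ha hba d m hm (ct (2 * m) q.1) q.2.1 q.2.2 hlt.ne
      have h2 : (fun U => f q U ^ (2 * r + 2)) = fun U : Ed d (2 * m) → G =>
          2 ^ (r + 1) * (b ^ 4 * we L (plqT U (ct (2 * m) q.1) q.2.1 q.2.2)) ^ (r + 1) := by
        funext U
        rw [hf]
        simp only [hlt, if_true]
        have h3 := dv_sq (L := L) (plqT U (ct (2 * m) q.1) q.2.1 q.2.2)
        have e1 : 2 * r + 2 = 2 * (r + 1) := by ring
        rw [e1, pow_mul, mul_pow, h3, ← mul_pow]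
        congr 1
        ring
      rw [h2, EX_smul]
      refine mul_le_mul_of_nonneg_left ?_ (by positivity)
      unfold EX
      rw [div_le_iff₀ (Zt_pos μ _)]
      exact h1
    · have h2 : (fun U => f q U ^ (2 * r + 2)) = fun U : Ed d (2 * m) → G => (0 : ℝ) := by
        funext U
        rw [hf]
        simp only [hlt, if_false]
        simp
      rw [h2, EX_const]
      positivity
  have hpow : ∀ U : Ed d (2 * m) → G, (b ^ 2 * sB L M U) ^ (2 * r + 2) ≤
      (I.card : ℝ) ^ (2 * r + 1) * ∑ q ∈ I, f q U ^ (2 * r + 2) := by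
    intro U
    rw [hsum]
    exact pow_sum_le_card_mul_sum_pow (s := I) (f := fun q => f q U) (fun q _ => hf0 q U) (2 * r + 1)
  have h1 : EX μ L (b ^ 4) (fun U : Ed d (2 * m) → G => (b ^ 2 * sB L M U) ^ (2 * r + 2)) ≤
      EX μ L (b ^ 4) (fun U : Ed d (2 * m) → G =>
        (I.card : ℝ) ^ (2 * r + 1) * ∑ q ∈ I, f q U ^ (2 * r + 2)) :=
    EX_mono μ ((continuous_const.mul (sB_cont (L := L) M)).pow _)
      (continuous_const.mul (continuous_finsetSum _ fun q _ => (hfc q).pow _)) hpow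
  refine h1.trans ?_
  rw [EX_smul, EX_sum μ I (F := fun q U => f q U ^ (2 * r + 2)) (fun q _ => (hfc q).pow _), ← hcard]
  calc (I.card : ℝ) ^ (2 * r + 1) * ∑ q ∈ I, EX μ L (b ^ 4) (fun U => f q U ^ (2 * r + 2)) ≤
      (I.card : ℝ) ^ (2 * r + 1) * ∑ _q ∈ I, 2 ^ (r + 1) * (C * a) :=
        mul_le_mul_of_nonneg_left (Finset.sum_le_sum hq) (by positivity)
    _ = 2 ^ (r + 1) * C * a * (I.card : ℝ) ^ (2 * r + 2) := by
        rw [Finset.sum_const, nsmul_eq_mul]; ring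

/-- moments of `1 + b² s` -/
theorem Z_mom (d q e : ℕ) : ∃ C : ℝ, 1 ≤ C ∧ ∀ b : ℝ, 1 ≤ b → ∀ a : ℝ, 1 ≤ a →
    b ≤ (2 * a) ^ e → ∀ (m : ℕ) [NeZero m], 2 ≤ m → ∀ (R : ℕ) (o : Fin d → ℤ),
      EX μ L (b ^ 4) (fun U : Ed d (2 * m) → G => (1 + b ^ 2 * sL L o R U) ^ q) ≤
        C * a * ((R : ℝ) + 1) ^ (d * (2 * q + 2)) := by
  obtain ⟨C, hC, h⟩ := sB_mom μ (L := L) q e
  refine ⟨2 ^ (2 * q + 2) * (1 + C * (d ^ 2 + 1) ^ (2 * q + 2)), ?_, fun b hb a ha hba m _ hm R o => ?_⟩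
  · have h1 : (1:ℝ) ≤ 2 ^ (2 * q + 2) := one_le_pow₀ (by norm_num)
    have h2 : (1:ℝ) ≤ 1 + C * ((d:ℝ) ^ 2 + 1) ^ (2 * q + 2) := by
      have : 0 ≤ C * ((d:ℝ) ^ 2 + 1) ^ (2 * q + 2) := by positivity
      linarith
    nlinarith
  have h1 := h b hb a ha hba d m hm (R + 1)
  have hc : Continuous fun U : Ed d (2 * m) → G => b ^ 2 * sL L o R U :=
    continuous_const.mul (sL_cont o R)
  have h2 : EX μ L (b ^ 4) (fun U : Ed d (2 * m) → G => (b ^ 2 * sL L o R U) ^ (2 * q + 2)) ≤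
      C * a * (((R + 1 : ℕ) : ℝ) ^ d * d ^ 2) ^ (2 * q + 2) := by
    refine le_trans (le_of_eq ?_) h1
    exact EX_tr μ (zt (2 * m) o) (fun U : Ed d (2 * m) → G => (b ^ 2 * sB L (R + 1) U) ^ (2 * q + 2))
  have h3 : EX μ L (b ^ 4) (fun U : Ed d (2 * m) → G => (1 + b ^ 2 * sL L o R U) ^ q) ≤
      EX μ L (b ^ 4) (fun U : Ed d (2 * m) → G => 2 ^ (2 * q + 2) *
        (1 + (b ^ 2 * sL L o R U) ^ (2 * q + 2))) := by
    refine EX_mono μ ((continuous_const.add hc).pow _)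
      (continuous_const.mul (continuous_const.add (hc.pow _))) fun U => ?_
    have hx : 0 ≤ b ^ 2 * sL L o R U := mul_nonneg (by positivity) (sL_nonneg _ _ _)
    obtain ⟨x, hx'⟩ : ∃ x, x = b ^ 2 * sL L o R U := ⟨_, rfl⟩
    rw [← hx'] at hx ⊢
    calc (1 + x) ^ q ≤ (1 + x) ^ (2 * q + 2) := pow_le_pow_right₀ (by linarith) (by omega)
      _ ≤ 2 ^ (2 * q + 2 - 1) * (1 ^ (2 * q + 2) + x ^ (2 * q + 2)) := add_pow_le zero_le_one hx _
      _ ≤ 2 ^ (2 * q + 2) * (1 + x ^ (2 * q + 2)) := by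
          rw [one_pow]
          refine mul_le_mul_of_nonneg_right ?_ (by positivity)
          exact pow_le_pow_right₀ (by norm_num) (by omega)
  refine h3.trans ?_
  have hc2 : Continuous fun U : Ed d (2 * m) → G => (b ^ 2 * sL L o R U) ^ (2 * q + 2) := hc.pow _
  have hs1 : EX μ L (b ^ 4) (fun U : Ed d (2 * m) → G => 2 ^ (2 * q + 2) *
        (1 + (b ^ 2 * sL L o R U) ^ (2 * q + 2))) = 2 ^ (2 * q + 2) * (1 +
        EX μ L (b ^ 4) (fun U : Ed d (2 * m) → G => (b ^ 2 * sL L o R U) ^ (2 * q + 2))) := by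
    rw [EX_smul, EX_add μ (F := fun _ => 1) continuous_const hc2, EX_const]
  rw [hs1]
  have h4 : (1:ℝ) ≤ a * ((R:ℝ) + 1) ^ (d * (2 * q + 2)) := by
    have : (1:ℝ) ≤ ((R:ℝ) + 1) ^ (d * (2 * q + 2)) :=
      one_le_pow₀ (by have : (0:ℝ) ≤ R := Nat.cast_nonneg _; linarith)
    nlinarith
  have h5 : C * a * (((R + 1 : ℕ) : ℝ) ^ d * d ^ 2) ^ (2 * q + 2) ≤
      C * (d ^ 2 + 1) ^ (2 * q + 2) * (a * ((R:ℝ) + 1) ^ (d * (2 * q + 2))) := by
    rw [mul_pow, ← pow_mul]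
    push_cast
    have h6 : ((d:ℝ) ^ 2) ^ (2 * q + 2) ≤ ((d:ℝ) ^ 2 + 1) ^ (2 * q + 2) :=
      pow_le_pow_left₀ (by positivity) (by linarith) _
    calc C * a * (((R:ℝ) + 1) ^ (d * (2 * q + 2)) * ((d:ℝ) ^ 2) ^ (2 * q + 2)) =
        (C * a * ((R:ℝ) + 1) ^ (d * (2 * q + 2))) * ((d:ℝ) ^ 2) ^ (2 * q + 2) := by ring
      _ ≤ (C * a * ((R:ℝ) + 1) ^ (d * (2 * q + 2))) * ((d:ℝ) ^ 2 + 1) ^ (2 * q + 2) :=
          mul_le_mul_of_nonneg_left h6 (by positivity)
      _ = _ := by ring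
  calc (2:ℝ) ^ (2 * q + 2) * (1 + EX μ L (b ^ 4) (fun U : Ed d (2 * m) → G =>
        (b ^ 2 * sL L o R U) ^ (2 * q + 2))) ≤
      2 ^ (2 * q + 2) * (a * ((R:ℝ) + 1) ^ (d * (2 * q + 2)) +
        C * (d ^ 2 + 1) ^ (2 * q + 2) * (a * ((R:ℝ) + 1) ^ (d * (2 * q + 2)))) := by
        refine mul_le_mul_of_nonneg_left ?_ (by positivity)
        linarith [h2.trans h5]
    _ = _ := by ring

end moments

end

end Pool.Agent.TH369.WL
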