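import Mathlib
import Pool.Agent.TH369.WL.Lin
import Pool.Agent.W793.SCH.Lift

/-!
# The legs of closed lattice paths are nearly Gaussian
-/

open MeasureTheory Matrix
open Pool.Agent.H906R3.YM Pool.Agent.W793.YM
open Pool.Agent.W793.SCH (haf legs wick Near pk gK el S_B1 S_TR green)
open Pool.Agent.W793.SCHL (PT PT_prob EX_int)

namespace Pool.Agent.TH369.WL

set_option linter.unusedSectionVars false
set_option linter.unusedVariables false

noncomputable section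

/-- the inner site -/
def oo (d K : ℕ) : Fin d → ℤ := fun _ => (K : ℤ) + 2

section geo

variable {d l : ℕ} [NeZero l]

lemma supp_v {K R : ℕ} {z : Fin d → ℤ} {p : List (Fin d × Bool)}
    (h1 : ∀ i, z i + p.length ≤ oo d K i + R) {j k : Fin d} {y : St d l}
    (h : fF l (oo d K) z p j k y ≠ 0) : ∃ v : Pt d, (∀ i, v i ≤ R) ∧ y = zt l (oo d K + nz v) := by
  obtain ⟨f, hf, rfl⟩ := fF_supp h
  exact ⟨f.1.1, (fcs_mem _ R p z h1 f hf).1, rfl⟩

lemma fF_SW {K R : ℕ} (hR : R < K) (hl : 2 * K + 2 ≤ l) {z : Fin d → ℤ} {p : List (Fin d × Bool)}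
    (h1 : ∀ i, z i + p.length ≤ oo d K i + R) (j k : Fin d) :
    SW (K + 2) (2 * K + 2) (fF l (oo d K) z p j k) := by
  intro y hy i
  obtain ⟨v, hv, rfl⟩ := supp_v h1 hy
  have h2 : ∀ i, (v i : ℤ) ≤ R := fun i => by exact_mod_cast hv i
  have hl' : (2 * K + 2 : ℤ) ≤ l := by exact_mod_cast hl
  have h3 := wv_zt (l := l) (z := oo d K + nz v) (fun i => by
    have := h2 i
    simp only [Pi.add_apply, nz, oo]
    constructor <;> omega) i
  have h4 := h2 i
  simp only [Pi.add_apply, nz, oo] at h3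
  constructor <;> omega

lemma Pth_zt {o : Fin d → ℤ} {v : Pt d} {R : ℕ} (hv : ∀ i, v i ≤ R) (h0 : ∀ i, 0 ≤ o i)
    (h1 : ∀ i, o i + R < l) : (Pth o (zt l (o + nz v))).length ≤ d * R ∧
      zt l (dest o (Pth o (zt l (o + nz v)))) = zt l (o + nz v) := by
  have h2 : wr o (zt l (o + nz v)) = v := wr_zt h0 fun i => by
    have := h1 i
    have h2 : (v i : ℤ) ≤ R := by exact_mod_cast hv i
    linarith
  unfold Pth
  rw [h2, cmb_dest o _ _ rfl]
  exact ⟨(cmb_len _ _).trans (sz_le hv), rfl⟩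

lemma list_sum_abs_le {ι : Type*} (Lst : List ι) (F : ι → ℝ) {B : ℝ} (h : ∀ x ∈ Lst, |F x| ≤ B) :
    |(Lst.map F).sum| ≤ Lst.length * B := by
  induction Lst with
  | nil => simp
  | cons a Lst ih =>
    simp only [List.map_cons, List.sum_cons, List.length_cons]
    push_cast
    have h1 := abs_add_le (F a) (Lst.map F).sum
    have h2 := h a (by simp)
    have h3 := ih fun x hx => h x (by simp [hx])
    linarith

lemma QK_le {g : (Fin d → ℤ) → ℝ} {B : ℝ} (hB : 0 ≤ B) (hg : ∀ z, |g z| ≤ B)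
    (L L' : List (((Fin d → ℤ) × Fin d) × Bool)) : |QK g L L'| ≤ L.length * (L'.length * B) := by
  unfold QK
  refine list_sum_abs_le _ _ fun e _ => list_sum_abs_le _ _ fun e' _ => ?_
  split_ifs
  · rw [abs_mul, abs_mul, abs_sg, abs_sg, one_mul, one_mul]
    exact hg _
  · rw [abs_zero]; exact hB

lemma QK_sub (g g' : (Fin d → ℤ) → ℝ) (L L' : List (((Fin d → ℤ) × Fin d) × Bool)) :
    QK g L L' - QK g' L L' = QK (fun z => g z - g' z) L L' := by
  have key : ∀ {ι : Type} (L : List ι) (F G : ι → ℝ),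
      (L.map F).sum - (L.map G).sum = (L.map fun x => F x - G x).sum := by
    intro ι L F G
    induction L with
    | nil => simp
    | cons a L ih => simp only [List.map_cons, List.sum_cons, ← ih]; ring
  unfold QK
  rw [key]
  congr 1
  refine List.map_congr_left fun e _ => ?_
  rw [key]
  congr 1
  refine List.map_congr_left fun e' _ => ?_
  split_ifs <;> ring

end geo

variable {G : Type} [Group G] [TopologicalSpace G] [IsTopologicalGroup G] [CompactSpace G]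
  [SecondCountableTopology G] [MeasurableSpace G] [BorelSpace G] (μ : Measure G)
  [IsProbabilityMeasure μ] [μ.IsMulLeftInvariant] [μ.IsMulRightInvariant] [μ.IsInvInvariant]
  {N n : ℕ} {L : LD G N n} {d l : ℕ} [NeZero l]

/-- the exponent of the bound of the moments -/
def cM (k d : ℕ) : ℕ := 4 * k + 5 + d * (4 * k + 6)

/-- the matrix of the pairings -/
def AK {k : ℕ} (g : (Fin d → ℤ) → ℝ) (z : Fin k → Fin d → ℤ) (p : Fin k → List (Fin d × Bool))
    (c : Fin k → Fin n) (u v : Fin k × Bool) : ℝ :=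
  if c u.1 = c v.1 then QK g (lks (z u.1) (p u.1)) (lks (z v.1) (p v.1)) else 0

lemma AK_le {k : ℕ} {g : (Fin d → ℤ) → ℝ} {B a : ℝ} (hB : 0 ≤ B) (hg : ∀ z, |g z| ≤ B)
    {z : Fin k → Fin d → ℤ} {p : Fin k → List (Fin d × Bool)} (hp : ∀ r, ((p r).length : ℝ) ≤ a)
    (c : Fin k → Fin n) (u v : Fin k × Bool) : |AK g z p c u v| ≤ a ^ 2 * B := by
  unfold AK
  split_ifs
  · refine (QK_le hB hg _ _).trans ?_
    rw [lks_len, lks_len, ← mul_assoc, pow_two]
    have h0 : (0:ℝ) ≤ ((p u.1).length : ℝ) := Nat.cast_nonneg _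
    have h0' : (0:ℝ) ≤ ((p v.1).length : ℝ) := Nat.cast_nonneg _
    exact mul_le_mul_of_nonneg_right (mul_le_mul (hp _) (hp _) h0' (h0.trans (hp _))) hB
  · rw [abs_zero]; positivity

lemma AK_sub {k : ℕ} (g g' : (Fin d → ℤ) → ℝ) (z : Fin k → Fin d → ℤ)
    (p : Fin k → List (Fin d × Bool)) (c : Fin k → Fin n) (u v : Fin k × Bool) :
    AK g z p c u v - AK g' z p c u v = AK (fun z => g z - g' z) z p c u v := by
  unfold AK
  split_ifs
  · exact QK_sub _ _ _ _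
  · ring

/-- the hypotheses of the abstract theorem -/
theorem near (hd : 3 ≤ d) (hB : S_B1) (hT : S_TR) (k κ₀ : ℕ) (hκ : d ≤ κ₀) :
    ∃ (CM Cδ CT : ℝ), 1 ≤ CM ∧ 0 ≤ Cδ ∧ 0 < CT ∧ (∀ z, |green d z| ≤ CT) ∧
      (∀ (K : ℕ) z, 1 ≤ K → |gK d K z - green d z| ≤ CT / Real.sqrt K) ∧
      ∀ a : ℕ, 1 ≤ a → ∀ b : ℝ,
      (a : ℝ) ^ (4 * κ₀ * (2 * d + 3) + κ₀) ≤ b → b ≤ (2 * a) ^ (4 * κ₀ * (2 * d + 3) + κ₀) →
      ∀ (m : ℕ) [NeZero m], 2 * (3 * a) ^ (4 * κ₀) ≤ m →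
      ∀ (z : Fin k → Fin d → ℤ) (p : Fin k → List (Fin d × Bool)), (∀ r, (p r).length ≤ a) →
      (∀ r, dest (z r) (p r) = z r) →
      (∀ r i, oo d ((3 * a) ^ (4 * κ₀)) i + a ≤ z r i ∧
        z r i ≤ oo d ((3 * a) ^ (4 * κ₀)) i + 3 * a) →
      ∀ c : Fin k → Fin n,
        Near (PT μ L (b ^ 4) : Measure (Ed d (2 * m) → G))
          (fun u : Fin k × Bool => Xo L b (oo d ((3 * a) ^ (4 * κ₀)))
            (fF (2 * m) (oo d ((3 * a) ^ (4 * κ₀))) (z u.1) (p u.1)) (c u.1))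
          (AK (gK d ((3 * a) ^ (4 * κ₀))) z p c) (2 * k + 2) (CM * a ^ cM k d)
          (Cδ * a ^ 4 / a ^ κ₀) := by
  obtain ⟨CL, hCL, hL⟩ := lattice_rb μ (L := L) hd
  obtain ⟨CT, hCT, _, hg, hgK⟩ := hT d hd
  obtain ⟨e, he⟩ : ∃ e, e = 4 * κ₀ * (2 * d + 3) + κ₀ := ⟨_, rfl⟩
  obtain ⟨Cm, hCm, hmom⟩ := Z_mom μ (L := L) d (2 * k + 2) e
  obtain ⟨N₀, hN₀⟩ : ∃ N₀ : ℝ, N₀ = 16 * k * d := ⟨_, rfl⟩
  have hN₀0 : 0 ≤ N₀ := by rw [hN₀]; positivity
  obtain ⟨Cq, hCq⟩ : ∃ Cq : ℝ, Cq = (4 * d) ^ (2 * k + 2) * (Cm * 5 ^ (d * (2 * (2 * k + 2) + 2))) :=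
    ⟨_, rfl⟩
  have hCq0 : 0 ≤ Cq := by rw [hCq]; positivity
  refine ⟨max 1 (max (2 * CT) Cq), CL * (N₀ + 3 ^ (4 * κ₀ * (2 * d + 3)) * (1 + N₀) ^ 2), CT,
    le_max_left _ _, by positivity, hCT, hg, hgK, fun a ha b hab hba m _ hm z p hpa hcl hz c => ?_⟩
  rw [← he] at hab hba
  have hd1 : 1 ≤ d := by omega
  have ha1 : (1:ℝ) ≤ a := by exact_mod_cast ha
  have ha0 : (0:ℝ) < a := by linarith
  have hb : 1 ≤ b := le_trans (one_le_pow₀ ha1) hab
  have hb0 : 0 < b := by linarith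
  obtain ⟨K, hK⟩ : ∃ K, K = (3 * a) ^ (4 * κ₀) := ⟨_, rfl⟩
  rw [← hK] at hm hz ⊢
  have hK27 : 3 ^ (4 * κ₀ - 1) * (3 * a) ≤ K := by
    rw [hK]
    calc 3 ^ (4 * κ₀ - 1) * (3 * a) ≤ (3 * a) ^ (4 * κ₀ - 1) * (3 * a) :=
          Nat.mul_le_mul_right _ (Nat.pow_le_pow_left (by omega) _)
      _ = (3 * a) ^ (4 * κ₀) := by rw [← pow_succ]; congr 1; omega
  have h3d : 27 * d ≤ 3 ^ (4 * κ₀ - 1) := by
    have h1 : d < 3 ^ d := Nat.lt_pow_self (by norm_num)
    calc 27 * d ≤ 3 ^ 3 * 3 ^ d := by omega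
      _ = 3 ^ (3 + d) := (pow_add _ _ _).symm
      _ ≤ 3 ^ (4 * κ₀ - 1) := Nat.pow_le_pow_right (by norm_num) (by omega)
  have hKd : 81 * (d * a) ≤ K := by
    calc 81 * (d * a) = 27 * d * (3 * a) := by ring
      _ ≤ 3 ^ (4 * κ₀ - 1) * (3 * a) := Nat.mul_le_mul_right _ h3d
      _ ≤ K := hK27
  have hda : a ≤ d * a := Nat.le_mul_of_pos_left _ (by omega)
  have hK81 : 81 * a ≤ K := by omega
  have hK1 : 1 ≤ K := by omega
  have hK1' : (1:ℝ) ≤ K := by exact_mod_cast hK1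
  have hm2 : 2 ≤ m := by omega
  have hKm : 3 * K + 5 < 2 * m := by omega
  have hKr : (K : ℝ) = (3 * a) ^ (4 * κ₀) := by rw [hK]; push_cast; rfl
  have hsq : Real.sqrt K = (3 * a) ^ (2 * κ₀) := by
    rw [hKr, show (3 * (a:ℝ)) ^ (4 * κ₀) = ((3 * a) ^ (2 * κ₀)) ^ 2 by rw [← pow_mul]; congr 1; ring]
    exact Real.sqrt_sq (by positivity)
  have hpl : ∀ r, ((p r).length : ℤ) ≤ a := fun r => by exact_mod_cast hpa r
  have hplr : ∀ r, ((p r).length : ℝ) ≤ a := fun r => by exact_mod_cast hpa r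
  have ho0 : ∀ i, 0 ≤ oo d K i := fun i => by unfold oo; positivity
  have h1 : ∀ r i, z r i + (p r).length ≤ oo d K i + (4 * a : ℕ) := fun r i => by
    have := (hz r i).2; have := hpl r; push_cast; omega
  have h2 : ∀ r i, oo d K i + (p r).length ≤ z r i := fun r i => by
    have := (hz r i).1; have := hpl r; omega
  have hol' : ∀ i, oo d K i + (4 * a : ℕ) < ((2 * m : ℕ) : ℤ) := fun i => by
    unfold oo; push_cast; omega
  -- covariance
  have hcv : ∀ u v : Fin k × Bool, cw K (fun u : Fin k × Bool => fF (2 * m) (oo d K) (z u.1) (p u.1))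
      (fun u => c u.1) u v = AK (gK d K) z p c u v := by
    intro u v
    unfold cw AK
    by_cases h : c u.1 = c v.1
    · rw [if_pos h, if_pos h]
      refine cov_fF hB hd1 K _ _ _ _ _ (h2 _) (hcl _) (h2 _) (hcl _) fun e he e' he' i => ?_
      have e1 := lks_mem _ _ e he i
      have e2 := lks_mem _ _ e' he' i
      have e3 := hz u.1 i
      have e4 := hz v.1 i
      have e5 := hpl u.1
      have e6 := hpl v.1
      have e7 : |e.1.1 i - e'.1.1 i| ≤ 4 * a := by rw [abs_le]; constructor <;> omega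
      push_cast
      omega
    · rw [if_neg h, if_neg h]
  have hcv' : AK (gK d K) z p c = cw K (fun u : Fin k × Bool =>
      fF (2 * m) (oo d K) (z u.1) (p u.1)) (fun u => c u.1) := by
    funext u v
    exact (hcv u v).symm
  have hN0 : ∀ u : Fin k × Bool, N0 (fF (2 * m) (oo d K) (z u.1) (p u.1)) ≤ 8 * d * a ^ 2 := by
    intro u
    have e1 := N0_fF (l := 2 * m) (oo d K) (z u.1) (p u.1)
    have e2 := fcs_len (oo d K) (4 * a) (p u.1) (z u.1) (h1 _) (h2 _)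
    have e3 : (fcs (oo d K) (z u.1) (p u.1)).length ≤ a * (d * (4 * a)) :=
      e2.trans (Nat.mul_le_mul_right _ (hpa _))
    have e4 : (((fcs (oo d K) (z u.1) (p u.1)).length : ℕ) : ℝ) ≤ a * (d * (4 * a)) := by
      exact_mod_cast e3
    calc _ ≤ _ := e1
      _ ≤ 2 * (a * (d * (4 * a))) := by linarith
      _ = _ := by ring
  have hchar : ∀ s : Fin k × Bool → ℝ, (∀ u, |s u| ≤ 1) →
      |EX μ L (b ^ 4) (fun U : Ed d (2 * m) → G => Real.cos (b ^ 2 *
        Fh L (tg (fun u : Fin k × Bool => fF (2 * m) (oo d K) (z u.1) (p u.1)) (fun u => c u.1) s)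
          (fun y => hol (lf U) (oo d K) (Pth (oo d K) y)) U)) -
        Real.exp (-(vK K (tg (fun u : Fin k × Bool => fF (2 * m) (oo d K) (z u.1) (p u.1))
          (fun u => c u.1) s) / 2))| ≤
          CL * (N₀ + 3 ^ (4 * κ₀ * (2 * d + 3)) * (1 + N₀) ^ 2) * a ^ 4 / a ^ κ₀ ∧
      |EX μ L (b ^ 4) (fun U : Ed d (2 * m) → G => Real.sin (b ^ 2 *
        Fh L (tg (fun u : Fin k × Bool => fF (2 * m) (oo d K) (z u.1) (p u.1)) (fun u => c u.1) s)
          (fun y => hol (lf U) (oo d K) (Pth (oo d K) y)) U))| ≤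
          CL * (N₀ + 3 ^ (4 * κ₀ * (2 * d + 3)) * (1 + N₀) ^ 2) * a ^ 4 / a ^ κ₀ := by
    intro s hs
    have hsupp : ∀ α j k' y, tg (fun u : Fin k × Bool => fF (2 * m) (oo d K) (z u.1) (p u.1))
        (fun u => c u.1) s α j k' y ≠ 0 → ∃ v : Pt d, (∀ i, v i ≤ 4 * a) ∧
          y = zt (2 * m) (oo d K + nz v) := by
      intro α j k' y hy
      unfold tg at hy
      simp only [Finset.sum_apply, Pi.smul_apply, smul_eq_mul] at hy
      obtain ⟨u, _, hu⟩ := Finset.exists_ne_zero_of_sum_ne_zero hy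
      exact supp_v (h1 u.1) (right_ne_zero_of_mul hu)
    have h3 := hL b hb m K hK1 hKm (tg (fun u : Fin k × Bool => fF (2 * m) (oo d K) (z u.1) (p u.1))
      (fun u => c u.1) s) (fun α => tg_asy (fun u => fF_asy _ _ _) _ _ α)
      (fun α j k' y hy i => by
        obtain ⟨v, hv, rfl⟩ := hsupp α j k' y hy
        have e2 : ∀ i, (v i : ℤ) ≤ 4 * a := fun i => by exact_mod_cast hv i
        have e3 := wv_zt (l := 2 * m) (z := oo d K + nz v) (fun i => by
          have := e2 i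
          simp only [Pi.add_apply, nz, oo]
          push_cast
          constructor <;> omega) i
        have e4 := e2 i
        simp only [Pi.add_apply, nz, oo] at e3
        constructor <;> omega)
      (oo d K) (fun y => Pth (oo d K) y) (fun i => by unfold oo; constructor <;> omega)
      (fun α j k' y hy => by
        obtain ⟨v, hv, rfl⟩ := hsupp α j k' y hy
        have e1 := Pth_zt (l := 2 * m) (R := 4 * a) hv ho0 hol'
        refine ⟨e1.1.trans ?_, e1.2⟩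
        calc d * (4 * a) = 4 * (d * a) := by ring
          _ ≤ K := by omega)
    have hN := N1_tg (l := 2 * m) (fun u : Fin k × Bool => fF (2 * m) (oo d K) (z u.1) (p u.1))
      (fun u => c u.1) s hs hN0
    obtain ⟨N₁, hN₁⟩ : ∃ N₁, N₁ = N1 (tg (fun u : Fin k × Bool =>
      fF (2 * m) (oo d K) (z u.1) (p u.1)) (fun u => c u.1) s) := ⟨_, rfl⟩
    have hN10 : 0 ≤ N₁ := by rw [hN₁]; exact N1_nonneg _
    rw [← hN₁] at h3 hN
    have hN' : N₁ ≤ N₀ * a ^ 2 := by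
      refine hN.trans (le_of_eq ?_)
      rw [hN₀]
      simp only [Fintype.card_prod, Fintype.card_fin, Fintype.card_bool]
      push_cast; ring
    have ha2 : (1:ℝ) ≤ a ^ 2 := one_le_pow₀ ha1
    have e1 : N₁ / Real.sqrt (Real.sqrt K ^ (d - 2)) ≤ N₀ * a ^ 4 / a ^ κ₀ := by
      have e2 : (a:ℝ) ^ κ₀ ≤ Real.sqrt (Real.sqrt K ^ (d - 2)) := by
        refine Real.le_sqrt_of_sq_le ?_
        have e3 : (1:ℝ) ≤ Real.sqrt K := Real.one_le_sqrt.2 hK1'
        calc ((a:ℝ) ^ κ₀) ^ 2 = a ^ (2 * κ₀) := by rw [← pow_mul]; congr 1; ring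
          _ ≤ (3 * a) ^ (2 * κ₀) := pow_le_pow_left₀ ha0.le (by linarith) _
          _ = Real.sqrt K := hsq.symm
          _ = Real.sqrt K ^ 1 := (pow_one _).symm
          _ ≤ Real.sqrt K ^ (d - 2) := pow_le_pow_right₀ e3 (by omega)
      refine div_le_div₀ (by positivity) (hN'.trans ?_) (by positivity) e2
      exact mul_le_mul_of_nonneg_left (pow_le_pow_right₀ ha1 (by norm_num)) hN₀0
    have e4 : (K:ℝ) ^ (2 * d + 3) * (1 + N₁) ^ 2 / b ≤
        3 ^ (4 * κ₀ * (2 * d + 3)) * (1 + N₀) ^ 2 * a ^ 4 / a ^ κ₀ := by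
      have e5 : (K:ℝ) ^ (2 * d + 3) = 3 ^ (4 * κ₀ * (2 * d + 3)) * a ^ (4 * κ₀ * (2 * d + 3)) := by
        rw [hKr, ← pow_mul, mul_pow]
      have e6 : (1 + N₁) ^ 2 ≤ (1 + N₀) ^ 2 * (a:ℝ) ^ 4 := by
        have e7 : 1 + N₁ ≤ (1 + N₀) * a ^ 2 := by nlinarith
        calc (1 + N₁) ^ 2 ≤ ((1 + N₀) * (a:ℝ) ^ 2) ^ 2 := pow_le_pow_left₀ (by linarith) e7 2
          _ = _ := by ring
      rw [div_le_div_iff₀ hb0 (by positivity)]
      calc (K:ℝ) ^ (2 * d + 3) * (1 + N₁) ^ 2 * (a:ℝ) ^ κ₀ ≤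
          (K:ℝ) ^ (2 * d + 3) * ((1 + N₀) ^ 2 * (a:ℝ) ^ 4) * (a:ℝ) ^ κ₀ := by
            gcongr
        _ = (3:ℝ) ^ (4 * κ₀ * (2 * d + 3)) * (1 + N₀) ^ 2 * a ^ 4 * (a:ℝ) ^ e := by
            rw [e5, he, pow_add]; ring
        _ ≤ (3:ℝ) ^ (4 * κ₀ * (2 * d + 3)) * (1 + N₀) ^ 2 * a ^ 4 * b :=
            mul_le_mul_of_nonneg_left hab (by positivity)
    have e7 : CL * (N₁ / Real.sqrt (Real.sqrt K ^ (d - 2)) + (K:ℝ) ^ (2 * d + 3) * (1 + N₁) ^ 2 / b) ≤
        CL * (N₀ + 3 ^ (4 * κ₀ * (2 * d + 3)) * (1 + N₀) ^ 2) * a ^ 4 / a ^ κ₀ := by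
      calc _ ≤ CL * (N₀ * a ^ 4 / a ^ κ₀ +
            3 ^ (4 * κ₀ * (2 * d + 3)) * (1 + N₀) ^ 2 * a ^ 4 / a ^ κ₀) :=
            mul_le_mul_of_nonneg_left (add_le_add e1 e4) hCL.le
        _ = _ := by ring
    exact ⟨h3.1.trans e7, h3.2.trans e7⟩
  have hCM1 : 1 ≤ max 1 (max (2 * CT) Cq) := le_max_left _ _
  have hCMT : 2 * CT ≤ max 1 (max (2 * CT) Cq) := (le_max_left _ _).trans (le_max_right _ _)
  have hCMq : Cq ≤ max 1 (max (2 * CT) Cq) := (le_max_right _ _).trans (le_max_right _ _)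
  refine ⟨fun u => (Xo_cont b _ _ _).measurable, ?_, ?_, by positivity, ?_, ?_, ?_, ?_, ?_, ?_⟩
  · have h3 : ∀ u : Fin k × Bool, ∃ B, ∀ U : Ed d (2 * m) → G,
        |Xo L b (oo d K) (fF (2 * m) (oo d K) (z u.1) (p u.1)) (c u.1) U| ≤ B :=
      fun u => bdd_cont (Xo_cont b _ _ _)
    choose B hB' using h3
    refine ⟨∑ u, |B u|, fun u U => (hB' u U).trans ((le_abs_self _).trans ?_)⟩
    exact Finset.single_le_sum (f := fun u => |B u|) (fun u _ => abs_nonneg _) (Finset.mem_univ u)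
  · exact one_le_mul_of_one_le_of_one_le hCM1 (one_le_pow₀ ha1)
  · intro u v
    rw [hcv']; exact cw_symm _ _ _ _ _
  · intro s
    rw [hcv']; exact cw_psd _ _ _ _
  · intro u v
    have h3 : ∀ z, |gK d K z| ≤ 2 * CT := by
      intro z
      have h2 := hgK K z hK1
      have h3 : CT / Real.sqrt K ≤ CT := div_le_self hCT.le (Real.one_le_sqrt.2 hK1')
      have h4 : |gK d K z| ≤ |gK d K z - green d z| + |green d z| := by
        have := abs_add_le (gK d K z - green d z) (green d z)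
        rwa [sub_add_cancel] at this
      linarith [hg z]
    refine (AK_le (by positivity) h3 hplr c u v).trans ?_
    rw [mul_comm]
    refine mul_le_mul hCMT (pow_le_pow_right₀ ha1 ?_) (by positivity) (by linarith)
    unfold cM; omega
  · intro u
    have h3 := hmom b hb a ha1 hba m hm2 (4 * a) (oo d K)
    rw [← EX_int]
    have h4 : ∀ U : Ed d (2 * m) → G,
        |Xo L b (oo d K) (fF (2 * m) (oo d K) (z u.1) (p u.1)) (c u.1) U| ^ (2 * k + 2) ≤
        (4 * d * a ^ 2) ^ (2 * k + 2) * (1 + b ^ 2 * sL L (oo d K) (4 * a) U) ^ (2 * k + 2) := by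
      intro U
      rw [← mul_pow]
      refine pow_le_pow_left₀ (abs_nonneg _) ?_ _
      have e1 := lin_le (L := L) U (c u.1) ho0 hol' (h1 u.1) (h2 u.1)
      have e2 : ((((p u.1).length * (d * (4 * a)) : ℕ)) : ℝ) ≤ 4 * d * a ^ 2 := by
        push_cast
        calc ((p u.1).length : ℝ) * (d * (4 * a)) ≤ a * (d * (4 * a)) :=
              mul_le_mul_of_nonneg_right (hplr _) (by positivity)
          _ = _ := by ring
      have e3 := sL_nonneg (L := L) (oo d K) (4 * a) U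
      unfold Xo
      rw [abs_mul, abs_of_pos (show 0 < b ^ 2 by positivity)]
      calc b ^ 2 * _ ≤ b ^ 2 * ((4 * d * a ^ 2) * sL L (oo d K) (4 * a) U) :=
            mul_le_mul_of_nonneg_left (e1.trans (mul_le_mul_of_nonneg_right e2 e3)) (by positivity)
        _ = (4 * d * a ^ 2) * (b ^ 2 * sL L (oo d K) (4 * a) U) := by ring
        _ ≤ _ := mul_le_mul_of_nonneg_left (by linarith) (by positivity)
    have hcs : Continuous fun U : Ed d (2 * m) → G =>
        (1 + b ^ 2 * sL L (oo d K) (4 * a) U) ^ (2 * k + 2) :=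
      (continuous_const.add (continuous_const.mul (sL_cont _ _))).pow _
    have hcx : Continuous fun U : Ed d (2 * m) → G =>
        |Xo L b (oo d K) (fF (2 * m) (oo d K) (z u.1) (p u.1)) (c u.1) U| ^ (2 * k + 2) :=
      (Xo_cont b _ _ _).abs.pow _
    have hcy : Continuous fun U : Ed d (2 * m) → G =>
        (4 * d * (a:ℝ) ^ 2) ^ (2 * k + 2) * (1 + b ^ 2 * sL L (oo d K) (4 * a) U) ^ (2 * k + 2) :=
      continuous_const.mul hcs
    refine (EX_mono μ (L := L) (β := b ^ 4) hcx hcy h4).trans ?_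
    rw [EX_smul]
    have h6 : (((4 * a : ℕ) : ℝ) + 1) ≤ 5 * a := by push_cast; linarith
    calc (4 * d * (a:ℝ) ^ 2) ^ (2 * k + 2) * EX μ L (b ^ 4) (fun U : Ed d (2 * m) → G =>
          (1 + b ^ 2 * sL L (oo d K) (4 * a) U) ^ (2 * k + 2)) ≤
        (4 * d * (a:ℝ) ^ 2) ^ (2 * k + 2) * (Cm * a * (5 * a) ^ (d * (2 * (2 * k + 2) + 2))) := by
          refine mul_le_mul_of_nonneg_left (h3.trans ?_) (by positivity)
          exact mul_le_mul_of_nonneg_left (pow_le_pow_left₀ (by positivity) h6 _) (by positivity)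
      _ = Cq * a ^ cM k d := by
          rw [hCq]
          have e1 : cM k d = 2 * (2 * k + 2) + 1 + d * (2 * (2 * k + 2) + 2) := by unfold cM; ring
          rw [e1]
          generalize 2 * k + 2 = q
          generalize d * (2 * q + 2) = t
          rw [mul_pow (4 * (d:ℝ)) ((a:ℝ) ^ 2) q, mul_pow (5:ℝ) (a:ℝ) t, ← pow_mul, pow_add, pow_add,
            pow_one]
          ring
      _ ≤ _ := mul_le_mul_of_nonneg_right hCMq (by positivity)
  · intro s hs
    have h3 := (hchar s hs).1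
    rw [EX_int, vK_tg] at h3
    simp only [Xo_sum]
    rw [hcv']
    have e1 : ∀ S : ℝ, -(S / 2) = -(1 / 2 * S) := fun S => by ring
    rw [e1] at h3
    exact h3
  · intro s hs
    have h3 := (hchar s hs).2
    rw [EX_int] at h3
    simp only [Xo_sum]
    exact h3

end

end Pool.Agent.TH369.WL
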