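import Mathlib
import Pool.Agent.TH369.WL.Near

/-!
# Comparison of the Wilson loops with quadratic functions of the legs
-/

open MeasureTheory Matrix
open Pool.Agent.H906R3.YM Pool.Agent.W793.YM
open Pool.Agent.W793.SCH (haf legs wick Near pk gK el S_B1 S_TR green)
open Pool.Agent.W793.SCHL (PT PT_prob EX_int)

namespace Pool.Agent.TH369.WL

set_option linter.unusedSectionVars false
set_option linter.unusedVariables false

noncomputable section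

lemma prod_diff {ι : Type*} (s : Finset ι) (x y : ι → ℝ) {D ε : ℝ} (hD : 0 ≤ D)
    (hx : ∀ i, |x i| ≤ D) (hy : ∀ i, |y i| ≤ D) (h : ∀ i, |x i - y i| ≤ D * ε) :
    |∏ i ∈ s, x i - ∏ i ∈ s, y i| ≤ s.card * D ^ s.card * ε := by
  classical
  have hprod : ∀ t : Finset ι, |∏ i ∈ t, y i| ≤ D ^ t.card := by
    intro t
    rw [Finset.abs_prod]
    refine (Finset.prod_le_prod (fun i _ => abs_nonneg _) fun i _ => hy i).trans ?_
    rw [Finset.prod_const]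
  induction s using Finset.induction_on with
  | empty => simp
  | insert a s ha ih =>
    rw [Finset.prod_insert ha, Finset.prod_insert ha, Finset.card_insert_of_notMem ha]
    have e1 : x a * ∏ i ∈ s, x i - y a * ∏ i ∈ s, y i =
        x a * (∏ i ∈ s, x i - ∏ i ∈ s, y i) + (x a - y a) * ∏ i ∈ s, y i := by ring
    rw [e1]
    refine (abs_add_le _ _).trans ?_
    rw [abs_mul, abs_mul]
    have e2 : |x a| * |∏ i ∈ s, x i - ∏ i ∈ s, y i| ≤ D * (s.card * D ^ s.card * ε) :=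
      mul_le_mul (hx a) ih (abs_nonneg _) hD
    have e3 : |x a - y a| * |∏ i ∈ s, y i| ≤ (D * ε) * D ^ s.card :=
      mul_le_mul (h a) (hprod s) (abs_nonneg _) ((abs_nonneg _).trans (h a))
    calc _ ≤ _ := add_le_add e2 e3
      _ = _ := by push_cast; ring

section cmp

variable {G : Type} [Group G] [TopologicalSpace G] [IsTopologicalGroup G] [CompactSpace G]
  [SecondCountableTopology G] [MeasurableSpace G] [BorelSpace G] (μ : Measure G)
  [IsProbabilityMeasure μ] [μ.IsMulLeftInvariant] [μ.IsMulRightInvariant] [μ.IsInvInvariant]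
  {N n : ℕ} {L : LD G N n} {d l : ℕ} [NeZero l]

lemma cmp_mean {β : ℝ} {A B Y : (Ed d l → G) → ℝ} {T M ε : ℝ}
    (hA : Continuous A) (hB : Continuous B) (hY : Continuous Y) (hT : 0 ≤ T) (hε : 0 ≤ ε)
    (h3 : ∀ U, |A U - B U| ≤ T * Y U * ε) (m1 : EX μ L β Y ≤ M) :
    |EX μ L β A - EX μ L β B| ≤ T * M * ε := by
  refine (EX_close μ hA hB).trans ?_
  have e1 : EX μ L β (fun U => |A U - B U|) ≤ EX μ L β (fun U => (T * ε) * Y U) :=
    EX_mono μ (hA.sub hB).abs (continuous_const.mul hY) fun U => (h3 U).trans (le_of_eq (by ring))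
  refine e1.trans ?_
  rw [EX_smul]
  calc T * ε * EX μ L β Y ≤ T * ε * M := mul_le_mul_of_nonneg_left m1 (by positivity)
    _ = _ := by ring

lemma cmp_abs {β : ℝ} {A Y : (Ed d l → G) → ℝ} {T M : ℝ}
    (hA : Continuous A) (hY : Continuous Y) (hT : 0 ≤ T)
    (h1 : ∀ U, |A U| ≤ T * Y U) (m1 : EX μ L β Y ≤ M) : |EX μ L β A| ≤ T * M := by
  refine (EX_abs μ hA).trans ?_
  have e1 : EX μ L β (fun U => |A U|) ≤ EX μ L β (fun U => T * Y U) :=
    EX_mono μ hA.abs (continuous_const.mul hY) h1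
  refine e1.trans ?_
  rw [EX_smul]
  exact mul_le_mul_of_nonneg_left m1 hT

/-- comparison of the expectations of two products -/
lemma cmp_gen {β : ℝ} {k : ℕ} {A B : Fin k → (Ed d l → G) → ℝ} {Y : (Ed d l → G) → ℝ} {T M ε : ℝ}
    {α α' : Fin k → ℝ}
    (hA : ∀ r, Continuous (A r)) (hB : ∀ r, Continuous (B r)) (hY : Continuous Y)
    (hT : 0 ≤ T) (hε : 0 ≤ ε) (hM : 1 ≤ M) (hY0 : ∀ U, 0 ≤ Y U)
    (h1 : ∀ r U, |A r U| ≤ T * Y U) (h2 : ∀ r U, |B r U| ≤ T * Y U)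
    (h3 : ∀ r U, |A r U - B r U| ≤ T * Y U * ε)
    (a1 : ∀ r, |α r| ≤ T * M) (a2 : ∀ r, |α' r| ≤ T * M) (a3 : ∀ r, |α r - α' r| ≤ T * M * ε)
    (mk : EX μ L β (fun U => Y U ^ k) ≤ M) :
    |EX μ L β (fun U => ∏ r, (A r U - α r)) -
      EX μ L β (fun U => ∏ r, (B r U - α' r))| ≤
        k * (2 * T) ^ k * (2 * M ^ (k + 1)) * ε := by
  have hM0 : 0 ≤ M := by linarith
  have cA : Continuous fun U : Ed d l → G => ∏ r, (A r U - α r) :=
    continuous_finsetProd _ fun r _ => (hA r).sub continuous_const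
  have cB : Continuous fun U : Ed d l → G => ∏ r, (B r U - α' r) :=
    continuous_finsetProd _ fun r _ => (hB r).sub continuous_const
  have hYk : Continuous fun U : Ed d l → G => Y U ^ k := hY.pow k
  refine (EX_close μ cA cB).trans ?_
  have hpt : ∀ U, |∏ r, (A r U - α r) - ∏ r, (B r U - α' r)| ≤
      (k * (2 * T) ^ k * ε) * (Y U ^ k + M ^ k) := by
    intro U
    have hYU := hY0 U
    have e1 := prod_diff (Finset.univ : Finset (Fin k)) (fun r => A r U - α r)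
      (fun r => B r U - α' r) (D := T * (Y U + M)) (ε := ε) (by positivity)
      (fun r => (abs_sub _ _).trans (by have := h1 r U; have := a1 r; linarith))
      (fun r => (abs_sub _ _).trans (by have := h2 r U; have := a2 r; linarith))
      (fun r => by
        have e : A r U - α r - (B r U - α' r) =
            (A r U - B r U) - (α r - α' r) := by ring
        rw [e]
        refine (abs_sub _ _).trans ?_
        have := h3 r U; have := a3 r; linarith)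
    rw [Finset.card_univ, Fintype.card_fin] at e1
    refine e1.trans ?_
    have e2 : (Y U + M) ^ k ≤ 2 ^ k * (Y U ^ k + M ^ k) := by
      refine (add_pow_le hYU hM0 k).trans ?_
      exact mul_le_mul_of_nonneg_right (pow_le_pow_right₀ (by norm_num) (by omega)) (by positivity)
    calc k * (T * (Y U + M)) ^ k * ε = k * T ^ k * ε * (Y U + M) ^ k := by rw [mul_pow]; ring
      _ ≤ k * T ^ k * ε * (2 ^ k * (Y U ^ k + M ^ k)) :=
          mul_le_mul_of_nonneg_left e2 (by positivity)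
      _ = _ := by rw [mul_pow]; ring
  have e3 : EX μ L β (fun U => |∏ r, (A r U - α r) - ∏ r, (B r U - α' r)|) ≤
      EX μ L β (fun U => (k * (2 * T) ^ k * ε) * (Y U ^ k + M ^ k)) :=
    EX_mono μ (cA.sub cB).abs (continuous_const.mul (hYk.add continuous_const)) hpt
  refine e3.trans ?_
  have e4 : EX μ L β (fun U => (k * (2 * T) ^ k * ε) * (Y U ^ k + M ^ k)) =
      (k * (2 * T) ^ k * ε) * (EX μ L β (fun U => Y U ^ k) + M ^ k) := by
    rw [EX_smul, EX_add μ hYk (H := fun _ => M ^ k) continuous_const, EX_const]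
  rw [e4]
  have e5 : EX μ L β (fun U => Y U ^ k) + M ^ k ≤ 2 * M ^ (k + 1) := by
    have e6 : M ≤ M ^ (k + 1) := by
      calc M = M ^ 1 := (pow_one _).symm
        _ ≤ _ := pow_le_pow_right₀ hM (by omega)
    have e7 : M ^ k ≤ M ^ (k + 1) := pow_le_pow_right₀ hM (by omega)
    linarith
  calc (k * (2 * T) ^ k * ε) * (EX μ L β (fun U => Y U ^ k) + M ^ k) ≤
      (k * (2 * T) ^ k * ε) * (2 * M ^ (k + 1)) := mul_le_mul_of_nonneg_left e5 (by positivity)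
    _ = _ := by ring

lemma cmp_EX {β : ℝ} {k : ℕ} {A B : Fin k → (Ed d l → G) → ℝ} {Y : (Ed d l → G) → ℝ} {T M ε : ℝ}
    (hA : ∀ r, Continuous (A r)) (hB : ∀ r, Continuous (B r)) (hY : Continuous Y)
    (hT : 0 ≤ T) (hε : 0 ≤ ε) (hM : 1 ≤ M) (hY0 : ∀ U, 0 ≤ Y U)
    (h1 : ∀ r U, |A r U| ≤ T * Y U) (h2 : ∀ r U, |B r U| ≤ T * Y U)
    (h3 : ∀ r U, |A r U - B r U| ≤ T * Y U * ε)
    (m1 : EX μ L β Y ≤ M) (mk : EX μ L β (fun U => Y U ^ k) ≤ M) :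
    |EX μ L β (fun U => ∏ r, (A r U - EX μ L β (A r))) -
      EX μ L β (fun U => ∏ r, (B r U - EX μ L β (B r)))| ≤
        k * (2 * T) ^ k * (2 * M ^ (k + 1)) * ε :=
  cmp_gen μ hA hB hY hT hε hM hY0 h1 h2 h3 (fun r => cmp_abs μ (hA r) hY hT (h1 r) m1)
    (fun r => cmp_abs μ (hB r) hY hT (h2 r) m1)
    (fun r => cmp_mean μ (hA r) (hB r) hY hT hε (h3 r) m1) mk

variable (L) in
/-- the Wilson loop -/
def Aw (b : ℝ) (z : Fin d → ℤ) (p : List (Fin d × Bool)) (U : Ed d l → G) : ℝ :=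
  b ^ 4 * we L (hol (lf U) z p)

variable (L) in
/-- the quadratic function -/
def Bw (b : ℝ) (o : Fin d → ℤ) (φ : Fm d l) (U : Ed d l → G) : ℝ :=
  1 / 2 * ∑ a, Xo L b o φ a U ^ 2

lemma Aw_cont (b : ℝ) (z : Fin d → ℤ) (p : List (Fin d × Bool)) :
    Continuous (Aw L b z p : (Ed d l → G) → ℝ) :=
  continuous_const.mul (we_cont.comp ((hol_cont z p).comp lf_cont))

lemma Bw_cont (b : ℝ) (o : Fin d → ℤ) (φ : Fm d l) :
    Continuous (Bw L b o φ : (Ed d l → G) → ℝ) :=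
  continuous_const.mul (continuous_finsetSum _ fun a _ => (Xo_cont b o φ a).pow 2)

/-- pointwise comparison -/
lemma cmp_pt {Cq : ℝ} (hCq : 0 ≤ Cq)
    (hq : ∀ g : G, |we L g - 1 / 2 * ∑ a, fi L a g ^ 2| ≤ Cq * dv L g ^ 4)
    (hd1 : 1 ≤ d) {a : ℕ} (ha : 1 ≤ a) {b : ℝ} (hb : 1 ≤ b) {o z : Fin d → ℤ}
    {p : List (Fin d × Bool)} (ho : ∀ i, 0 ≤ o i) (hl : ∀ i, o i + (4 * a : ℕ) < l)
    (h1 : ∀ i, z i + p.length ≤ o i + (4 * a : ℕ)) (h2 : ∀ i, o i + p.length ≤ z i)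
    (hc : dest z p = z) (hp : p.length ≤ a) (U : Ed d l → G) :
    |Aw L b z p U| ≤ (2 * n + Cq) * (4 * d * a ^ 2) ^ 4 * (1 + b ^ 2 * sL L o (4 * a) U) ^ 4 ∧
    |Bw L b o (fF l o z p) U| ≤
      (2 * n + Cq) * (4 * d * a ^ 2) ^ 4 * (1 + b ^ 2 * sL L o (4 * a) U) ^ 4 ∧
    |Aw L b z p U - Bw L b o (fF l o z p) U| ≤
      (2 * n + Cq) * (4 * d * a ^ 2) ^ 4 * (1 + b ^ 2 * sL L o (4 * a) U) ^ 4 * (1 / b ^ 2) := by
  have ha1 : (1:ℝ) ≤ a := by exact_mod_cast ha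
  have hd1' : (1:ℝ) ≤ d := by exact_mod_cast hd1
  have hb0 : 0 < b := by linarith
  have hb2 : 1 ≤ b ^ 2 := one_le_pow₀ hb
  have hb20 : 0 < b ^ 2 := by linarith
  have hn0 : (0:ℝ) ≤ n := Nat.cast_nonneg _
  obtain ⟨s, hs⟩ : ∃ s, s = sL L o (4 * a) U := ⟨_, rfl⟩
  have hs0 : 0 ≤ s := by rw [hs]; exact sL_nonneg _ _ _
  obtain ⟨T₀, hT₀⟩ : ∃ T₀ : ℝ, T₀ = 4 * d * a ^ 2 := ⟨_, rfl⟩
  have ha2 : (1:ℝ) ≤ a ^ 2 := one_le_pow₀ ha1
  have hT₀1 : 1 ≤ T₀ := by rw [hT₀]; nlinarith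
  have hlen : ((p.length * (d * (4 * a)) : ℕ) : ℝ) ≤ T₀ := by
    have h3 : (p.length * (d * (4 * a)) : ℕ) ≤ a * (d * (4 * a)) := Nat.mul_le_mul_right _ hp
    have h4 : ((p.length * (d * (4 * a)) : ℕ) : ℝ) ≤ a * (d * (4 * a)) := by exact_mod_cast h3
    refine h4.trans (le_of_eq ?_)
    rw [hT₀]; ring
  obtain ⟨W, hW⟩ : ∃ W, W = T₀ * (1 + b ^ 2 * s) := ⟨_, rfl⟩
  have hW1 : 1 ≤ W := by
    rw [hW]
    exact one_le_mul_of_one_le_of_one_le hT₀1 (by nlinarith)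
  have hW0 : 0 ≤ W := by linarith
  have hbs : b ^ 2 * (T₀ * s) ≤ W := by rw [hW]; nlinarith
  have hD : dv L (gl o z p (lf U)) ≤ T₀ * s := by
    have := dv_gl (L := L) U h1 h2 hc
    rw [← hs] at this
    exact this.trans (mul_le_mul_of_nonneg_right hlen hs0)
  have hD0 : 0 ≤ dv L (gl o z p (lf U)) := dv_nonneg _
  have hx : ∀ α, |b ^ 2 * fi L α (gl o z p (lf U))| ≤ W := by
    intro α
    rw [abs_mul, abs_of_pos hb20]
    exact (mul_le_mul_of_nonneg_left ((fi_le α _).trans hD) hb20.le).trans hbs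
  have hy : ∀ α, |Xo L b o (fF l o z p) α U| ≤ W := by
    intro α
    unfold Xo
    rw [abs_mul, abs_of_pos hb20]
    have := lin_le (L := L) U α ho hl h1 h2
    rw [← hs] at this
    exact (mul_le_mul_of_nonneg_left (this.trans (mul_le_mul_of_nonneg_right hlen hs0))
      hb20.le).trans hbs
  have hxy : ∀ α, |b ^ 2 * fi L α (gl o z p (lf U)) - Xo L b o (fF l o z p) α U| ≤ W ^ 2 / b ^ 2 := by
    intro α
    unfold Xo
    rw [← mul_sub, abs_mul, abs_of_pos hb20]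
    have h3 := lin_gl (L := L) U α ho hl h1 h2 hc
    rw [← hs] at h3
    have h4 : |fi L α (gl o z p (lf U)) - ipF (fF l o z p) (Fo L o U α)| ≤ (T₀ * s) ^ 2 :=
      h3.trans (pow_le_pow_left₀ (by positivity) (mul_le_mul_of_nonneg_right hlen hs0) 2)
    rw [le_div_iff₀ hb20]
    calc b ^ 2 * |fi L α (gl o z p (lf U)) - ipF (fF l o z p) (Fo L o U α)| * b ^ 2 ≤
        b ^ 2 * (T₀ * s) ^ 2 * b ^ 2 := by gcongr
      _ = (b ^ 2 * (T₀ * s)) ^ 2 := by ring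
      _ ≤ W ^ 2 := pow_le_pow_left₀ (by positivity) hbs 2
  have hW4 : ∀ j, j ≤ 4 → W ^ j ≤ W ^ 4 := fun j hj => pow_le_pow_right₀ hW1 hj
  have hwe : we L (hol (lf U) z p) = we L (gl o z p (lf U)) := (we_conj _ _).symm
  -- the quadratic terms
  have q1 : |b ^ 4 * we L (gl o z p (lf U)) -
      1 / 2 * ∑ α, (b ^ 2 * fi L α (gl o z p (lf U))) ^ 2| ≤ Cq * W ^ 4 / b ^ 2 := by
    have e1 : b ^ 4 * we L (gl o z p (lf U)) -
        1 / 2 * ∑ α, (b ^ 2 * fi L α (gl o z p (lf U))) ^ 2 =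
        b ^ 4 * (we L (gl o z p (lf U)) - 1 / 2 * ∑ α, fi L α (gl o z p (lf U)) ^ 2) := by
      simp only [mul_pow, ← Finset.mul_sum]
      ring
    rw [e1, abs_mul, abs_of_pos (by positivity : 0 < b ^ 4)]
    have e2 := hq (gl o z p (lf U))
    have e3 : dv L (gl o z p (lf U)) ^ 4 ≤ (T₀ * s) ^ 4 := pow_le_pow_left₀ hD0 hD 4
    have e4 : (b ^ 2 * (T₀ * s)) ^ 4 ≤ W ^ 4 := pow_le_pow_left₀ (by positivity) hbs 4
    rw [le_div_iff₀ hb20]
    calc b ^ 4 * |we L (gl o z p (lf U)) - 1 / 2 * ∑ α, fi L α (gl o z p (lf U)) ^ 2| * b ^ 2 ≤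
        b ^ 4 * (Cq * (T₀ * s) ^ 4) * b ^ 2 := by
          gcongr
          exact e2.trans (mul_le_mul_of_nonneg_left e3 hCq)
      _ ≤ b ^ 4 * (Cq * (T₀ * s) ^ 4) * b ^ 2 * b ^ 2 :=
          le_mul_of_one_le_right (by positivity) hb2
      _ = Cq * (b ^ 2 * (T₀ * s)) ^ 4 := by ring
      _ ≤ Cq * W ^ 4 := mul_le_mul_of_nonneg_left e4 hCq
  have q2 : |1 / 2 * ∑ α, (b ^ 2 * fi L α (gl o z p (lf U))) ^ 2 -
      1 / 2 * ∑ α, Xo L b o (fF l o z p) α U ^ 2| ≤ n * W ^ 4 / b ^ 2 := by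
    rw [← mul_sub, ← Finset.sum_sub_distrib, abs_mul, abs_of_pos (by norm_num : (0:ℝ) < 1 / 2)]
    have e1 : ∀ α, |(b ^ 2 * fi L α (gl o z p (lf U))) ^ 2 - Xo L b o (fF l o z p) α U ^ 2| ≤
        2 * W ^ 4 / b ^ 2 := by
      intro α
      have e2 : (b ^ 2 * fi L α (gl o z p (lf U))) ^ 2 - Xo L b o (fF l o z p) α U ^ 2 =
          (b ^ 2 * fi L α (gl o z p (lf U)) - Xo L b o (fF l o z p) α U) *
            (b ^ 2 * fi L α (gl o z p (lf U)) + Xo L b o (fF l o z p) α U) := by ring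
      rw [e2, abs_mul]
      have e3 : |b ^ 2 * fi L α (gl o z p (lf U)) + Xo L b o (fF l o z p) α U| ≤ 2 * W :=
        (abs_add_le _ _).trans (by have := hx α; have := hy α; linarith)
      calc _ ≤ W ^ 2 / b ^ 2 * (2 * W) := mul_le_mul (hxy α) e3 (abs_nonneg _) (by positivity)
        _ = 2 * W ^ 3 / b ^ 2 := by ring
        _ ≤ _ := by
            refine div_le_div_of_nonneg_right ?_ hb20.le
            have := hW4 3 (by norm_num)
            linarith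
    have e4 : |∑ α, ((b ^ 2 * fi L α (gl o z p (lf U))) ^ 2 - Xo L b o (fF l o z p) α U ^ 2)| ≤
        ∑ _α : Fin n, 2 * W ^ 4 / b ^ 2 :=
      (Finset.abs_sum_le_sum_abs _ _).trans (Finset.sum_le_sum fun α _ => e1 α)
    rw [Finset.sum_const, Finset.card_univ, Fintype.card_fin, nsmul_eq_mul] at e4
    calc _ ≤ 1 / 2 * (n * (2 * W ^ 4 / b ^ 2)) := mul_le_mul_of_nonneg_left e4 (by norm_num)
      _ = _ := by ring
  have hBb : |Bw L b o (fF l o z p) U| ≤ n * W ^ 4 := by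
    unfold Bw
    rw [abs_mul, abs_of_pos (by norm_num : (0:ℝ) < 1 / 2)]
    have e1 : |∑ α, Xo L b o (fF l o z p) α U ^ 2| ≤ ∑ _α : Fin n, W ^ 4 := by
      refine (Finset.abs_sum_le_sum_abs _ _).trans (Finset.sum_le_sum fun α _ => ?_)
      rw [abs_pow]
      exact (pow_le_pow_left₀ (abs_nonneg _) (hy α) 2).trans (hW4 2 (by norm_num))
    rw [Finset.sum_const, Finset.card_univ, Fintype.card_fin, nsmul_eq_mul] at e1
    have : (0:ℝ) ≤ n * W ^ 4 := by positivity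
    linarith
  have hAB : |Aw L b z p U - Bw L b o (fF l o z p) U| ≤ (n + Cq) * W ^ 4 / b ^ 2 := by
    unfold Aw Bw
    rw [hwe]
    have := abs_sub_le (b ^ 4 * we L (gl o z p (lf U)))
      (1 / 2 * ∑ α, (b ^ 2 * fi L α (gl o z p (lf U))) ^ 2)
      (1 / 2 * ∑ α, Xo L b o (fF l o z p) α U ^ 2)
    refine this.trans ((add_le_add q1 q2).trans (le_of_eq ?_))
    ring
  have hWW : (2 * n + Cq) * (4 * d * (a:ℝ) ^ 2) ^ 4 * (1 + b ^ 2 * sL L o (4 * a) U) ^ 4 =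
      (2 * n + Cq) * W ^ 4 := by
    rw [hW, hT₀, hs, mul_pow (4 * d * (a:ℝ) ^ 2)]
    ring
  rw [hWW]
  have hW40 : 0 ≤ W ^ 4 := by positivity
  have h5 : (n + Cq) * W ^ 4 / b ^ 2 ≤ (n + Cq) * W ^ 4 := div_le_self (by positivity) hb2
  refine ⟨?_, ?_, ?_⟩
  · have : |Aw L b z p U| ≤ |Aw L b z p U - Bw L b o (fF l o z p) U| +
        |Bw L b o (fF l o z p) U| := by
      have := abs_add_le (Aw L b z p U - Bw L b o (fF l o z p) U) (Bw L b o (fF l o z p) U)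
      rwa [sub_add_cancel] at this
    calc _ ≤ _ := this
      _ ≤ (n + Cq) * W ^ 4 + n * W ^ 4 := add_le_add (hAB.trans h5) hBb
      _ = _ := by ring
  · refine hBb.trans (mul_le_mul_of_nonneg_right ?_ hW40)
    linarith
  · refine hAB.trans ?_
    rw [mul_one_div]
    refine div_le_div_of_nonneg_right (mul_le_mul_of_nonneg_right ?_ hW40) hb20.le
    linarith

/-- the exponent of the error of the comparison -/
def eW (k d : ℕ) : ℕ := 8 * (k + 1) + (k + 1) * (1 + d * (8 * k + 10))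

/-- comparison of the expectations -/
theorem cmp {Cq : ℝ} (hCq : 0 ≤ Cq)
    (hq : ∀ g : G, |we L g - 1 / 2 * ∑ a, fi L a g ^ 2| ≤ Cq * dv L g ^ 4)
    (hd1 : 1 ≤ d) (k e : ℕ) : ∃ C : ℝ, 0 ≤ C ∧ ∀ a : ℕ, 1 ≤ a → ∀ b : ℝ, 1 ≤ b →
      b ≤ (2 * a) ^ e → ∀ (m : ℕ) [NeZero m], 2 ≤ m → ∀ (o : Fin d → ℤ), (∀ i, 0 ≤ o i) →
      (∀ i, o i + (4 * a : ℕ) < ((2 * m : ℕ) : ℤ)) →
      ∀ (z : Fin k → Fin d → ℤ) (p : Fin k → List (Fin d × Bool)),
      (∀ r i, z r i + (p r).length ≤ o i + (4 * a : ℕ)) → (∀ r i, o i + (p r).length ≤ z r i) →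
      (∀ r, dest (z r) (p r) = z r) → (∀ r, (p r).length ≤ a) →
      |EX μ L (b ^ 4) (fun U : Ed d (2 * m) → G => ∏ r, (Aw L b (z r) (p r) U -
          EX μ L (b ^ 4) (Aw L b (z r) (p r) : (Ed d (2 * m) → G) → ℝ))) -
        EX μ L (b ^ 4) (fun U : Ed d (2 * m) → G =>
          ∏ r, (Bw L b o (fF (2 * m) o (z r) (p r)) U -
            EX μ L (b ^ 4) (Bw L b o (fF (2 * m) o (z r) (p r)))))| ≤ C * a ^ eW k d / b ^ 2 ∧
      ∀ r, |EX μ L (b ^ 4) (Aw L b (z r) (p r) : (Ed d (2 * m) → G) → ℝ) -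
        EX μ L (b ^ 4) (Bw L b o (fF (2 * m) o (z r) (p r)))| ≤ C * a ^ eW k d / b ^ 2 := by
  obtain ⟨CZ, hCZ, hZ⟩ := Z_mom μ (L := L) d (4 * k + 4) e
  obtain ⟨C0, hC0⟩ : ∃ C0 : ℝ, C0 = (2 * n + Cq) * (4 * d) ^ 4 := ⟨_, rfl⟩
  obtain ⟨C1, hC1⟩ : ∃ C1 : ℝ, C1 = CZ * 5 ^ (d * (8 * k + 10)) := ⟨_, rfl⟩
  have hC00 : 0 ≤ C0 := by rw [hC0]; positivity
  have hC11 : 1 ≤ C1 := by
    rw [hC1]; exact one_le_mul_of_one_le_of_one_le hCZ (one_le_pow₀ (by norm_num))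
  have hC10 : 0 ≤ C1 := by linarith
  refine ⟨k * (2 * C0) ^ k * (2 * C1 ^ (k + 1)) + C0 * C1, by positivity,
    fun a ha b hb hba m _ hm o ho hol z p h1 h2 hcl hp => ?_⟩
  have ha1 : (1:ℝ) ≤ a := by exact_mod_cast ha
  have ha0 : (0:ℝ) < a := by linarith
  have hb20 : 0 < b ^ 2 := by positivity
  obtain ⟨T, hT⟩ : ∃ T : ℝ, T = (2 * n + Cq) * (4 * d * a ^ 2) ^ 4 := ⟨_, rfl⟩
  have hTC : T = C0 * a ^ 8 := by rw [hT, hC0]; ring
  obtain ⟨M, hM⟩ : ∃ M : ℝ, M = C1 * a ^ (1 + d * (8 * k + 10)) := ⟨_, rfl⟩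
  have hM1 : 1 ≤ M := by rw [hM]; exact one_le_mul_of_one_le_of_one_le hC11 (one_le_pow₀ ha1)
  have hT0 : 0 ≤ T := by rw [hTC]; positivity
  have hsc : Continuous fun U : Ed d (2 * m) → G => 1 + b ^ 2 * sL L o (4 * a) U :=
    continuous_const.add (continuous_const.mul (sL_cont _ _))
  have hs1 : ∀ U : Ed d (2 * m) → G, 1 ≤ 1 + b ^ 2 * sL L o (4 * a) U := fun U => by
    have := sL_nonneg (L := L) o (4 * a) U
    nlinarith
  have hbig : ∀ j, j ≤ 4 * k + 4 → EX μ L (b ^ 4) (fun U : Ed d (2 * m) → G =>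
      (1 + b ^ 2 * sL L o (4 * a) U) ^ j) ≤ M := by
    intro j hj
    have cj : Continuous fun U : Ed d (2 * m) → G => (1 + b ^ 2 * sL L o (4 * a) U) ^ j := hsc.pow j
    have cq : Continuous fun U : Ed d (2 * m) → G =>
        (1 + b ^ 2 * sL L o (4 * a) U) ^ (4 * k + 4) := hsc.pow _
    refine (EX_mono μ cj cq fun U => pow_le_pow_right₀ (hs1 U) hj).trans ?_
    refine (hZ b hb a ha1 hba m hm (4 * a) o).trans ?_
    have h6 : (((4 * a : ℕ) : ℝ) + 1) ≤ 5 * a := by push_cast; linarith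
    have h7 : 2 * (4 * k + 4) + 2 = 8 * k + 10 := by ring
    rw [h7]
    calc CZ * a * (((4 * a : ℕ) : ℝ) + 1) ^ (d * (8 * k + 10)) ≤
        CZ * a * (5 * a) ^ (d * (8 * k + 10)) :=
          mul_le_mul_of_nonneg_left (pow_le_pow_left₀ (by positivity) h6 _) (by positivity)
      _ = M := by rw [hM, hC1, mul_pow, pow_add, pow_one]; ring
  have hYc : Continuous fun U : Ed d (2 * m) → G => (1 + b ^ 2 * sL L o (4 * a) U) ^ 4 := hsc.pow 4
  have hpt := fun (r : Fin k) (U : Ed d (2 * m) → G) =>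
    cmp_pt (L := L) hCq hq hd1 ha hb ho hol (h1 r) (h2 r) (hcl r) (hp r) U
  have m1 := hbig 4 (by omega)
  have mk : EX μ L (b ^ 4) (fun U : Ed d (2 * m) → G =>
      ((1 + b ^ 2 * sL L o (4 * a) U) ^ 4) ^ k) ≤ M := by
    simp only [← pow_mul]
    exact hbig (4 * k) (by omega)
  have hbb : 0 ≤ 1 / b ^ 2 := by positivity
  have r1 := cmp_EX μ (L := L) (β := b ^ 4) (A := fun r => Aw L b (z r) (p r))
    (B := fun r => Bw L b o (fF (2 * m) o (z r) (p r)))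
    (Y := fun U => (1 + b ^ 2 * sL L o (4 * a) U) ^ 4) (T := T) (M := M) (ε := 1 / b ^ 2)
    (fun r => Aw_cont b _ _) (fun r => Bw_cont b _ _) hYc hT0 hbb hM1
    (fun U => by have := hs1 U; positivity)
    (fun r U => by rw [hT]; exact (hpt r U).1) (fun r U => by rw [hT]; exact (hpt r U).2.1)
    (fun r U => by rw [hT]; exact (hpt r U).2.2) m1 mk
  have r2 := fun r => cmp_mean μ (L := L) (β := b ^ 4) (A := Aw L b (z r) (p r))
    (B := Bw L b o (fF (2 * m) o (z r) (p r)))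
    (Y := fun U => (1 + b ^ 2 * sL L o (4 * a) U) ^ 4) (T := T) (M := M) (ε := 1 / b ^ 2)
    (Aw_cont b _ _) (Bw_cont b _ _) hYc hT0 hbb (fun U => by rw [hT]; exact (hpt r U).2.2) m1
  have p1 : (0:ℝ) ≤ C0 * C1 := by positivity
  have p2 : (0:ℝ) ≤ k * (2 * C0) ^ k * (2 * C1 ^ (k + 1)) := by positivity
  constructor
  · refine r1.trans ?_
    have e1 : k * (2 * T) ^ k * (2 * M ^ (k + 1)) * (1 / b ^ 2) =
        (k * (2 * C0) ^ k * (2 * C1 ^ (k + 1))) *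
          a ^ (8 * k + (k + 1) * (1 + d * (8 * k + 10))) / b ^ 2 := by
      rw [hTC, hM, show 2 * (C0 * (a:ℝ) ^ 8) = 2 * C0 * a ^ 8 by ring, mul_pow (2 * C0) ((a:ℝ) ^ 8),
        mul_pow C1, ← pow_mul, ← pow_mul, pow_add (a:ℝ) (8 * k), mul_comm (k + 1)]
      ring
    rw [e1]
    refine div_le_div_of_nonneg_right ?_ hb20.le
    refine mul_le_mul (by linarith) (pow_le_pow_right₀ ha1 ?_) (by positivity) (by linarith)
    unfold eW; omega
  · intro r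
    refine (r2 r).trans ?_
    have e1 : T * M * (1 / b ^ 2) = C0 * C1 * a ^ (8 + (1 + d * (8 * k + 10))) / b ^ 2 := by
      rw [hTC, hM, pow_add (a:ℝ) 8]
      ring
    rw [e1]
    refine div_le_div_of_nonneg_right ?_ hb20.le
    refine mul_le_mul (by linarith) (pow_le_pow_right₀ ha1 ?_) (by positivity) (by linarith)
    unfold eW
    have : 1 + d * (8 * k + 10) ≤ (k + 1) * (1 + d * (8 * k + 10)) :=
      Nat.le_mul_of_pos_left _ (by omega)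
    omega

/-- change of the constants -/
theorem cmp2 {Cq : ℝ} (hCq : 0 ≤ Cq)
    (hq : ∀ g : G, |we L g - 1 / 2 * ∑ a, fi L a g ^ 2| ≤ Cq * dv L g ^ 4)
    (hd1 : 1 ≤ d) (k e : ℕ) {C₄ : ℝ} (hC₄ : 0 ≤ C₄) : ∃ C : ℝ, 0 ≤ C ∧ ∀ a : ℕ, 1 ≤ a →
      ∀ b : ℝ, 1 ≤ b →
      b ≤ (2 * a) ^ e → ∀ (m : ℕ) [NeZero m], 2 ≤ m → ∀ (o : Fin d → ℤ), (∀ i, 0 ≤ o i) →
      (∀ i, o i + (4 * a : ℕ) < ((2 * m : ℕ) : ℤ)) →
      ∀ (z : Fin k → Fin d → ℤ) (p : Fin k → List (Fin d × Bool)),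
      (∀ r i, z r i + (p r).length ≤ o i + (4 * a : ℕ)) → (∀ r i, o i + (p r).length ≤ z r i) →
      (∀ r, dest (z r) (p r) = z r) → (∀ r, (p r).length ≤ a) → ∀ (c : Fin k → ℝ) (ε : ℝ), 0 ≤ ε →
      (∀ r, |c r| ≤ C₄ * a ^ 8) →
      (∀ r, |c r - EX μ L (b ^ 4) (Aw L b (z r) (p r) : (Ed d (2 * m) → G) → ℝ)| ≤ ε) →
      |EX μ L (b ^ 4) (fun U : Ed d (2 * m) → G => ∏ r, (Aw L b (z r) (p r) U - c r)) -
        EX μ L (b ^ 4) (fun U : Ed d (2 * m) → G => ∏ r, (Aw L b (z r) (p r) U -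
          EX μ L (b ^ 4) (Aw L b (z r) (p r) : (Ed d (2 * m) → G) → ℝ)))| ≤
        C * a ^ eW k d * ε := by
  obtain ⟨CZ, hCZ, hZ⟩ := Z_mom μ (L := L) d (4 * k + 4) e
  obtain ⟨C0, hC0⟩ : ∃ C0 : ℝ, C0 = (2 * n + Cq) * (4 * d) ^ 4 + C₄ + 1 := ⟨_, rfl⟩
  obtain ⟨C1, hC1⟩ : ∃ C1 : ℝ, C1 = CZ * 5 ^ (d * (8 * k + 10)) := ⟨_, rfl⟩
  have hCn : 0 ≤ (2 * n + Cq) * (4 * (d:ℝ)) ^ 4 := by positivity
  have hC00 : 1 ≤ C0 := by rw [hC0]; linarith
  have hC01 : (2 * n + Cq) * (4 * (d:ℝ)) ^ 4 ≤ C0 := by rw [hC0]; linarith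
  have hC04 : C₄ ≤ C0 := by rw [hC0]; linarith
  have hC11 : 1 ≤ C1 := by
    rw [hC1]; exact one_le_mul_of_one_le_of_one_le hCZ (one_le_pow₀ (by norm_num))
  have hC10 : 0 ≤ C1 := by linarith
  refine ⟨k * (2 * C0) ^ k * (2 * C1 ^ (k + 1)), by positivity,
    fun a ha b hb hba m _ hm o ho hol z p h1 h2 hcl hp c ε hε hc4 hcε => ?_⟩
  have ha1 : (1:ℝ) ≤ a := by exact_mod_cast ha
  have ha0 : (0:ℝ) < a := by linarith
  have ha8 : (1:ℝ) ≤ a ^ 8 := one_le_pow₀ ha1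
  obtain ⟨T, hT⟩ : ∃ T : ℝ, T = C0 * a ^ 8 := ⟨_, rfl⟩
  obtain ⟨M, hM⟩ : ∃ M : ℝ, M = C1 * a ^ (1 + d * (8 * k + 10)) := ⟨_, rfl⟩
  have hM1 : 1 ≤ M := by rw [hM]; exact one_le_mul_of_one_le_of_one_le hC11 (one_le_pow₀ ha1)
  have hT1 : 1 ≤ T := by rw [hT]; exact one_le_mul_of_one_le_of_one_le hC00 ha8
  have hT0 : 0 ≤ T := by linarith
  have hT' : (2 * n + Cq) * (4 * d * (a:ℝ) ^ 2) ^ 4 ≤ T := by
    rw [hT]
    calc (2 * n + Cq) * (4 * d * (a:ℝ) ^ 2) ^ 4 = (2 * n + Cq) * (4 * (d:ℝ)) ^ 4 * a ^ 8 := by ring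
      _ ≤ _ := mul_le_mul_of_nonneg_right hC01 (by positivity)
  have hsc : Continuous fun U : Ed d (2 * m) → G => 1 + b ^ 2 * sL L o (4 * a) U :=
    continuous_const.add (continuous_const.mul (sL_cont _ _))
  have hs1 : ∀ U : Ed d (2 * m) → G, 1 ≤ 1 + b ^ 2 * sL L o (4 * a) U := fun U => by
    have := sL_nonneg (L := L) o (4 * a) U
    nlinarith
  have hbig : ∀ j, j ≤ 4 * k + 4 → EX μ L (b ^ 4) (fun U : Ed d (2 * m) → G =>
      (1 + b ^ 2 * sL L o (4 * a) U) ^ j) ≤ M := by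
    intro j hj
    have cj : Continuous fun U : Ed d (2 * m) → G => (1 + b ^ 2 * sL L o (4 * a) U) ^ j := hsc.pow j
    have cq : Continuous fun U : Ed d (2 * m) → G =>
        (1 + b ^ 2 * sL L o (4 * a) U) ^ (4 * k + 4) := hsc.pow _
    refine (EX_mono μ cj cq fun U => pow_le_pow_right₀ (hs1 U) hj).trans ?_
    refine (hZ b hb a ha1 hba m hm (4 * a) o).trans ?_
    have h6 : (((4 * a : ℕ) : ℝ) + 1) ≤ 5 * a := by push_cast; linarith
    have h7 : 2 * (4 * k + 4) + 2 = 8 * k + 10 := by ring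
    rw [h7]
    calc CZ * a * (((4 * a : ℕ) : ℝ) + 1) ^ (d * (8 * k + 10)) ≤
        CZ * a * (5 * a) ^ (d * (8 * k + 10)) :=
          mul_le_mul_of_nonneg_left (pow_le_pow_left₀ (by positivity) h6 _) (by positivity)
      _ = M := by rw [hM, hC1, mul_pow, pow_add, pow_one]; ring
  have hYc : Continuous fun U : Ed d (2 * m) → G => (1 + b ^ 2 * sL L o (4 * a) U) ^ 4 := hsc.pow 4
  have hA : ∀ (r : Fin k) (U : Ed d (2 * m) → G), |Aw L b (z r) (p r) U| ≤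
      T * (1 + b ^ 2 * sL L o (4 * a) U) ^ 4 := fun r U =>
    (cmp_pt (L := L) hCq hq hd1 ha hb ho hol (h1 r) (h2 r) (hcl r) (hp r) U).1.trans
      (mul_le_mul_of_nonneg_right hT' (by have := hs1 U; positivity))
  have m1 := hbig 4 (by omega)
  have mk : EX μ L (b ^ 4) (fun U : Ed d (2 * m) → G =>
      ((1 + b ^ 2 * sL L o (4 * a) U) ^ 4) ^ k) ≤ M := by
    simp only [← pow_mul]
    exact hbig (4 * k) (by omega)
  have hTM : 1 ≤ T * M := one_le_mul_of_one_le_of_one_le hT1 hM1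
  have r1 := cmp_gen μ (L := L) (β := b ^ 4) (A := fun r => Aw L b (z r) (p r))
    (B := fun r => Aw L b (z r) (p r)) (α := c)
    (α' := fun r => EX μ L (b ^ 4) (Aw L b (z r) (p r) : (Ed d (2 * m) → G) → ℝ))
    (Y := fun U => (1 + b ^ 2 * sL L o (4 * a) U) ^ 4) (T := T) (M := M) (ε := ε)
    (fun r => Aw_cont b _ _) (fun r => Aw_cont b _ _) hYc hT0 hε hM1
    (fun U => by have := hs1 U; positivity) hA hA
    (fun r U => by rw [sub_self, abs_zero]; have := hs1 U; positivity)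
    (fun r => by
      refine (hc4 r).trans ?_
      have : C₄ * (a:ℝ) ^ 8 ≤ T := by rw [hT]; exact mul_le_mul_of_nonneg_right hC04 (by positivity)
      exact this.trans (le_mul_of_one_le_right hT0 hM1))
    (fun r => cmp_abs μ (Aw_cont b _ _) hYc hT0 (hA r) m1)
    (fun r => (hcε r).trans (le_mul_of_one_le_left hε hTM)) mk
  refine r1.trans ?_
  have e1 : k * (2 * T) ^ k * (2 * M ^ (k + 1)) * ε =
      (k * (2 * C0) ^ k * (2 * C1 ^ (k + 1))) *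
        a ^ (8 * k + (k + 1) * (1 + d * (8 * k + 10))) * ε := by
    rw [hT, hM, show 2 * (C0 * (a:ℝ) ^ 8) = 2 * C0 * a ^ 8 by ring, mul_pow (2 * C0) ((a:ℝ) ^ 8),
      mul_pow C1, ← pow_mul, ← pow_mul, pow_add (a:ℝ) (8 * k), mul_comm (k + 1)]
    ring
  rw [e1]
  refine mul_le_mul_of_nonneg_right ?_ hε
  refine mul_le_mul_of_nonneg_left (pow_le_pow_right₀ ha1 ?_) (by positivity)
  unfold eW; omega

end cmp

end

end Pool.Agent.TH369.WL
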