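import Mathlib
import Pool.Agent.TH369.WL.Cmp
import Pool.Agent.W793.SCH.Stm3
import Pool.Agent.W793.SCH.Stm4
import Pool.Agent.W793.SCH.Lift5

/-!
# Wilson loops at weak coupling on the torus
-/

open MeasureTheory Matrix
open Pool.Agent.H906R3.YM Pool.Agent.W793.YM
open Pool.Agent.W793.SCH (haf legs wick Near pk gK el S_B1 S_TR S_WC S_W1 S_HAF green)
open Pool.Agent.W793.SCHL (PT PT_prob EX_int scale)

namespace Pool.Agent.TH369.WL

set_option linter.unusedSectionVars false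
set_option linter.unusedVariables false

noncomputable section

section trans

variable {d l : ℕ} [NeZero l]

lemma lks_trans (w z : Fin d → ℤ) (p : List (Fin d × Bool)) :
    lks (z + w) p = (lks z p).map fun e => ((e.1.1 + w, e.1.2), e.2) := by
  induction p generalizing z with
  | nil => rfl
  | cons s p ih =>
    obtain ⟨i, s⟩ := s
    cases s with
    | true =>
      simp only [lks, List.map_cons]
      rw [← ih, add_right_comm]
    | false =>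
      simp only [lks, List.map_cons]
      rw [← ih, sub_add_eq_add_sub]

lemma QK_trans (g : (Fin d → ℤ) → ℝ) (w z z' : Fin d → ℤ) (p p' : List (Fin d × Bool)) :
    QK g (lks (z + w) p) (lks (z' + w) p') = QK g (lks z p) (lks z' p') := by
  unfold QK
  rw [lks_trans, lks_trans, List.map_map]
  congr 1
  refine List.map_congr_left fun e _ => ?_
  simp only [Function.comp, List.map_map]
  congr 1
  refine List.map_congr_left fun e' _ => ?_
  simp only [Function.comp, add_sub_add_right_eq_sub]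

lemma AK_trans {k n : ℕ} (g : (Fin d → ℤ) → ℝ) (w : Fin d → ℤ) (z : Fin k → Fin d → ℤ)
    (p : Fin k → List (Fin d × Bool)) (c : Fin k → Fin n) :
    AK g (fun r => z r + w) p c = AK g z p c := by
  funext u v
  unfold AK
  simp only [QK_trans]

end trans

variable {G : Type} [Group G] [TopologicalSpace G] [IsTopologicalGroup G] [CompactSpace G]
  [SecondCountableTopology G] [MeasurableSpace G] [BorelSpace G] (μ : Measure G)
  [IsProbabilityMeasure μ] [μ.IsMulLeftInvariant] [μ.IsMulRightInvariant] [μ.IsInvInvariant]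
  {N n : ℕ} {L : LD G N n} {d l : ℕ} [NeZero l]

lemma lf_tr (w : Fin d → ℤ) (U : Ed d l → G) :
    lf (tr (zt l w) U) = fun e => lf U (e.1 + w, e.2) := by
  funext e
  unfold lf tr zt
  congr 1
  refine Prod.ext ?_ rfl
  funext i
  simp

lemma Aw_tr (b : ℝ) (w z : Fin d → ℤ) (p : List (Fin d × Bool)) (U : Ed d l → G) :
    Aw L b z p (tr (zt l w) U) = Aw L b (z + w) p U := by
  unfold Aw
  rw [lf_tr, hol_trans]

/-- expansion in the colours -/
lemma colours {k : ℕ} (β b : ℝ) (o : Fin d → ℤ) (φ : Fin k → Fm d l) :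
    EX μ L β (fun U : Ed d l → G => ∏ r, (Bw L b o (φ r) U - EX μ L β (Bw L b o (φ r)))) =
      (1 / 2) ^ k * ∑ c : Fin k → Fin n, ∫ U, ∏ r, (Xo L b o (φ r) (c r) U *
        Xo L b o (φ r) (c r) U - ∫ U', Xo L b o (φ r) (c r) U' *
          Xo L b o (φ r) (c r) U' ∂(PT μ L β)) ∂(PT μ L β) := by
  classical
  have hW : ∀ (r : Fin k) (α : Fin n), Continuous fun U : Ed d l → G =>
      Xo L b o (φ r) α U * Xo L b o (φ r) α U := fun r α => (Xo_cont b o _ α).mul (Xo_cont b o _ α)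
  have h0 : ∀ r, (Bw L b o (φ r) : (Ed d l → G) → ℝ) = fun U => 1 / 2 * ∑ α,
      Xo L b o (φ r) α U * Xo L b o (φ r) α U := by
    intro r
    funext U
    unfold Bw
    simp only [pow_two]
  have h1 : ∀ r, EX μ L β (Bw L b o (φ r) : (Ed d l → G) → ℝ) = 1 / 2 * ∑ α, EX μ L β
      (fun U : Ed d l → G => Xo L b o (φ r) α U * Xo L b o (φ r) α U) := by
    intro r
    rw [h0, EX_smul, EX_sum μ (Finset.univ : Finset (Fin n))
      (F := fun (α : Fin n) (U : Ed d l → G) => Xo L b o (φ r) α U * Xo L b o (φ r) α U)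
      fun α _ => hW r α]
  have h2 : (fun U : Ed d l → G => ∏ r, (Bw L b o (φ r) U - EX μ L β (Bw L b o (φ r)))) =
      fun U => (1 / 2) ^ k * ∑ c : Fin k → Fin n, ∏ r, (Xo L b o (φ r) (c r) U *
        Xo L b o (φ r) (c r) U - EX μ L β
          (fun U : Ed d l → G => Xo L b o (φ r) (c r) U * Xo L b o (φ r) (c r) U)) := by
    funext U
    have e1 : ∀ r, Bw L b o (φ r) U - EX μ L β (Bw L b o (φ r)) =
        1 / 2 * ∑ α, (Xo L b o (φ r) α U * Xo L b o (φ r) α U - EX μ L β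
          (fun U : Ed d l → G => Xo L b o (φ r) α U * Xo L b o (φ r) α U)) := by
      intro r
      rw [h1, Finset.sum_sub_distrib, mul_sub, h0]
    simp only [e1]
    rw [Finset.prod_mul_distrib, Finset.prod_const, Finset.card_univ, Fintype.card_fin,
      Finset.prod_univ_sum, Fintype.piFinset_univ]
  rw [h2, EX_smul]
  congr 1
  rw [EX_sum μ (Finset.univ : Finset (Fin k → Fin n))
    (F := fun (c : Fin k → Fin n) (U : Ed d l → G) => ∏ r, (Xo L b o (φ r) (c r) U *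
        Xo L b o (φ r) (c r) U - EX μ L β
          (fun U : Ed d l → G => Xo L b o (φ r) (c r) U * Xo L b o (φ r) (c r) U)))
    fun c _ => continuous_finsetProd _ fun r _ => (hW r (c r)).sub continuous_const]
  refine Finset.sum_congr rfl fun c _ => ?_
  rw [EX_int]
  refine integral_congr_ae (Filter.Eventually.of_forall fun U => ?_)
  refine Finset.prod_congr rfl fun r _ => ?_
  rw [EX_int]

/-- The centred products of Wilson loops, inner position. -/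
theorem wl0 {Cq : ℝ} (hCq : 0 ≤ Cq)
    (hq : ∀ g : G, |we L g - 1 / 2 * ∑ a, fi L a g ^ 2| ≤ Cq * dv L g ^ 4)
    (hd : 3 ≤ d) (hW : S_WC) (hB : S_B1) (hT : S_TR) (hH : S_HAF) (k p : ℕ) :
    ∃ κ₁ : ℕ, ∀ κ₀ : ℕ, κ₁ ≤ κ₀ → ∃ C : ℝ, 0 < C ∧ ∀ a : ℕ, 1 ≤ a → ∀ b : ℝ,
      (a : ℝ) ^ (4 * κ₀ * (2 * d + 3) + κ₀) ≤ b → b ≤ (2 * a) ^ (4 * κ₀ * (2 * d + 3) + κ₀) →
      ∀ (m : ℕ) [NeZero m], 2 * (3 * a) ^ (4 * κ₀) ≤ m →
      ∀ (z : Fin k → Fin d → ℤ) (γ : Fin k → List (Fin d × Bool)), (∀ r, (γ r).length ≤ a) →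
      (∀ r, dest (z r) (γ r) = z r) →
      (∀ r i, oo d ((3 * a) ^ (4 * κ₀)) i + a ≤ z r i ∧
        z r i ≤ oo d ((3 * a) ^ (4 * κ₀)) i + 3 * a) →
      |EX μ L (b ^ 4) (fun U : Ed d (2 * m) → G => ∏ r, (Aw L b (z r) (γ r) U -
        EX μ L (b ^ 4) (Aw L b (z r) (γ r) : (Ed d (2 * m) → G) → ℝ))) -
        (1 / 2) ^ k * ∑ c : Fin k → Fin n, wick k (AK (green d) z γ c)| ≤ C / a ^ p := by
  obtain ⟨E₀, hE₀⟩ : ∃ E₀, E₀ = cM k d * (4 * k + 4) := ⟨_, rfl⟩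
  obtain ⟨h₀, hh₀⟩ : ∃ h₀, h₀ = p + E₀ := ⟨_, rfl⟩
  refine ⟨2 * k * h₀ + E₀ + 4 + p + d + eW k d + 4 * k + 2, fun κ₀ hκ₀ => ?_⟩
  obtain ⟨CM, Cδ, CT, hCM, hCδ, hCT, hg, hgK, hnear⟩ :=
    near μ (L := L) hd hB hT k κ₀ (by omega)
  obtain ⟨C₂, hC₂, hcmp⟩ := cmp μ (L := L) hCq hq (by omega : 1 ≤ d) k
    (4 * κ₀ * (2 * d + 3) + κ₀)
  obtain ⟨CW, hCW, hWC⟩ := hW k
  obtain ⟨_, _, _, _, hlip, _, _⟩ := hH
  obtain ⟨B₁, hB₁⟩ : ∃ B₁, B₁ = max 1 (2 * CT) := ⟨_, rfl⟩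
  have hB1 : 1 ≤ B₁ := by rw [hB₁]; exact le_max_left _ _
  have hB2 : 2 * CT ≤ B₁ := by rw [hB₁]; exact le_max_right _ _
  obtain ⟨C1, hC1⟩ : ∃ C1, C1 = CW * CM ^ (4 * k + 4) * (Cδ + 1) +
    (2 * k) * (2 * k).factorial * B₁ ^ (2 * k) * CT := ⟨_, rfl⟩
  have hC10 : 0 ≤ C1 := by rw [hC1]; positivity
  refine ⟨C₂ + n ^ k * C1 + 1, by positivity,
    fun a ha b hab hba m _ hm z γ hpa hcl hz => ?_⟩
  have ha1 : (1:ℝ) ≤ a := by exact_mod_cast ha
  have ha0 : (0:ℝ) < a := by linarith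
  obtain ⟨K, hK⟩ : ∃ K, K = (3 * a) ^ (4 * κ₀) := ⟨_, rfl⟩
  have hK1 : 1 ≤ K := by rw [hK]; exact Nat.one_le_pow _ _ (by omega)
  have hK1' : (1:ℝ) ≤ K := by exact_mod_cast hK1
  have hKr : (K : ℝ) = (3 * a) ^ (4 * κ₀) := by rw [hK]; push_cast; rfl
  have hsq : Real.sqrt K = (3 * a) ^ (2 * κ₀) := by
    rw [hKr, show (3 * (a:ℝ)) ^ (4 * κ₀) = ((3 * a) ^ (2 * κ₀)) ^ 2 by rw [← pow_mul]; congr 1; ring]
    exact Real.sqrt_sq (by positivity)
  have hap : (a:ℝ) ^ (4 * k + 2 + p) ≤ Real.sqrt K := by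
    rw [hsq]
    calc (a:ℝ) ^ (4 * k + 2 + p) ≤ a ^ (2 * κ₀) := pow_le_pow_right₀ ha1 (by omega)
      _ ≤ _ := pow_le_pow_left₀ ha0.le (by linarith) _
  have hK4 : 4 * a ≤ K := by
    rw [hK]
    calc 4 * a ≤ 9 * (a * a) := by nlinarith
      _ = (3 * a) ^ 2 := by ring
      _ ≤ (3 * a) ^ (4 * κ₀) := Nat.pow_le_pow_right (by omega) (by omega)
  have hb1 : 1 ≤ b := le_trans (one_le_pow₀ ha1) hab
  have hb0 : 0 < b := by linarith
  have hpl : ∀ r, ((γ r).length : ℤ) ≤ a := fun r => by exact_mod_cast hpa r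
  have hplr : ∀ r, ((γ r).length : ℝ) ≤ a := fun r => by exact_mod_cast hpa r
  have hz' := hz
  rw [← hK] at hz' hm
  have hm' : (2 * K : ℤ) ≤ m := by exact_mod_cast hm
  have hK4' : (4 * a : ℤ) ≤ K := by exact_mod_cast hK4
  -- step 1
  have s1 := (hcmp a ha b hb1 hba m (by omega) (oo d K) (fun i => by unfold oo; positivity)
    (fun i => by unfold oo; push_cast; omega) z γ
    (fun r i => by have := (hz' r i).2; have := hpl r; push_cast; omega)
    (fun r i => by have := (hz' r i).1; have := hpl r; omega) hcl hpa).1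
  have s1' : C₂ * (a:ℝ) ^ eW k d / b ^ 2 ≤ C₂ / a ^ p := by
    rw [div_le_div_iff₀ (by positivity) (by positivity)]
    have e1 : (a:ℝ) ^ eW k d * a ^ p ≤ b ^ 2 := by
      rw [← pow_add]
      calc (a:ℝ) ^ (eW k d + p) ≤ a ^ (4 * κ₀ * (2 * d + 3) + κ₀) :=
            pow_le_pow_right₀ ha1 (by omega)
        _ ≤ b := hab
        _ = b ^ 1 := (pow_one _).symm
        _ ≤ b ^ 2 := pow_le_pow_right₀ hb1 (by norm_num)
    calc C₂ * (a:ℝ) ^ eW k d * a ^ p = C₂ * ((a:ℝ) ^ eW k d * a ^ p) := by ring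
      _ ≤ _ := mul_le_mul_of_nonneg_left e1 hC₂
  rw [colours] at s1
  -- step 2
  have hone : ∀ c : Fin k → Fin n,
      |(∫ U, ∏ r, (Xo L b (oo d K) (fF (2 * m) (oo d K) (z r) (γ r)) (c r) U *
        Xo L b (oo d K) (fF (2 * m) (oo d K) (z r) (γ r)) (c r) U -
        ∫ U', Xo L b (oo d K) (fF (2 * m) (oo d K) (z r) (γ r)) (c r) U' *
          Xo L b (oo d K) (fF (2 * m) (oo d K) (z r) (γ r)) (c r) U' ∂(PT μ L (b ^ 4)))
            ∂(PT μ L (b ^ 4))) - wick k (AK (green d) z γ c)| ≤ C1 / a ^ p := by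
    intro c
    haveI := PT_prob μ (L := L) (d := d) (l := 2 * m) (b ^ 4)
    have h1 := hWC _ (PT μ L (b ^ 4) : Measure (Ed d (2 * m) → G))
      (fun u : Fin k × Bool => Xo L b (oo d K) (fF (2 * m) (oo d K) (z u.1) (γ u.1)) (c u.1))
      (AK (gK d K) z γ c) (CM * a ^ cM k d) (Cδ * a ^ 4 / a ^ κ₀) (1 / a ^ h₀)
      (by rw [hK]; exact hnear a ha b hab hba m (by rw [← hK]; exact hm) z γ hpa hcl hz c)
      (by positivity) (by rw [div_le_one (by positivity)]; exact one_le_pow₀ ha1)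
    have h2 : CW * (CM * a ^ cM k d) ^ (4 * k + 4) *
        (Cδ * a ^ 4 / a ^ κ₀ / (1 / a ^ h₀) ^ (2 * k) + (1 / a ^ h₀) ^ 2) ≤
        CW * CM ^ (4 * k + 4) * (Cδ + 1) / a ^ p := by
      have e1 : (a:ℝ) ^ E₀ * (Cδ * a ^ 4 / a ^ κ₀ / (1 / a ^ h₀) ^ (2 * k)) ≤ Cδ / a ^ p := by
        have e2 : (1 / (a:ℝ) ^ h₀) ^ (2 * k) = 1 / a ^ (2 * k * h₀) := by
          rw [_root_.one_div_pow, ← pow_mul, mul_comm h₀]
        rw [e2, div_div, mul_one_div, ← mul_div_assoc]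
        rw [div_le_div_iff₀ (by positivity) (by positivity)]
        have e3 : (a:ℝ) ^ E₀ * a ^ 4 * a ^ p * a ^ (2 * k * h₀) ≤ a ^ κ₀ := by
          rw [← pow_add, ← pow_add, ← pow_add]
          exact pow_le_pow_right₀ ha1 (by omega)
        have hx : (0:ℝ) < a ^ (2 * k * h₀) := by positivity
        rw [← mul_div_assoc, le_div_iff₀ hx]
        calc (a:ℝ) ^ E₀ * (Cδ * a ^ 4) * a ^ p * a ^ (2 * k * h₀) =
            Cδ * ((a:ℝ) ^ E₀ * a ^ 4 * a ^ p * a ^ (2 * k * h₀)) := by ring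
          _ ≤ Cδ * a ^ κ₀ := mul_le_mul_of_nonneg_left e3 hCδ
      have e3 : (a:ℝ) ^ E₀ * (1 / a ^ h₀) ^ 2 ≤ 1 / a ^ p := by
        rw [one_div, inv_pow, ← pow_mul, ← div_eq_mul_inv, div_le_div_iff₀ (by positivity)
          (by positivity), ← pow_add, one_mul]
        exact pow_le_pow_right₀ ha1 (by omega)
      have e5 : ((a:ℝ) ^ cM k d) ^ (4 * k + 4) = a ^ E₀ := by rw [hE₀, pow_mul]
      calc _ = CW * CM ^ (4 * k + 4) * ((a:ℝ) ^ E₀ *
            (Cδ * a ^ 4 / a ^ κ₀ / (1 / a ^ h₀) ^ (2 * k)) +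
            (a:ℝ) ^ E₀ * (1 / a ^ h₀) ^ 2) := by rw [mul_pow, e5]; ring
        _ ≤ CW * CM ^ (4 * k + 4) * (Cδ / a ^ p + 1 / a ^ p) := by
            refine mul_le_mul_of_nonneg_left (add_le_add e1 e3) (by positivity)
        _ = _ := by ring
    have h3 : |wick k (AK (gK d K) z γ c) - wick k (AK (green d) z γ c)| ≤
        (2 * k) * (2 * k).factorial * B₁ ^ (2 * k) * CT / a ^ p := by
      have hη : CT / Real.sqrt K ≤ CT / a ^ (4 * k + 2 + p) :=
        div_le_div_of_nonneg_left hCT.le (by positivity) hap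
      have e1 : ∀ z, |gK d K z| ≤ 2 * CT := by
        intro z
        have h2 := hgK K z hK1
        have h3 : CT / Real.sqrt K ≤ CT := div_le_self hCT.le (Real.one_le_sqrt.2 hK1')
        have h4 : |gK d K z| ≤ |gK d K z - green d z| + |green d z| := by
          have := abs_add_le (gK d K z - green d z) (green d z)
          rwa [sub_add_cancel] at this
        linarith [hg z]
      have h4 := hlip k (AK (gK d K) z γ c) (AK (green d) z γ c) (a ^ 2 * B₁)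
        (a ^ 2 * (CT / a ^ (4 * k + 2 + p)))
        (one_le_mul_of_one_le_of_one_le (one_le_pow₀ ha1) hB1) (by positivity)
        (fun u v _ => (AK_le (by positivity) e1 hplr c u v).trans
          (mul_le_mul_of_nonneg_left hB2 (by positivity)))
        (fun u v _ => (AK_le hCT.le hg hplr c u v).trans
          (mul_le_mul_of_nonneg_left (by linarith) (by positivity)))
        (fun u v _ => by
          rw [AK_sub]
          exact AK_le (by positivity) (fun z => (hgK K z hK1).trans hη) hplr c u v)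
      refine h4.trans (le_of_eq ?_)
      have e5 : (a:ℝ) ^ (4 * k + 2 + p) = a ^ (4 * k) * a ^ 2 * a ^ p := by
        rw [pow_add, pow_add]
      have e6 : ((a:ℝ) ^ 2 * B₁) ^ (2 * k) = a ^ (4 * k) * B₁ ^ (2 * k) := by
        rw [mul_pow, ← pow_mul]; congr 2; ring
      rw [e5, e6]
      have hx0 : (a:ℝ) ^ (4 * k) ≠ 0 := by positivity
      have hy0 : (a:ℝ) ^ 2 ≠ 0 := by positivity
      have hz0 : (a:ℝ) ^ p ≠ 0 := by positivity
      field_simp
    have h5 := abs_sub_le (∫ U, ∏ r, (Xo L b (oo d K) (fF (2 * m) (oo d K) (z r) (γ r)) (c r) U *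
        Xo L b (oo d K) (fF (2 * m) (oo d K) (z r) (γ r)) (c r) U -
        ∫ U', Xo L b (oo d K) (fF (2 * m) (oo d K) (z r) (γ r)) (c r) U' *
          Xo L b (oo d K) (fF (2 * m) (oo d K) (z r) (γ r)) (c r) U' ∂(PT μ L (b ^ 4)))
            ∂(PT μ L (b ^ 4)))
        (wick k (AK (gK d K) z γ c)) (wick k (AK (green d) z γ c))
    refine h5.trans ?_
    calc _ ≤ CW * CM ^ (4 * k + 4) * (Cδ + 1) / a ^ p +
          (2 * k) * (2 * k).factorial * B₁ ^ (2 * k) * CT / a ^ p := add_le_add (h1.trans h2) h3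
      _ = C1 / a ^ p := by rw [hC1]; ring
  -- conclusion
  have s2 : |(1 / 2) ^ k * (∑ c : Fin k → Fin n,
      ∫ U, ∏ r, (Xo L b (oo d K) (fF (2 * m) (oo d K) (z r) (γ r)) (c r) U *
        Xo L b (oo d K) (fF (2 * m) (oo d K) (z r) (γ r)) (c r) U -
        ∫ U', Xo L b (oo d K) (fF (2 * m) (oo d K) (z r) (γ r)) (c r) U' *
          Xo L b (oo d K) (fF (2 * m) (oo d K) (z r) (γ r)) (c r) U' ∂(PT μ L (b ^ 4)))
            ∂(PT μ L (b ^ 4))) -
      (1 / 2) ^ k * ∑ c : Fin k → Fin n, wick k (AK (green d) z γ c)| ≤ n ^ k * C1 / a ^ p := by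
    rw [← mul_sub, ← Finset.sum_sub_distrib, abs_mul, abs_of_pos (by positivity : (0:ℝ) < (1 / 2) ^ k)]
    have e1 : |∑ c : Fin k → Fin n, ((∫ U, ∏ r, (Xo L b (oo d K)
        (fF (2 * m) (oo d K) (z r) (γ r)) (c r) U *
        Xo L b (oo d K) (fF (2 * m) (oo d K) (z r) (γ r)) (c r) U -
        ∫ U', Xo L b (oo d K) (fF (2 * m) (oo d K) (z r) (γ r)) (c r) U' *
          Xo L b (oo d K) (fF (2 * m) (oo d K) (z r) (γ r)) (c r) U' ∂(PT μ L (b ^ 4)))
            ∂(PT μ L (b ^ 4))) - wick k (AK (green d) z γ c))| ≤ n ^ k * C1 / a ^ p := by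
      calc _ ≤ ∑ c : Fin k → Fin n, C1 / a ^ p :=
            (Finset.abs_sum_le_sum_abs _ _).trans (Finset.sum_le_sum fun c _ => hone c)
        _ = n ^ k * C1 / a ^ p := by
            rw [Finset.sum_const, Finset.card_univ, Fintype.card_fun, Fintype.card_fin,
              Fintype.card_fin, nsmul_eq_mul]
            push_cast; ring
    have e2 : (1 / 2 : ℝ) ^ k ≤ 1 := pow_le_one₀ (by norm_num) (by norm_num)
    calc _ ≤ 1 * (n ^ k * C1 / a ^ p) := mul_le_mul e2 e1 (abs_nonneg _) zero_le_one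
      _ = _ := one_mul _
  refine (abs_sub_le _ _ _).trans ((add_le_add (s1.trans s1') s2).trans ?_)
  rw [← add_div]
  exact div_le_div_of_nonneg_right (by linarith) (by positivity)

/-- The mean of a Wilson loop, inner position. -/
theorem mean0 {Cq : ℝ} (hCq : 0 ≤ Cq)
    (hq : ∀ g : G, |we L g - 1 / 2 * ∑ a, fi L a g ^ 2| ≤ Cq * dv L g ^ 4)
    (hd : 3 ≤ d) (hW : S_W1) (hB : S_B1) (hT : S_TR) (p : ℕ) :
    ∃ κ₁ : ℕ, ∀ κ₀ : ℕ, κ₁ ≤ κ₀ → ∃ C : ℝ, 0 < C ∧ ∀ a : ℕ, 1 ≤ a → ∀ b : ℝ,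
      (a : ℝ) ^ (4 * κ₀ * (2 * d + 3) + κ₀) ≤ b → b ≤ (2 * a) ^ (4 * κ₀ * (2 * d + 3) + κ₀) →
      ∀ (m : ℕ) [NeZero m], 2 * (3 * a) ^ (4 * κ₀) ≤ m →
      ∀ (z : Fin d → ℤ) (γ : List (Fin d × Bool)), γ.length ≤ a → dest z γ = z →
      (∀ i, oo d ((3 * a) ^ (4 * κ₀)) i + a ≤ z i ∧
        z i ≤ oo d ((3 * a) ^ (4 * κ₀)) i + 3 * a) →
      |EX μ L (b ^ 4) (Aw L b z γ : (Ed d (2 * m) → G) → ℝ) -
        n / 2 * QK (green d) (lks z γ) (lks z γ)| ≤ C / a ^ p := by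
  obtain ⟨E₀, hE₀⟩ : ∃ E₀, E₀ = cM 1 d * 4 := ⟨_, rfl⟩
  obtain ⟨h₀, hh₀⟩ : ∃ h₀, h₀ = p + E₀ := ⟨_, rfl⟩
  refine ⟨2 * h₀ + E₀ + 4 + p + d + eW 1 d + 2, fun κ₀ hκ₀ => ?_⟩
  obtain ⟨CM, Cδ, CT, hCM, hCδ, hCT, hg, hgK, hnear⟩ :=
    near μ (L := L) hd hB hT 1 κ₀ (by omega)
  obtain ⟨C₂, hC₂, hcmp⟩ := cmp μ (L := L) hCq hq (by omega : 1 ≤ d) 1
    (4 * κ₀ * (2 * d + 3) + κ₀)
  obtain ⟨CW, hCW, hWC⟩ := hW 2
  obtain ⟨C1, hC1⟩ : ∃ C1, C1 = CW * (Cδ + CM ^ 4) + CT := ⟨_, rfl⟩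
  have hC10 : 0 ≤ C1 := by rw [hC1]; positivity
  refine ⟨C₂ + n * C1 + 1, by positivity,
    fun a ha b hab hba m _ hm z γ hpa hcl hz => ?_⟩
  have ha1 : (1:ℝ) ≤ a := by exact_mod_cast ha
  have ha0 : (0:ℝ) < a := by linarith
  obtain ⟨K, hK⟩ : ∃ K, K = (3 * a) ^ (4 * κ₀) := ⟨_, rfl⟩
  have hK1 : 1 ≤ K := by rw [hK]; exact Nat.one_le_pow _ _ (by omega)
  have hK1' : (1:ℝ) ≤ K := by exact_mod_cast hK1
  have hKr : (K : ℝ) = (3 * a) ^ (4 * κ₀) := by rw [hK]; push_cast; rfl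
  have hsq : Real.sqrt K = (3 * a) ^ (2 * κ₀) := by
    rw [hKr, show (3 * (a:ℝ)) ^ (4 * κ₀) = ((3 * a) ^ (2 * κ₀)) ^ 2 by rw [← pow_mul]; congr 1; ring]
    exact Real.sqrt_sq (by positivity)
  have hap : (a:ℝ) ^ (2 + p) ≤ Real.sqrt K := by
    rw [hsq]
    calc (a:ℝ) ^ (2 + p) ≤ a ^ (2 * κ₀) := pow_le_pow_right₀ ha1 (by omega)
      _ ≤ _ := pow_le_pow_left₀ ha0.le (by linarith) _
  have hK4 : 4 * a ≤ K := by
    rw [hK]
    calc 4 * a ≤ 9 * (a * a) := by nlinarith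
      _ = (3 * a) ^ 2 := by ring
      _ ≤ (3 * a) ^ (4 * κ₀) := Nat.pow_le_pow_right (by omega) (by omega)
  have hb1 : 1 ≤ b := le_trans (one_le_pow₀ ha1) hab
  have hb0 : 0 < b := by linarith
  have hpl : (γ.length : ℤ) ≤ a := by exact_mod_cast hpa
  have hplr : (γ.length : ℝ) ≤ a := by exact_mod_cast hpa
  have hz' := hz
  rw [← hK] at hz' hm
  have hm' : (2 * K : ℤ) ≤ m := by exact_mod_cast hm
  have hK4' : (4 * a : ℤ) ≤ K := by exact_mod_cast hK4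
  have s1 := (hcmp a ha b hb1 hba m (by omega) (oo d K) (fun i => by unfold oo; positivity)
    (fun i => by unfold oo; push_cast; omega) (fun _ => z) (fun _ => γ)
    (fun r i => by have := (hz' i).2; push_cast; omega)
    (fun r i => by have := (hz' i).1; omega) (fun _ => hcl) (fun _ => hpa)).2 0
  have s1' : C₂ * (a:ℝ) ^ eW 1 d / b ^ 2 ≤ C₂ / a ^ p := by
    rw [div_le_div_iff₀ (by positivity) (by positivity)]
    have e1 : (a:ℝ) ^ eW 1 d * a ^ p ≤ b ^ 2 := by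
      rw [← pow_add]
      calc (a:ℝ) ^ (eW 1 d + p) ≤ a ^ (4 * κ₀ * (2 * d + 3) + κ₀) :=
            pow_le_pow_right₀ ha1 (by omega)
        _ ≤ b := hab
        _ = b ^ 1 := (pow_one _).symm
        _ ≤ b ^ 2 := pow_le_pow_right₀ hb1 (by norm_num)
    calc C₂ * (a:ℝ) ^ eW 1 d * a ^ p = C₂ * ((a:ℝ) ^ eW 1 d * a ^ p) := by ring
      _ ≤ _ := mul_le_mul_of_nonneg_left e1 hC₂
  have s0 : EX μ L (b ^ 4) (Bw L b (oo d K) (fF (2 * m) (oo d K) z γ) :
      (Ed d (2 * m) → G) → ℝ) = 1 / 2 * ∑ α, ∫ U, Xo L b (oo d K)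
        (fF (2 * m) (oo d K) z γ) α U * Xo L b (oo d K)
        (fF (2 * m) (oo d K) z γ) α U ∂(PT μ L (b ^ 4)) := by
    have e0 : (Bw L b (oo d K) (fF (2 * m) (oo d K) z γ) : (Ed d (2 * m) → G) → ℝ) = fun U =>
        1 / 2 * ∑ α, Xo L b (oo d K) (fF (2 * m) (oo d K) z γ) α U *
          Xo L b (oo d K) (fF (2 * m) (oo d K) z γ) α U := by
      funext U
      unfold Bw
      simp only [pow_two]
    rw [e0, EX_smul, EX_sum μ (Finset.univ : Finset (Fin n))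
      (F := fun (α : Fin n) (U : Ed d (2 * m) → G) => Xo L b (oo d K)
        (fF (2 * m) (oo d K) z γ) α U * Xo L b (oo d K) (fF (2 * m) (oo d K) z γ) α U)
      fun α _ => (Xo_cont b _ _ α).mul (Xo_cont b _ _ α)]
    simp only [EX_int]
  have hone : ∀ α : Fin n, |(∫ U, Xo L b (oo d K)
        (fF (2 * m) (oo d K) z γ) α U * Xo L b (oo d K)
        (fF (2 * m) (oo d K) z γ) α U ∂(PT μ L (b ^ 4))) -
      QK (green d) (lks z γ) (lks z γ)| ≤ C1 / a ^ p := by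
    intro α
    haveI := PT_prob μ (L := L) (d := d) (l := 2 * m) (b ^ 4)
    have h1 := hWC (Fin 1 × Bool) _ (PT μ L (b ^ 4) : Measure (Ed d (2 * m) → G))
      (fun u : Fin 1 × Bool => Xo L b (oo d K) (fF (2 * m) (oo d K) z γ) α)
      (AK (gK d K) (fun _ : Fin 1 => z) (fun _ => γ) (fun _ => α)) (CM * a ^ cM 1 d)
      (Cδ * a ^ 4 / a ^ κ₀) (1 / a ^ h₀)
      (by
        rw [hK]
        exact hnear a ha b hab hba m (by rw [← hK]; exact hm) (fun _ => z) (fun _ => γ)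
          (fun _ => hpa) (fun _ => hcl) (fun _ => hz) (fun _ => α))
      (by positivity) (by rw [div_le_one (by positivity)]; exact one_le_pow₀ ha1)
      [(0, false), (0, true)] (by simp) (by simp)
    have e0 : haf (AK (gK d K) (fun _ : Fin 1 => z) (fun _ => γ) (fun _ => α))
        [((0 : Fin 1), false), (0, true)] = QK (gK d K) (lks z γ) (lks z γ) := by
      simp [haf, AK]
    rw [e0] at h1
    simp only [List.map_cons, List.map_nil, List.prod_cons, List.prod_nil, mul_one] at h1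
    have h2 : CW * (Cδ * a ^ 4 / a ^ κ₀ / (1 / a ^ h₀) ^ 2 +
        (1 / a ^ h₀) ^ 2 * (CM * a ^ cM 1 d) ^ (2 + 2)) ≤ CW * (Cδ + CM ^ 4) / a ^ p := by
      have e1 : Cδ * (a:ℝ) ^ 4 / a ^ κ₀ / (1 / a ^ h₀) ^ 2 ≤ Cδ / a ^ p := by
        have e2 : (1 / (a:ℝ) ^ h₀) ^ 2 = 1 / a ^ (2 * h₀) := by
          rw [_root_.one_div_pow, ← pow_mul, mul_comm h₀]
        rw [e2, div_div, mul_one_div]
        rw [div_le_div_iff₀ (by positivity) (by positivity)]
        have e3 : (a:ℝ) ^ 4 * a ^ p * a ^ (2 * h₀) ≤ a ^ κ₀ := by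
          rw [← pow_add, ← pow_add]
          exact pow_le_pow_right₀ ha1 (by omega)
        have hx : (0:ℝ) < a ^ (2 * h₀) := by positivity
        rw [← mul_div_assoc, le_div_iff₀ hx]
        calc Cδ * (a:ℝ) ^ 4 * a ^ p * a ^ (2 * h₀) =
            Cδ * ((a:ℝ) ^ 4 * a ^ p * a ^ (2 * h₀)) := by ring
          _ ≤ Cδ * a ^ κ₀ := mul_le_mul_of_nonneg_left e3 hCδ
      have e3 : (1 / (a:ℝ) ^ h₀) ^ 2 * (CM * a ^ cM 1 d) ^ (2 + 2) ≤ CM ^ 4 / a ^ p := by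
        have e5 : (CM * (a:ℝ) ^ cM 1 d) ^ (2 + 2) = CM ^ 4 * a ^ E₀ := by
          rw [mul_pow, hE₀, pow_mul]
        rw [e5, one_div, inv_pow, ← pow_mul, ← div_eq_inv_mul, div_le_div_iff₀ (by positivity)
          (by positivity)]
        calc CM ^ 4 * (a:ℝ) ^ E₀ * a ^ p = CM ^ 4 * (a ^ (E₀ + p)) := by rw [pow_add]; ring
          _ ≤ CM ^ 4 * a ^ (h₀ * 2) := mul_le_mul_of_nonneg_left
              (pow_le_pow_right₀ ha1 (by omega)) (by positivity)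
      calc _ ≤ CW * (Cδ / a ^ p + CM ^ 4 / a ^ p) := by
            refine mul_le_mul_of_nonneg_left (add_le_add e1 e3) hCW.le
        _ = _ := by ring
    have h3 : |QK (gK d K) (lks z γ) (lks z γ) - QK (green d) (lks z γ) (lks z γ)| ≤
        CT / a ^ p := by
      have hη : CT / Real.sqrt K ≤ CT / a ^ (2 + p) :=
        div_le_div_of_nonneg_left hCT.le (by positivity) hap
      rw [QK_sub]
      refine (QK_le (by positivity) (fun z => (hgK K z hK1).trans hη) _ _).trans ?_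
      rw [lks_len, ← mul_assoc]
      calc (γ.length : ℝ) * γ.length * (CT / a ^ (2 + p)) ≤ a * a * (CT / a ^ (2 + p)) := by
            gcongr
        _ = CT / a ^ p := by
            rw [pow_add]
            have hy0 : (a:ℝ) ≠ 0 := by positivity
            have hz0 : (a:ℝ) ^ p ≠ 0 := by positivity
            field_simp
    refine (abs_sub_le _ (QK (gK d K) (lks z γ) (lks z γ)) _).trans ?_
    calc _ ≤ CW * (Cδ + CM ^ 4) / a ^ p + CT / a ^ p := add_le_add (h1.trans h2) h3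
      _ = C1 / a ^ p := by rw [hC1]; ring
  have s2 : |1 / 2 * (∑ α, ∫ U, Xo L b (oo d K)
        (fF (2 * m) (oo d K) z γ) α U * Xo L b (oo d K)
        (fF (2 * m) (oo d K) z γ) α U ∂(PT μ L (b ^ 4))) -
      n / 2 * QK (green d) (lks z γ) (lks z γ)| ≤ n * C1 / a ^ p := by
    have e0 : n / 2 * QK (green d) (lks z γ) (lks z γ) =
        1 / 2 * ∑ _α : Fin n, QK (green d) (lks z γ) (lks z γ) := by
      rw [Finset.sum_const, Finset.card_univ, Fintype.card_fin, nsmul_eq_mul]; ring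
    rw [e0, ← mul_sub, ← Finset.sum_sub_distrib, abs_mul, abs_of_pos (by norm_num : (0:ℝ) < 1 / 2)]
    have e1 : |∑ α, ((∫ U, Xo L b (oo d K)
        (fF (2 * m) (oo d K) z γ) α U * Xo L b (oo d K)
        (fF (2 * m) (oo d K) z γ) α U ∂(PT μ L (b ^ 4))) -
      QK (green d) (lks z γ) (lks z γ))| ≤ n * C1 / a ^ p := by
      calc _ ≤ ∑ _α : Fin n, C1 / a ^ p :=
            (Finset.abs_sum_le_sum_abs _ _).trans (Finset.sum_le_sum fun c _ => hone c)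
        _ = n * C1 / a ^ p := by
            rw [Finset.sum_const, Finset.card_univ, Fintype.card_fin, nsmul_eq_mul]
            ring
    have e3 : 0 ≤ n * C1 / (a:ℝ) ^ p := by positivity
    linarith
  rw [s0] at s1
  refine (abs_sub_le _ _ _).trans ((add_le_add (s1.trans s1') s2).trans ?_)
  rw [← add_div]
  exact div_le_div_of_nonneg_right (by linarith) (by positivity)

/-- The Wick ordered products of Wilson loops, inner position. -/
theorem wl1 {Cq : ℝ} (hCq : 0 ≤ Cq)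
    (hq : ∀ g : G, |we L g - 1 / 2 * ∑ a, fi L a g ^ 2| ≤ Cq * dv L g ^ 4)
    (hd : 3 ≤ d) (hW : S_WC) (hW1 : S_W1) (hB : S_B1) (hT : S_TR) (hH : S_HAF) (k p : ℕ) :
    ∃ (κ₀ : ℕ) (C : ℝ), 1 ≤ κ₀ ∧ 0 < C ∧ ∀ a : ℕ, 1 ≤ a → ∀ b : ℝ,
      (a : ℝ) ^ (4 * κ₀ * (2 * d + 3) + κ₀) ≤ b → b ≤ (2 * a) ^ (4 * κ₀ * (2 * d + 3) + κ₀) →
      ∀ (m : ℕ) [NeZero m], 2 * (3 * a) ^ (4 * κ₀) ≤ m →
      ∀ (z : Fin k → Fin d → ℤ) (γ : Fin k → List (Fin d × Bool)), (∀ r, (γ r).length ≤ a) →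
      (∀ r, dest (z r) (γ r) = z r) →
      (∀ r i, oo d ((3 * a) ^ (4 * κ₀)) i + a ≤ z r i ∧
        z r i ≤ oo d ((3 * a) ^ (4 * κ₀)) i + 3 * a) →
      |EX μ L (b ^ 4) (fun U : Ed d (2 * m) → G => ∏ r, (Aw L b (z r) (γ r) U -
        n / 2 * QK (green d) (lks (z r) (γ r)) (lks (z r) (γ r)))) -
        (1 / 2) ^ k * ∑ c : Fin k → Fin n, wick k (AK (green d) z γ c)| ≤ C / a ^ p := by
  obtain ⟨κ₁, h₁⟩ := wl0 μ (L := L) hCq hq hd hW hB hT hH k p
  obtain ⟨κ₂, h₂⟩ := mean0 μ (L := L) hCq hq hd hW1 hB hT (p + eW k d)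
  obtain ⟨κ₀, hκ₀⟩ : ∃ κ₀, κ₀ = κ₁ + κ₂ + 1 := ⟨_, rfl⟩
  obtain ⟨C₁, hC₁, h₁⟩ := h₁ κ₀ (by omega)
  obtain ⟨C₂, hC₂, h₂⟩ := h₂ κ₀ (by omega)
  obtain ⟨CT, hCT, _, hg, _⟩ := hT d hd
  obtain ⟨C₃, hC₃, h₃⟩ := cmp2 μ (L := L) hCq hq (by omega : 1 ≤ d) k
    (4 * κ₀ * (2 * d + 3) + κ₀) (C₄ := n / 2 * CT) (by positivity)
  refine ⟨κ₀, C₃ * C₂ + C₁, by omega, by positivity,
    fun a ha b hab hba m _ hm z γ hpa hcl hz => ?_⟩
  have ha1 : (1:ℝ) ≤ a := by exact_mod_cast ha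
  have ha0 : (0:ℝ) < a := by linarith
  obtain ⟨K, hK⟩ : ∃ K, K = (3 * a) ^ (4 * κ₀) := ⟨_, rfl⟩
  have hK4 : 4 * a ≤ K := by
    rw [hK]
    calc 4 * a ≤ 9 * (a * a) := by nlinarith
      _ = (3 * a) ^ 2 := by ring
      _ ≤ (3 * a) ^ (4 * κ₀) := Nat.pow_le_pow_right (by omega) (by omega)
  have hb1 : 1 ≤ b := le_trans (one_le_pow₀ ha1) hab
  have hpl : ∀ r, ((γ r).length : ℤ) ≤ a := fun r => by exact_mod_cast hpa r
  have hplr : ∀ r, ((γ r).length : ℝ) ≤ a := fun r => by exact_mod_cast hpa r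
  have hz' := hz
  have hm0 := hm
  rw [← hK] at hz' hm0
  have hm' : (2 * K : ℤ) ≤ m := by exact_mod_cast hm0
  have hK4' : (4 * a : ℤ) ≤ K := by exact_mod_cast hK4
  have s1 := h₁ a ha b hab hba m hm z γ hpa hcl hz
  have s2 := fun r => h₂ a ha b hab hba m hm (z r) (γ r) (hpa r) (hcl r) (hz r)
  have s3 := h₃ a ha b hb1 hba m (by omega) (oo d K) (fun i => by unfold oo; positivity)
    (fun i => by unfold oo; push_cast; omega) z γ
    (fun r i => by have := (hz' r i).2; have := hpl r; push_cast; omega)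
    (fun r i => by have := (hz' r i).1; have := hpl r; omega) hcl hpa
    (fun r => n / 2 * QK (green d) (lks (z r) (γ r)) (lks (z r) (γ r))) (C₂ / a ^ (p + eW k d))
    (by positivity) (fun r => by
      rw [abs_mul, abs_of_nonneg (by positivity : (0:ℝ) ≤ n / 2), mul_assoc]
      refine mul_le_mul_of_nonneg_left ?_ (by positivity)
      refine (QK_le hCT.le hg _ _).trans ?_
      rw [lks_len, ← mul_assoc]
      calc ((γ r).length : ℝ) * (γ r).length * CT ≤ a * a * CT := by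
            have := hplr r
            gcongr
        _ = CT * a ^ 2 := by ring
        _ ≤ CT * a ^ 8 := mul_le_mul_of_nonneg_left (pow_le_pow_right₀ ha1 (by norm_num)) hCT.le)
    (fun r => by rw [abs_sub_comm]; exact s2 r)
  refine (abs_sub_le _ _ _).trans ((add_le_add s3 s1).trans (le_of_eq ?_))
  rw [pow_add, add_div]
  congr 1
  have hx0 : (a:ℝ) ^ p ≠ 0 := by positivity
  have hy0 : (a:ℝ) ^ eW k d ≠ 0 := by positivity
  field_simp

end

end Pool.Agent.TH369.WL
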