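import Mathlib
import Pool.Agent.TH369.WL.Main

/-!
# Wilson loops at weak coupling on the torus: final form
-/

open MeasureTheory Matrix
open Pool.Agent.H906R3.YM Pool.Agent.W793.YM
open Pool.Agent.W793.SCH (haf legs wick Near pk gK el S_B1 S_TR S_WC S_W1 S_HAF green)
open Pool.Agent.W793.SCHL (PT PT_prob EX_int scale)

namespace Pool.Agent.TH369.WL

set_option linter.unusedSectionVars false
set_option linter.unusedVariables false

noncomputable section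

variable {G : Type} [Group G] [TopologicalSpace G] [IsTopologicalGroup G] [CompactSpace G]
  [SecondCountableTopology G] [MeasurableSpace G] [BorelSpace G] (μ : Measure G)
  [IsProbabilityMeasure μ] [μ.IsMulLeftInvariant] [μ.IsMulRightInvariant] [μ.IsInvInvariant]
  {N n : ℕ} {L : LD G N n} {d l : ℕ} [NeZero l]

variable (L) in
/-- the Wilson loop -/
def Ab (β : ℝ) (z : Fin d → ℤ) (p : List (Fin d × Bool)) (U : Ed d l → G) : ℝ :=
  β * we L (hol (lf U) z p)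

/-- the choice of the scales -/
lemma scales (e κ q : ℕ) (he : 1 ≤ e) (hκ : κ + 1 ≤ 4 * e) (hq : 4 * 3 ^ κ ≤ q) {β : ℝ}
    (hβ : (q : ℝ) ^ (12 * e) ≤ β) {m : ℕ} (hm : β ≤ 2 * m) : ∃ (b : ℝ) (a : ℕ), b ^ 4 = β ∧
      1 ≤ a ∧ q ≤ a ∧ (a : ℝ) ^ e ≤ b ∧ b ≤ (2 * a) ^ e ∧ 2 * (3 * a) ^ κ ≤ m := by
  have hq1 : 1 ≤ q := le_trans (Nat.one_le_iff_ne_zero.2 (by positivity)) hq
  obtain ⟨b, a, hb4, hb1, hqa, hab, hba⟩ := scale he hq1 hβ
  have hqq : q ≤ q ^ 3 := Nat.le_self_pow (by norm_num) q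
  have hqa' : q ≤ a := hqq.trans hqa
  have ha1 : 1 ≤ a := hq1.trans hqa'
  refine ⟨b, a, hb4, ha1, hqa', hab, hba, ?_⟩
  have h1 : (a:ℝ) ^ (4 * e) ≤ 2 * m := by
    refine le_trans ?_ hm
    rw [← hb4, mul_comm 4 e, pow_mul]
    exact pow_le_pow_left₀ (by positivity) hab 4
  have h2 : a ^ (4 * e) ≤ 2 * m := by exact_mod_cast h1
  have h3 : 4 * (3 * a) ^ κ ≤ a ^ (4 * e) := by
    calc 4 * (3 * a) ^ κ = (4 * 3 ^ κ) * a ^ κ := by rw [mul_pow]; ring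
      _ ≤ a * a ^ κ := Nat.mul_le_mul_right _ (hq.trans hqa')
      _ = a ^ (κ + 1) := by ring
      _ ≤ a ^ (4 * e) := Nat.pow_le_pow_right (by omega) hκ
  omega

/-- The Wick ordered products of Wilson loops. -/
theorem wlk {Cq : ℝ} (hCq : 0 ≤ Cq)
    (hq : ∀ g : G, |we L g - 1 / 2 * ∑ a, fi L a g ^ 2| ≤ Cq * dv L g ^ 4)
    (hd : 3 ≤ d) (hW : S_WC) (hW1 : S_W1) (hB : S_B1) (hT : S_TR) (hH : S_HAF) (k p : ℕ) :
    ∃ (e q₀ : ℕ) (C : ℝ), 0 < C ∧ ∀ q : ℕ, q₀ ≤ q → ∀ β : ℝ, (q : ℝ) ^ e ≤ β →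
      ∀ (m : ℕ) [NeZero m], β ≤ 2 * m →
      ∀ (x : Fin k → Fin d → ℤ) (γ : Fin k → List (Fin d × Bool)), (∀ r, (γ r).length ≤ q) →
      (∀ r, dest (x r) (γ r) = x r) → ∀ t : Fin d → ℤ, (∀ r i, |x r i - t i| ≤ q) →
      |EX μ L β (fun U : Ed d (2 * m) → G => ∏ r, (Ab L β (x r) (γ r) U -
        n / 2 * QK (green d) (lks (x r) (γ r)) (lks (x r) (γ r)))) -
        (1 / 2) ^ k * ∑ c : Fin k → Fin n, wick k (AK (green d) x γ c)| ≤ C / q ^ p := by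
  obtain ⟨κ₀, C, hκ₀, hC, h⟩ := wl1 μ (L := L) hCq hq hd hW hW1 hB hT hH k p
  have he : 4 * κ₀ + 1 ≤ 4 * (4 * κ₀ * (2 * d + 3) + κ₀) := by
    have : 4 * κ₀ ≤ 4 * κ₀ * (2 * d + 3) := Nat.le_mul_of_pos_right _ (by omega)
    omega
  refine ⟨12 * (4 * κ₀ * (2 * d + 3) + κ₀), 4 * 3 ^ (4 * κ₀), C, hC,
    fun q hq₀ β hβ m _ hm x γ hγ hcl t hx => ?_⟩
  obtain ⟨b, a, hb4, ha, hqa, hab, hba, hma⟩ := scales _ (4 * κ₀) q (by omega) he hq₀ hβ hm
  obtain ⟨K, hK⟩ : ∃ K, K = (3 * a) ^ (4 * κ₀) := ⟨_, rfl⟩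
  obtain ⟨w, hw⟩ : ∃ w : Fin d → ℤ, w = fun i => oo d K i + 2 * a - t i := ⟨_, rfl⟩
  have hqa' : (q : ℤ) ≤ a := by exact_mod_cast hqa
  have h1 := h a ha b hab hba m hma (fun r => x r + w) γ (fun r => (hγ r).trans hqa)
    (fun r => by rw [dest_trans, hcl]) (fun r i => by
      have h2 := abs_le.1 (hx r i)
      rw [← hK, hw]
      simp only [Pi.add_apply]
      constructor <;> linarith [h2.1, h2.2])
  simp only [AK_trans, QK_trans] at h1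
  have e2 : ∀ r, (Aw L b (x r + w) (γ r) : (Ed d (2 * m) → G) → ℝ) =
      fun U => Aw L b (x r) (γ r) (tr (zt (2 * m) w) U) := by
    intro r
    funext U
    rw [Aw_tr]
  simp only [e2] at h1
  have e5 := EX_tr μ (L := L) (β := b ^ 4) (zt (2 * m) w) (fun U : Ed d (2 * m) → G =>
    ∏ r, (Aw L b (x r) (γ r) U - n / 2 * QK (green d) (lks (x r) (γ r)) (lks (x r) (γ r))))
  rw [e5] at h1
  have e6 : ∀ r, (Ab L β (x r) (γ r) : (Ed d (2 * m) → G) → ℝ) = Aw L b (x r) (γ r) := by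
    intro r
    funext U
    unfold Ab Aw
    rw [hb4]
  simp only [e6]
  rw [← hb4]
  refine h1.trans (div_le_div_of_nonneg_left hC.le ?_ ?_)
  · have : (0:ℝ) < q := by
      have : 0 < q := lt_of_lt_of_le (by positivity) hq₀
      exact_mod_cast this
    positivity
  · exact pow_le_pow_left₀ (Nat.cast_nonneg _) (by exact_mod_cast hqa) _

end

end Pool.Agent.TH369.WL
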