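import Mathlib
import Pool.Agent.W793.YM.Dev
import Pool.Agent.H906R3.YM.Conc

/-!
# A closed subgroup of the unitary group near the identity
-/

open MeasureTheory Matrix Filter Asymptotics
open scoped Matrix.Norms.Frobenius Topology
open Pool.Agent.H906R3.YM Pool.Agent.W793.YM

namespace Pool.Agent.TH369.WL

set_option linter.unusedSectionVars false
set_option linter.unusedVariables false

noncomputable section
variable {N n : ℕ}

lemma exp_bigO : (fun Y : Mat N => NormedSpace.exp Y - 1 - Y) =O[𝓝 0] fun Y : Mat N => ‖Y‖ ^ 2 := by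
  have h := (NormedSpace.exp_hasFPowerSeriesAt_zero (𝕂 := ℝ) (𝔸 := Mat N)).isBigO_sub_partialSum_pow 2
  refine h.congr (fun Y => ?_) fun Y => rfl
  simp only [zero_add, FormalMultilinearSeries.partialSum, Finset.sum_range_succ,
    Finset.sum_range_zero, NormedSpace.expSeries_apply_eq]
  simp [sub_sub]
  rfl

section proj

variable {ι : Type*} [Fintype ι] [DecidableEq ι] (X : ι → Mat N)

/-- the component orthogonal to the span of an orthonormal family -/
def Qp (M : Mat N) : Mat N := M - ∑ a, ip (X a) M • X a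

variable {X}

lemma ip_sum_right {ι : Type*} (s : Finset ι) (A : Mat N) (f : ι → Mat N) :
    ip A (∑ i ∈ s, f i) = ∑ i ∈ s, ip A (f i) := map_sum _ _ _

lemma ip_Qp (h : ∀ a b, ip (X a) (X b) = if a = b then 1 else 0) (a : ι) (M : Mat N) :
    ip (X a) (Qp X M) = 0 := by
  unfold Qp
  rw [map_sub, ip_sum_right]
  simp only [map_smul, smul_eq_mul, h]
  simp

lemma norm_Qp (h : ∀ a b, ip (X a) (X b) = if a = b then 1 else 0) (M : Mat N) :
    ‖Qp X M‖ ^ 2 = ‖M‖ ^ 2 - ∑ a, ip (X a) M ^ 2 := by
  have h1 : M = Qp X M + ∑ a, ip (X a) M • X a := by unfold Qp; abel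
  have h2 : ip (Qp X M) (Qp X M) = ip M (Qp X M) := by
    have h4 : ip M (Qp X M) = ip (Qp X M + ∑ a, ip (X a) M • X a) (Qp X M) := by rw [← h1]
    rw [h4, ip_add_left]
    have h3 : ip (∑ a, ip (X a) M • X a) (Qp X M) = 0 := by
      rw [ip_comm, ip_sum_right]
      refine Finset.sum_eq_zero fun a _ => ?_
      rw [map_smul, ip_comm (Qp X M), ip_Qp h, smul_zero]
    rw [h3, add_zero]
  rw [norm_sq_ip, norm_sq_ip, h2]
  conv_lhs => unfold Qp
  rw [map_sub, ip_sum_right]
  congr 1
  refine Finset.sum_congr rfl fun a _ => ?_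
  rw [map_smul, smul_eq_mul, ip_comm, sq]

lemma norm_Qp_le (h : ∀ a b, ip (X a) (X b) = if a = b then 1 else 0) (M : Mat N) :
    ‖Qp X M‖ ≤ ‖M‖ := by
  have h1 := norm_Qp h M
  have h2 : 0 ≤ ∑ a, ip (X a) M ^ 2 := Finset.sum_nonneg fun a _ => sq_nonneg _
  exact le_of_sq_le_sq (by linarith) (norm_nonneg _)

end proj

variable {G : Subgroup (UN N)}

lemma ip_orth (B : Frame G n) (a b : Fin n) : ip (B.X a) (B.X b) = if a = b then 1 else 0 :=
  B.orth a b

lemma norm_lmul' (g : G) (A : Mat N) : ‖mt g * A‖ = ‖A‖ := by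
  have hu : (mt g)ᴴ * mt g = 1 := rhoG_unit' g
  have h : ‖mt g * A‖ ^ 2 = ‖A‖ ^ 2 := by
    rw [norm_sq_ip, norm_sq_ip, ip_apply, ip_apply, conjTranspose_mul, mul_assoc,
      ← mul_assoc (mt g)ᴴ, hu, one_mul]
  have h0 := norm_nonneg (mt g * A)
  have h1 := norm_nonneg A
  nlinarith

/-- powers of close elements -/
lemma pow_close (g : G) (b : Mat N) {β : ℝ} (m : ℕ)
    (hb : ∀ i < m, ‖b ^ i‖ ≤ β) : ‖mt g ^ m - b ^ m‖ ≤ m * (‖mt g - b‖ * β) := by
  induction m with
  | zero => simp
  | succ m ih =>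
    have e1 : mt g ^ (m + 1) - b ^ (m + 1) = mt g * (mt g ^ m - b ^ m) + (mt g - b) * b ^ m := by
      rw [pow_succ', pow_succ']; noncomm_ring
    rw [e1]
    refine (norm_add_le _ _).trans ?_
    rw [norm_lmul']
    have h1 := ih fun i hi => hb i (by omega)
    have h2 : ‖(mt g - b) * b ^ m‖ ≤ ‖mt g - b‖ * β :=
      (norm_mul_le _ _).trans (mul_le_mul_of_nonneg_left (hb m (by omega)) (norm_nonneg _))
    push_cast
    linarith

lemma mt_pow (g : G) (m : ℕ) : mt (g ^ m) = mt g ^ m := by
  have : mt (g ^ m) = rhoG G (g ^ m) := rfl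
  rw [this, map_pow]; rfl

/-- a limit direction generates a one-parameter subgroup -/
lemma limit_dir (hG : IsClosed (G : Set (UN N))) (B : Frame G n) {h : ℕ → G} {q : ℕ → ℝ}
    {Z : Mat N} (hq0 : ∀ j, 0 < q j) (hq : Tendsto q atTop (𝓝 0))
    (hZ : (fun j => mt (h j) - 1 - q j • Z) =o[atTop] q) (τ : ℝ) :
    ∃ g : G, mt g = NormedSpace.exp (τ • Z) := by
  have hcomp : CompactSpace G := by
    have h1 : IsCompact (G : Set (UN N)) := hG.isCompact
    exact isCompact_iff_compactSpace.1 h1
  have hclosed : IsClosed (Set.range (mt : G → Mat N)) :=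
    (isCompact_range (continuous_subtype_val.comp continuous_subtype_val)).isClosed
  have key : ∀ τ : ℝ, 0 ≤ τ → NormedSpace.exp (τ • Z) ∈ Set.range (mt : G → Mat N) := by
    intro τ hτ
    have hcont : Continuous fun s : ℝ => NormedSpace.exp (s • Z) :=
      NormedSpace.exp_continuous.comp (continuous_id.smul continuous_const)
    obtain ⟨β, hβ⟩ : ∃ β : ℝ, ∀ s ∈ Set.Icc (0:ℝ) τ, ‖NormedSpace.exp (s • Z)‖ ≤ β :=
      isCompact_Icc.exists_bound_of_continuousOn hcont.continuousOn
    have hβ0 : 0 ≤ β := (norm_nonneg _).trans (hβ 0 ⟨le_rfl, hτ⟩)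
    obtain ⟨m, hm⟩ : ∃ m : ℕ → ℕ, m = fun j => ⌊τ / q j⌋₊ := ⟨_, rfl⟩
    have hmq : ∀ j, (m j : ℝ) * q j ≤ τ := fun j => by
      rw [hm, ← le_div_iff₀ (hq0 j)]
      exact Nat.floor_le (div_nonneg hτ (hq0 j).le)
    have hmq' : Tendsto (fun j => (m j : ℝ) * q j) atTop (𝓝 τ) := by
      have h1 : Tendsto (fun j => τ - q j) atTop (𝓝 (τ - 0)) := tendsto_const_nhds.sub hq
      rw [sub_zero] at h1
      refine tendsto_of_tendsto_of_tendsto_of_le_of_le h1 tendsto_const_nhds (fun j => ?_) hmq
      have h2 := Nat.lt_floor_add_one (τ / q j)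
      rw [div_lt_iff₀ (hq0 j)] at h2
      have h3 : τ < ((m j : ℝ) + 1) * q j := by rw [hm]; exact h2
      show τ - q j ≤ m j * q j
      linarith
    have hlim : Tendsto (fun j => mt (h j ^ m j)) atTop (𝓝 (NormedSpace.exp (τ • Z))) := by
      have h1 : Tendsto (fun j => NormedSpace.exp (((m j : ℝ) * q j) • Z)) atTop
          (𝓝 (NormedSpace.exp (τ • Z))) := (hcont.tendsto τ).comp hmq'
      have hpow : ∀ (j i : ℕ), NormedSpace.exp (q j • Z) ^ i = NormedSpace.exp (((i : ℝ) * q j) • Z) := by
        intro j i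
        rw [mul_smul, Nat.cast_smul_eq_nsmul, Matrix.exp_nsmul]
      have h2 : Tendsto (fun j => mt (h j ^ m j) - NormedSpace.exp (((m j : ℝ) * q j) • Z)) atTop
          (𝓝 0) := by
        have hb : (fun j => mt (h j) - NormedSpace.exp (q j • Z)) =o[atTop] q := by
          have e1 : (fun j => NormedSpace.exp (q j • Z) - 1 - q j • Z) =o[atTop] q := by
            have e2 : Tendsto (fun j => q j • Z) atTop (𝓝 0) := by
              have := hq.smul_const Z
              rwa [zero_smul] at this
            have e3 := exp_bigO.comp_tendsto e2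
            refine e3.trans_isLittleO ?_
            have e4 : (fun Y : Mat N => ‖Y‖ ^ 2) ∘ (fun j => q j • Z) = fun j => q j * (q j * ‖Z‖ ^ 2) := by
              funext j
              simp only [Function.comp, norm_smul, Real.norm_eq_abs, mul_pow, sq_abs]
              ring
            rw [e4]
            refine isLittleO_of_tendsto (fun j hj => by rw [hj, zero_mul]) ?_
            have e5 : (fun j => q j * (q j * ‖Z‖ ^ 2) / q j) = fun j => q j * ‖Z‖ ^ 2 := by
              funext j
              rw [mul_div_cancel_left₀ _ (hq0 j).ne']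
            rw [e5]
            have := hq.mul_const (‖Z‖ ^ 2)
            rwa [zero_mul] at this
          have e6 := hZ.sub e1
          refine e6.congr_left fun j => ?_
          abel
        rw [isLittleO_iff] at hb
        refine Metric.tendsto_atTop.2 fun ε hε => ?_
        have hc : 0 < ε / (2 * (τ + 1) * (β + 1)) := by positivity
        obtain ⟨J, hJ⟩ := eventually_atTop.1 (hb hc)
        refine ⟨J, fun j hj => ?_⟩
        rw [dist_zero_right, mt_pow, ← hpow]
        have e1 := pow_close (h j) (NormedSpace.exp (q j • Z)) (β := β) (m j) fun i hi => by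
          rw [hpow]
          refine hβ _ ⟨mul_nonneg (Nat.cast_nonneg _) (hq0 j).le, le_trans ?_ (hmq j)⟩
          exact mul_le_mul_of_nonneg_right (by exact_mod_cast hi.le) (hq0 j).le
        refine lt_of_le_of_lt e1 ?_
        have e2 := hJ j hj
        rw [Real.norm_of_nonneg (hq0 j).le] at e2
        calc (m j : ℝ) * (‖mt (h j) - NormedSpace.exp (q j • Z)‖ * β) ≤
            m j * ((ε / (2 * (τ + 1) * (β + 1)) * q j) * β) := by gcongr
          _ = (m j * q j) * β * (ε / (2 * (τ + 1) * (β + 1))) := by ring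
          _ ≤ τ * β * (ε / (2 * (τ + 1) * (β + 1))) := by
              gcongr
              exact hmq j
          _ ≤ (τ + 1) * (β + 1) * (ε / (2 * (τ + 1) * (β + 1))) := by
              gcongr <;> linarith
          _ = ε / 2 := by field_simp
          _ < ε := by linarith
      have h3 := h2.add h1
      simp only [sub_add_cancel, zero_add] at h3
      exact h3
    exact hclosed.mem_of_tendsto hlim (Eventually.of_forall fun j => ⟨_, rfl⟩)
  rcases le_total 0 τ with hτ | hτ
  · exact key τ hτ
  · obtain ⟨g, hg⟩ := key (-τ) (by linarith)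
    refine ⟨g⁻¹, ?_⟩
    have h1 : mt g * mt g⁻¹ = 1 := by
      have : mt g * mt g⁻¹ = rhoG G (g * g⁻¹) := rfl
      rw [this, mul_inv_cancel, map_one]
    have h2 : NormedSpace.exp (τ • Z) * mt g = 1 := by
      rw [hg, ← Matrix.exp_add_of_commute]
      · rw [← add_smul, add_neg_cancel, zero_smul, NormedSpace.exp_zero]
      · exact ((Commute.refl Z).smul_left τ).smul_right (-τ)
    calc mt g⁻¹ = (NormedSpace.exp (τ • Z) * mt g) * mt g⁻¹ := by rw [h2, one_mul]
      _ = _ := by rw [mul_assoc, h1, mul_one]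

/-- expansion of a product of exponentials -/
lemma prod_exp (X : Fin n → Mat N) {y : Fin n → ℕ → ℝ} {t : ℕ → ℝ} (ht : Tendsto t atTop (𝓝 0))
    (hy : ∀ a, y a =O[atTop] t) (l : List (Fin n)) :
    (fun j => (l.map fun a => NormedSpace.exp ((-(y a j)) • X a)).prod - 1 +
      (l.map fun a => y a j • X a).sum) =O[atTop] (fun j => t j * t j) ∧
    (fun j => (l.map fun a => y a j • X a).sum) =O[atTop] t := by
  have ht1 : t =O[atTop] (fun _ => (1:ℝ)) := ht.isBigO_one ℝ
  have hY : ∀ a, (fun j => y a j • X a) =O[atTop] t := fun a => by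
    have h1 := (hy a).smul (isBigO_refl (fun _ : ℕ => X a) atTop)
    refine h1.trans ?_
    refine IsBigO.of_bound ‖X a‖ (Eventually.of_forall fun j => ?_)
    rw [norm_smul, mul_comm]
  have hE : ∀ a, (fun j => NormedSpace.exp ((-(y a j)) • X a) - 1 + y a j • X a) =O[atTop]
      (fun j => t j * t j) := fun a => by
    have e0 : Tendsto (fun j => (-(y a j)) • X a) atTop (𝓝 0) := by
      have h1 : Tendsto (y a) atTop (𝓝 0) := (hy a).trans_tendsto ht
      have h2 := h1.neg.smul_const (X a)
      rwa [neg_zero, zero_smul] at h2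
    have e1 := exp_bigO.comp_tendsto e0
    have e2 : ((fun Y : Mat N => NormedSpace.exp Y - 1 - Y) ∘ fun j => (-(y a j)) • X a) =
        fun j => NormedSpace.exp ((-(y a j)) • X a) - 1 + y a j • X a := by
      funext j
      simp only [Function.comp, neg_smul, sub_neg_eq_add]
    rw [e2] at e1
    refine e1.trans ?_
    have e3 : ((fun Y : Mat N => ‖Y‖ ^ 2) ∘ fun j => (-(y a j)) • X a) =
        fun j => ‖y a j • X a‖ * ‖y a j • X a‖ := by
      funext j
      simp only [Function.comp, neg_smul, norm_neg]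
      ring
    rw [e3]
    exact (hY a).norm_left.mul (hY a).norm_left
  induction l with
  | nil =>
    constructor
    · simp only [List.map_nil, List.prod_nil, List.sum_nil, sub_self, add_zero]
      exact isBigO_zero _ _
    · simp only [List.map_nil, List.sum_nil]
      exact isBigO_zero _ _
  | cons a l ih =>
    obtain ⟨ih1, ih2⟩ := ih
    refine ⟨?_, ?_⟩
    · have hP : (fun j => (l.map fun a => NormedSpace.exp ((-(y a j)) • X a)).prod) =O[atTop]
          (fun _ => (1:ℝ)) := by
        have h1 : (fun j => (l.map fun a => NormedSpace.exp ((-(y a j)) • X a)).prod) =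
            fun j => ((l.map fun a => NormedSpace.exp ((-(y a j)) • X a)).prod - 1 +
              (l.map fun a => y a j • X a).sum) - (l.map fun a => y a j • X a).sum + 1 := by
          funext j; abel
        rw [h1]
        have h2 : (fun j => t j * t j) =O[atTop] (fun _ => (1:ℝ)) := by
          have := ht1.mul ht1
          simpa using this
        exact ((ih1.trans h2).sub (ih2.trans ht1)).add (isBigO_const_const _ one_ne_zero _)
      have e1 := (hY a).mul ih2
      have e2 : (fun j => (y a j • X a) * ((l.map fun a => NormedSpace.exp ((-(y a j)) • X a)).prod - 1 +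
          (l.map fun a => y a j • X a).sum)) =O[atTop] (fun j => t j * t j) := by
        have := ((hY a).trans ht1).mul ih1
        simpa using this
      have e3 : (fun j => (NormedSpace.exp ((-(y a j)) • X a) - 1 + y a j • X a) *
          (l.map fun a => NormedSpace.exp ((-(y a j)) • X a)).prod) =O[atTop]
          (fun j => t j * t j) := by
        have := (hE a).mul hP
        simpa using this
      refine (((ih1.add e1).sub e2).add e3).congr_left fun j => ?_
      simp only [List.map_cons, List.prod_cons, List.sum_cons]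
      noncomm_ring
    · simp only [List.map_cons, List.sum_cons]
      exact (hY a).add ih2

lemma mt_prod (l : List G) : mt l.prod = (l.map mt).prod := by
  have : mt l.prod = rhoG G l.prod := rfl
  rw [this, map_list_prod]; rfl

/-- The Lie algebra approximates the closed subgroup to second order at the identity. -/
theorem sub_quad (hG : IsClosed (G : Set (UN N))) (B : Frame G n) :
    ∃ C : ℝ, 0 < C ∧ ∀ g : G, ‖Qp B.X (mt g - 1)‖ ≤ C * ‖mt g - 1‖ ^ 2 := by
  by_contra hcon
  push Not at hcon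
  have h1 : ∀ j : ℕ, ∃ g : G, ((j : ℝ) + 1) * ‖mt g - 1‖ ^ 2 < ‖Qp B.X (mt g - 1)‖ :=
    fun j => hcon (j + 1) (by positivity)
  choose g hg using h1
  have horth := ip_orth B
  obtain ⟨D, hD⟩ : ∃ D : ℕ → Mat N, D = fun j => mt (g j) - 1 := ⟨_, rfl⟩
  obtain ⟨t, ht⟩ : ∃ t : ℕ → ℝ, t = fun j => ‖D j‖ := ⟨_, rfl⟩
  obtain ⟨q, hq⟩ : ∃ q : ℕ → ℝ, q = fun j => ‖Qp B.X (D j)‖ := ⟨_, rfl⟩
  have hgq : ∀ j : ℕ, ((j : ℝ) + 1) * t j ^ 2 < q j := fun j => by rw [ht, hq, hD]; exact hg j
  have hqt : ∀ j, q j ≤ t j := fun j => by rw [ht, hq]; exact norm_Qp_le horth _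
  have ht0 : ∀ j, 0 ≤ t j := fun j => by rw [ht]; exact norm_nonneg _
  have hq0 : ∀ j, 0 < q j := fun j => lt_of_le_of_lt (by have := ht0 j; positivity) (hgq j)
  have htpos : ∀ j, 0 < t j := fun j => lt_of_lt_of_le (hq0 j) (hqt j)
  have htb : ∀ j : ℕ, t j ≤ 1 / ((j : ℝ) + 1) := fun j => by
    rw [le_div_iff₀ (by positivity)]
    have e1 := (hgq j).le.trans (hqt j)
    have e2 := htpos j
    by_contra hc
    push Not at hc
    nlinarith
  have htlim : Tendsto t atTop (𝓝 0) :=
    squeeze_zero ht0 htb tendsto_one_div_add_atTop_nhds_zero_nat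
  have hqlim : Tendsto q atTop (𝓝 0) := squeeze_zero (fun j => (hq0 j).le) hqt htlim
  -- the quadratic terms are negligible
  have hsmall : (fun j => t j * t j) =o[atTop] q := by
    refine isLittleO_of_tendsto (fun j hj => absurd hj (hq0 j).ne') ?_
    refine squeeze_zero (fun j => div_nonneg (mul_nonneg (ht0 j) (ht0 j)) (hq0 j).le) (fun j => ?_)
      tendsto_one_div_add_atTop_nhds_zero_nat
    rw [div_le_div_iff₀ (hq0 j) (by positivity), one_mul]
    have := (hgq j).le
    nlinarith
  obtain ⟨y, hy⟩ : ∃ y : Fin n → ℕ → ℝ, y = fun a j => ip (B.X a) (D j) := ⟨_, rfl⟩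
  have hyt : ∀ a, y a =O[atTop] t := fun a => by
    refine IsBigO.of_bound 1 (Eventually.of_forall fun j => ?_)
    rw [hy, ht, one_mul, norm_norm, Real.norm_eq_abs]
    refine (abs_ip_le _ _).trans ?_
    have h2 : ‖B.X a‖ = 1 := by
      have h : ‖B.X a‖ ^ 2 = 1 := by rw [norm_sq_ip, horth, if_pos rfl]
      have h0 := norm_nonneg (B.X a)
      nlinarith
    rw [h2, one_mul]
  obtain ⟨kk, hkk⟩ : ∃ kk : ℕ → G, kk = fun j =>
    ((List.finRange n).map fun a => B.ex a (-(y a j))).prod := ⟨_, rfl⟩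
  have hk := (prod_exp B.X htlim hyt (List.finRange n)).1
  have hkP : ∀ j, mt (kk j) = ((List.finRange n).map fun a =>
      NormedSpace.exp ((-(y a j)) • B.X a)).prod := fun j => by
    rw [hkk]
    simp only
    rw [mt_prod, List.map_map]
    congr 1
    refine List.map_congr_left fun a _ => ?_
    exact B.ex_eq _ _
  have hsum : ∀ j, ((List.finRange n).map fun a => y a j • B.X a).sum = D j - Qp B.X (D j) := by
    intro j
    unfold Qp
    rw [hy, ← List.ofFn_eq_map, List.sum_ofFn]
    abel
  simp only [← hkP, hsum] at hk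
  -- the product
  have hh : (fun j => mt (kk j * g j) - 1 - Qp B.X (D j)) =O[atTop] (fun j => t j * t j) := by
    have hDt : D =O[atTop] t := by
      refine IsBigO.of_bound 1 (Eventually.of_forall fun j => ?_)
      rw [ht, one_mul, norm_norm]
    have hQt : (fun j => Qp B.X (D j)) =O[atTop] t := by
      refine IsBigO.of_bound 1 (Eventually.of_forall fun j => ?_)
      rw [ht, one_mul, norm_norm]
      exact norm_Qp_le horth _
    have ht1 : t =O[atTop] (fun _ => (1:ℝ)) := htlim.isBigO_one ℝ
    have htt : (fun j => t j * t j) =O[atTop] t := by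
      have := (isBigO_refl t atTop).mul ht1
      simpa using this
    have hk1 : (fun j => mt (kk j) - 1) =O[atTop] t := by
      refine (((hk.trans htt).sub hDt).add hQt).congr_left fun j => ?_
      abel
    refine (hk.add (hk1.mul hDt)).congr_left fun j => ?_
    have e1 : mt (kk j * g j) = mt (kk j) * mt (g j) := rfl
    have e2 : mt (g j) = D j + 1 := by rw [hD]; simp
    rw [e1, e2]
    noncomm_ring
  -- the limit direction
  have hcs : IsCompact (Metric.sphere (0 : Mat N) 1) := isCompact_sphere _ _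
  have hmem : ∀ j, (q j)⁻¹ • Qp B.X (D j) ∈ Metric.sphere (0 : Mat N) 1 := fun j => by
    rw [mem_sphere_zero_iff_norm, norm_smul, norm_inv, Real.norm_of_nonneg (hq0 j).le]
    have : ‖Qp B.X (D j)‖ = q j := by rw [hq]
    rw [this, inv_mul_cancel₀ (hq0 j).ne']
  obtain ⟨Z, hZ, φ, hφ, hlim⟩ := hcs.tendsto_subseq hmem
  have hφt := hφ.tendsto_atTop
  have hdir : (fun j => mt ((kk (φ j)) * g (φ j)) - 1 - q (φ j) • Z) =o[atTop] fun j => q (φ j) := by
    have e1 : (fun j => mt (kk (φ j) * g (φ j)) - 1 - Qp B.X (D (φ j))) =o[atTop]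
        fun j => q (φ j) := (hh.trans_isLittleO hsmall).comp_tendsto hφt
    have e2 : (fun j => Qp B.X (D (φ j)) - q (φ j) • Z) =o[atTop] fun j => q (φ j) := by
      rw [isLittleO_iff]
      intro c hc
      have e3 := (Metric.tendsto_atTop.1 hlim) c hc
      obtain ⟨J, hJ⟩ := e3
      filter_upwards [eventually_ge_atTop J] with j hj
      have e4 := (hJ j hj).le
      rw [dist_eq_norm] at e4
      have e5 : Qp B.X (D (φ j)) - q (φ j) • Z = q (φ j) • ((q (φ j))⁻¹ • Qp B.X (D (φ j)) - Z) := by
        rw [smul_sub, smul_smul, mul_inv_cancel₀ (hq0 _).ne', one_smul]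
      rw [e5, norm_smul, mul_comm]
      exact mul_le_mul_of_nonneg_right e4 (norm_nonneg _)
    refine (e1.add e2).congr_left fun j => ?_
    abel
  have hone := limit_dir hG B (h := fun j => kk (φ j) * g (φ j)) (fun j => hq0 _)
    (hqlim.comp hφt) hdir
  have hspan := B.full Z hone
  have hZo : ∀ a, ip (B.X a) Z = 0 := fun a => by
    have e1 : Tendsto (fun j => ip (B.X a) ((q (φ j))⁻¹ • Qp B.X (D (φ j)))) atTop
        (𝓝 (ip (B.X a) Z)) := ((ip (B.X a)).continuous.tendsto Z).comp hlim
    have e2 : (fun j => ip (B.X a) ((q (φ j))⁻¹ • Qp B.X (D (φ j)))) = fun _ => 0 := by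
      funext j
      rw [map_smul, ip_Qp horth, smul_zero]
    rw [e2] at e1
    exact (tendsto_nhds_unique e1 tendsto_const_nhds)
  have hZZ : ip Z Z = 0 := by
    have : ∀ M ∈ Submodule.span ℝ (Set.range B.X), ip Z M = 0 := by
      intro M hM
      induction hM using Submodule.span_induction with
      | mem x hx =>
        obtain ⟨a, rfl⟩ := hx
        rw [ip_comm]; exact hZo a
      | zero => exact map_zero _
      | add x y _ _ hx hy => rw [map_add, hx, hy, add_zero]
      | smul c x _ hx => rw [map_smul, hx, smul_zero]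
    exact this Z hspan
  rw [← norm_sq_ip] at hZZ
  rw [mem_sphere_zero_iff_norm] at hZ
  rw [hZ] at hZZ
  norm_num at hZZ

/-- The energy of a group element and the components of the Lie algebra. -/
theorem we_quad [CompactSpace G] [SecondCountableTopology G] [MeasurableSpace G] [BorelSpace G]
    (hG : IsClosed (G : Set (UN N))) (B : Frame G n) :
    ∃ C : ℝ, 0 < C ∧ ∀ g : G, |we B.toLD g - 1 / 2 * ∑ a, fi B.toLD a g ^ 2| ≤
      C * dv B.toLD g ^ 4 := by
  obtain ⟨C, hC, h⟩ := sub_quad hG B
  refine ⟨C ^ 2, by positivity, fun g => ?_⟩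
  have h1 := h g
  have h2 := norm_Qp (ip_orth B) (mt g - 1)
  have h3 : ∀ a, ip (B.X a) (mt g - 1) = -fi B.toLD a g := by
    intro a
    have e1 : fi B.toLD a g = trX B.toLD a (mt g) := rfl
    rw [e1]
    unfold trX
    have e2 : (B.toLD.X a)ᴴ = -B.X a := B.skewX a
    rw [e2]
    rw [ip_apply, ip_apply, mul_sub, mul_one, trace_sub, Complex.sub_re, conjTranspose_neg,
      neg_mul, trace_neg, Complex.neg_re, neg_neg]
    have e3 : (trace (B.X a)ᴴ).re = 0 := by
      have h := congrArg (fun M => (trace M).re) (B.skewX a)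
      simp only [trace_conjTranspose, trace_neg, Complex.neg_re] at h
      rw [trace_conjTranspose]
      have h2 : (star (trace (B.X a))).re = (trace (B.X a)).re := by simp
      rw [h2] at h ⊢
      linarith
    rw [e3, sub_zero]
  have h4 : ‖mt g - 1‖ = dv B.toLD g := rfl
  have h5 := dv_sq (L := B.toLD) g
  simp only [h3, neg_sq] at h2
  rw [h4] at h2 h1
  have h6 : we B.toLD g - 1 / 2 * ∑ a, fi B.toLD a g ^ 2 = 1 / 2 * ‖Qp B.X (mt g - 1)‖ ^ 2 := by
    rw [h2]; linarith
  rw [h6, abs_of_nonneg (by positivity)]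
  have h7 : ‖Qp B.X (mt g - 1)‖ ^ 2 ≤ (C * dv B.toLD g ^ 2) ^ 2 :=
    pow_le_pow_left₀ (norm_nonneg _) h1 2
  have h8 : (C * dv B.toLD g ^ 2) ^ 2 = C ^ 2 * dv B.toLD g ^ 4 := by ring
  rw [h8] at h7
  have h9 : 0 ≤ ‖Qp B.X (mt g - 1)‖ ^ 2 := sq_nonneg _
  linarith

end

end Pool.Agent.TH369.WL
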